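import Mathlib

/-!
# MP_78803a, EVENT: the truncated expansions of `1/(1 - x^(l+1))` at the three cusps
-/

set_option autoImplicit false

open Finset

namespace Pool.Agent.Helper61.QF

/-- `S(x) = 1 + x + … + x^l` -/
noncomputable def SS (l : ℕ) (x : ℂ) : ℂ := ∑ j ∈ range (l + 1), x ^ j

/-- `Ψ(x) = 1 - x^(l+1)` -/
noncomputable def PP (l : ℕ) (x : ℂ) : ℂ := 1 - x ^ (l + 1)

theorem PP_eq (l : ℕ) (x : ℂ) : PP l x = (1 - x) * SS l x := by
  unfold PP SS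
  rw [mul_neg_geom_sum]

/-- the small quantity at the cusp `x = 1` -/
noncomputable def yy (l : ℕ) (x : ℂ) : ℂ := 1 - SS l x / (l + 1)

/-- The small quantities of the three cusps: `0 ↦ (x → 1)`, `1 ↦ (x → 0)`, `2 ↦ (x → ∞)`. -/
noncomputable def qq (l : ℕ) (τ : Fin 3) (x : ℂ) : ℂ :=
  if τ = 0 then yy l x else if τ = 1 then x ^ (l + 1) else (x ^ (l + 1))⁻¹

/-- The truncated expansions of `1/Ψ`. -/
noncomputable def TT (l J : ℕ) (τ : Fin 3) (x : ℂ) : ℂ :=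
  (if τ = 0 then ((1 - x) * (l + 1))⁻¹ else if τ = 1 then 1 else -(x ^ (l + 1))⁻¹) *
    ∑ j ∈ range J, qq l τ x ^ j

theorem PP_mul_TT (l J : ℕ) (τ : Fin 3) {x : ℂ} (h0 : x ≠ 0) (h1 : x ≠ 1) :
    PP l x * TT l J τ x = 1 - qq l τ x ^ J := by
  have hl : ((l : ℂ) + 1) ≠ 0 := by exact_mod_cast Nat.succ_ne_zero l
  have hx : (1 : ℂ) - x ≠ 0 := sub_ne_zero.2 h1.symm
  have hp : x ^ (l + 1) ≠ 0 := pow_ne_zero _ h0
  have key : (PP l x * (if τ = 0 then ((1 - x) * (l + 1))⁻¹ else if τ = 1 then 1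
      else -(x ^ (l + 1))⁻¹)) = 1 - qq l τ x := by
    unfold qq
    split_ifs with h2 h3
    · rw [PP_eq]
      unfold yy
      field_simp
      ring
    · unfold PP
      ring
    · unfold PP
      field_simp
      ring
  unfold TT
  rw [← mul_assoc, key, mul_neg_geom_sum]

/-! ### sizes -/

theorem norm_SS_le (l : ℕ) (x : ℂ) : ‖SS l x‖ ≤ (1 + ‖x‖) ^ l * (l + 1) := by
  unfold SS
  have h1 : ∀ j ∈ range (l + 1), ‖x ^ j‖ ≤ (1 + ‖x‖) ^ l := by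
    intro j hj
    rw [norm_pow]
    have h2 : j ≤ l := by
      have := mem_range.1 hj
      omega
    calc ‖x‖ ^ j ≤ (1 + ‖x‖) ^ j := pow_le_pow_left₀ (norm_nonneg _) (by linarith [norm_nonneg x]) _
      _ ≤ (1 + ‖x‖) ^ l := pow_le_pow_right₀ (by linarith [norm_nonneg x]) h2
  refine (norm_sum_le_of_le _ h1).trans ?_
  rw [sum_const, card_range, nsmul_eq_mul]
  push_cast
  rw [mul_comm]

/-- near `x = 1` the number `yy` is small -/
theorem norm_yy_le (l : ℕ) {x : ℂ} (h : ‖1 - x‖ ≤ 1) : ‖yy l x‖ ≤ 2 ^ l * ‖1 - x‖ := by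
  have hl : (0 : ℝ) < (l : ℝ) + 1 := by positivity
  have hlc : ((l : ℂ) + 1) ≠ 0 := by exact_mod_cast Nat.succ_ne_zero l
  have hj : ∀ j : ℕ, ‖1 - x ^ j‖ ≤ (2 ^ j - 1) * ‖1 - x‖ := by
    intro j
    induction j with
    | zero => simp
    | succ j ih =>
      have e : 1 - x ^ (j + 1) = (1 - x ^ j) * x + (1 - x) := by ring
      have hx : ‖x‖ ≤ 2 := by
        calc ‖x‖ = ‖1 - (1 - x)‖ := by congr 1; ring
          _ ≤ ‖(1 : ℂ)‖ + ‖1 - x‖ := norm_sub_le _ _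
          _ ≤ 2 := by rw [norm_one]; linarith
      rw [e]
      refine (norm_add_le _ _).trans ?_
      rw [norm_mul]
      have hb : (0 : ℝ) ≤ (2 ^ j - 1) * ‖1 - x‖ := (norm_nonneg _).trans ih
      calc ‖1 - x ^ j‖ * ‖x‖ + ‖1 - x‖ ≤ ((2 ^ j - 1) * ‖1 - x‖) * 2 + ‖1 - x‖ := by
            have := mul_le_mul ih hx (norm_nonneg _) hb
            linarith
        _ = (2 ^ (j + 1) - 1) * ‖1 - x‖ := by ring
  have e : yy l x = (∑ j ∈ range (l + 1), (1 - x ^ j)) / (l + 1) := by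
    unfold yy SS
    rw [sum_sub_distrib, sum_const, card_range, nsmul_eq_mul]
    push_cast
    field_simp
  rw [e, norm_div]
  have hn : ‖((l : ℂ) + 1)‖ = (l : ℝ) + 1 := by
    have : ((l : ℂ) + 1) = (((l : ℝ) + 1 : ℝ) : ℂ) := by push_cast; ring
    rw [this, Complex.norm_real, Real.norm_eq_abs, abs_of_pos hl]
  rw [hn, div_le_iff₀ hl]
  have hb : ∀ j ∈ range (l + 1), ‖1 - x ^ j‖ ≤ 2 ^ l * ‖1 - x‖ := by
    intro j hj'
    refine (hj j).trans ?_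
    have h2 : j ≤ l := by
      have := mem_range.1 hj'
      omega
    have h3 : (2 : ℝ) ^ j ≤ 2 ^ l := pow_le_pow_right₀ (by norm_num) h2
    exact mul_le_mul_of_nonneg_right (by linarith) (norm_nonneg _)
  refine (norm_sum_le_of_le _ hb).trans ?_
  rw [sum_const, card_range, nsmul_eq_mul]
  push_cast
  rw [mul_comm]

/-- the small quantities are never larger than `exp((2l+1) M)` -/
theorem norm_qq_le (l : ℕ) (τ : Fin 3) {x : ℂ} {M : ℝ} (hM : 1 ≤ M)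
    (h0 : Real.exp (-M) ≤ ‖x‖) (h2 : ‖x‖ ≤ Real.exp M) :
    ‖qq l τ x‖ ≤ Real.exp ((2 * l + 1) * M) := by
  have hx0 : 0 < ‖x‖ := (Real.exp_pos _).trans_le h0
  have hl : (0 : ℝ) < (l : ℝ) + 1 := by positivity
  have hlc : ‖((l : ℂ) + 1)‖ = (l : ℝ) + 1 := by
    have : ((l : ℂ) + 1) = (((l : ℝ) + 1 : ℝ) : ℂ) := by push_cast; ring
    rw [this, Complex.norm_real, Real.norm_eq_abs, abs_of_pos hl]
  have h28 : (2 : ℝ) ≤ Real.exp 1 := by
    have := Real.add_one_le_exp (1 : ℝ)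
    linarith
  unfold qq
  split_ifs with h3 h4
  · unfold yy
    refine (norm_sub_le _ _).trans ?_
    rw [norm_one, norm_div, hlc]
    have h5 : ‖SS l x‖ / (l + 1) ≤ (1 + ‖x‖) ^ l := by
      rw [div_le_iff₀ hl]
      exact norm_SS_le l x
    have h6 : (1 + ‖x‖) ^ l ≤ (Real.exp (2 * M)) ^ l := by
      refine pow_le_pow_left₀ (by positivity) ?_ _
      have e1 : Real.exp (2 * M) = Real.exp M * Real.exp M := by rw [← Real.exp_add]; ring_nf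
      have e2 : (2 : ℝ) ≤ Real.exp M := h28.trans (Real.exp_le_exp.2 hM)
      rw [e1]
      nlinarith
    have h7 : (Real.exp (2 * M)) ^ l = Real.exp (2 * l * M) := by
      rw [← Real.exp_nat_mul]
      ring_nf
    have h8 : Real.exp ((2 * l + 1) * M) = Real.exp (2 * l * M) * Real.exp M := by
      rw [← Real.exp_add]
      ring_nf
    have h9 : 1 ≤ Real.exp (2 * l * M) := Real.one_le_exp (by positivity)
    have h10 : (2 : ℝ) ≤ Real.exp M := h28.trans (Real.exp_le_exp.2 hM)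
    rw [h8]
    rw [h7] at h6
    nlinarith
  · rw [norm_pow]
    calc ‖x‖ ^ (l + 1) ≤ Real.exp M ^ (l + 1) := pow_le_pow_left₀ hx0.le h2 _
      _ = Real.exp (((l + 1 : ℕ) : ℝ) * M) := by rw [← Real.exp_nat_mul]
      _ ≤ Real.exp ((2 * l + 1) * M) := by
          refine Real.exp_le_exp.2 (mul_le_mul_of_nonneg_right ?_ (by linarith))
          push_cast
          have : (0 : ℝ) ≤ l := Nat.cast_nonneg l
          linarith
  · rw [norm_inv, norm_pow]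
    have h5 : Real.exp (-M) ^ (l + 1) ≤ ‖x‖ ^ (l + 1) :=
      pow_le_pow_left₀ (Real.exp_pos _).le h0 _
    calc (‖x‖ ^ (l + 1))⁻¹ ≤ (Real.exp (-M) ^ (l + 1))⁻¹ :=
          inv_anti₀ (pow_pos (Real.exp_pos _) _) h5
      _ = Real.exp (((l + 1 : ℕ) : ℝ) * M) := by
          rw [← Real.exp_nat_mul, ← Real.exp_neg]
          ring_nf
      _ ≤ Real.exp ((2 * l + 1) * M) := by
          refine Real.exp_le_exp.2 (mul_le_mul_of_nonneg_right ?_ (by linarith))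
          push_cast
          have : (0 : ℝ) ≤ l := Nat.cast_nonneg l
          linarith

/-- A crude size bound for the truncated expansions. -/
theorem norm_TT_le (l J : ℕ) (τ : Fin 3) {x : ℂ} {M : ℝ} (hM : 1 ≤ M)
    (h0 : Real.exp (-M) ≤ ‖x‖) (h1 : Real.exp (-M) ≤ ‖1 - x‖) (h2 : ‖x‖ ≤ Real.exp M) :
    ‖TT l J τ x‖ ≤ J * Real.exp ((2 * l + 1) * M * (J + 1)) := by
  have hx0 : 0 < ‖x‖ := (Real.exp_pos _).trans_le h0
  have hx1 : 0 < ‖1 - x‖ := (Real.exp_pos _).trans_le h1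
  have hl : (0 : ℝ) < (l : ℝ) + 1 := by positivity
  have hl0 : (0 : ℝ) ≤ l := Nat.cast_nonneg l
  have hlc : ‖((l : ℂ) + 1)‖ = (l : ℝ) + 1 := by
    have : ((l : ℂ) + 1) = (((l : ℝ) + 1 : ℝ) : ℂ) := by push_cast; ring
    rw [this, Complex.norm_real, Real.norm_eq_abs, abs_of_pos hl]
  set E := Real.exp ((2 * l + 1) * M) with hE
  have hE1 : 1 ≤ E := Real.one_le_exp (by positivity)
  have hq := norm_qq_le l τ hM h0 h2
  have hpre : ‖(if τ = 0 then ((1 - x) * (l + 1))⁻¹ else if τ = 1 then 1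
      else -(x ^ (l + 1))⁻¹ : ℂ)‖ ≤ E := by
    split_ifs with h3 h4
    · rw [norm_inv, norm_mul, hlc]
      have h5 : Real.exp (-M) ≤ ‖1 - x‖ * (l + 1) := by nlinarith
      calc (‖1 - x‖ * (l + 1))⁻¹ ≤ (Real.exp (-M))⁻¹ := inv_anti₀ (Real.exp_pos _) h5
        _ = Real.exp M := by rw [Real.exp_neg, inv_inv]
        _ ≤ E := Real.exp_le_exp.2 (by nlinarith)
    · rw [norm_one]
      exact hE1
    · have h5 := norm_qq_le l 2 hM h0 h2
      have h6 : qq l 2 x = (x ^ (l + 1))⁻¹ := by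
        unfold qq
        simp
      rw [h6] at h5
      rwa [norm_neg]
  have hsum : ‖∑ j ∈ range J, qq l τ x ^ j‖ ≤ J * E ^ J := by
    have hb : ∀ j ∈ range J, ‖qq l τ x ^ j‖ ≤ E ^ J := by
      intro j hj
      rw [norm_pow]
      calc ‖qq l τ x‖ ^ j ≤ E ^ j := pow_le_pow_left₀ (norm_nonneg _) hq _
        _ ≤ E ^ J := pow_le_pow_right₀ hE1 (mem_range.1 hj).le
    refine (norm_sum_le_of_le _ hb).trans ?_
    rw [sum_const, card_range, nsmul_eq_mul]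
  unfold TT
  rw [norm_mul]
  have e : Real.exp ((2 * l + 1) * M * (J + 1)) = E * E ^ J := by
    rw [hE, ← Real.exp_nat_mul, ← Real.exp_add]
    ring_nf
  rw [e]
  calc ‖(if τ = 0 then ((1 - x) * (l + 1))⁻¹ else if τ = 1 then 1
        else -(x ^ (l + 1))⁻¹ : ℂ)‖ * ‖∑ j ∈ range J, qq l τ x ^ j‖ ≤ E * (J * E ^ J) :=
        mul_le_mul hpre hsum (norm_nonneg _) (by positivity)
    _ = J * (E * E ^ J) := by ring

/-- In each cusp `|Ψ|` is comparable to `|1-x| (1 + |x| + |1-x|)^l`. -/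
theorem le_norm_PP (l : ℕ) {x : ℂ}
    (h : ‖x‖ ≤ 1 / 4 ∨ ‖1 - x‖ ≤ 1 / (2 * 2 ^ l) ∨ 4 ≤ ‖x‖) :
    ‖1 - x‖ * (1 + ‖x‖ + ‖1 - x‖) ^ l ≤ 4 * 4 ^ l * ‖PP l x‖ := by
  have hl : (0 : ℝ) < (l : ℝ) + 1 := by positivity
  have h2l : (1 : ℝ) ≤ 2 ^ l := one_le_pow₀ (by norm_num)
  have h4l : (0 : ℝ) < 4 ^ l := by positivity
  have n0 := norm_nonneg x
  have n1 := norm_nonneg (1 - x)
  have ht : ‖1 - x‖ ≤ 1 + ‖x‖ := by
    calc ‖1 - x‖ ≤ ‖(1 : ℂ)‖ + ‖x‖ := norm_sub_le _ _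
      _ = 1 + ‖x‖ := by rw [norm_one]
  have ht' : ‖x‖ ≤ 1 + ‖1 - x‖ := by
    calc ‖x‖ = ‖1 - (1 - x)‖ := by congr 1; ring
      _ ≤ ‖(1 : ℂ)‖ + ‖1 - x‖ := norm_sub_le _ _
      _ = 1 + ‖1 - x‖ := by rw [norm_one]
  rcases h with h | h | h
  · -- `x` near `0`
    have h3 : (1 + ‖x‖ + ‖1 - x‖) ^ l ≤ 4 ^ l := by
      refine pow_le_pow_left₀ (by positivity) ?_ _
      linarith
    have h4 : 3 / 4 ≤ ‖PP l x‖ := by
      unfold PP
      have h5 : ‖x ^ (l + 1)‖ ≤ 1 / 4 := by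
        rw [norm_pow, pow_succ]
        have : ‖x‖ ^ l ≤ 1 := pow_le_one₀ n0 (by linarith)
        nlinarith
      have h6 : ‖(1 : ℂ)‖ ≤ ‖1 - x ^ (l + 1)‖ + ‖x ^ (l + 1)‖ := by
        calc ‖(1 : ℂ)‖ = ‖(1 - x ^ (l + 1)) + x ^ (l + 1)‖ := by congr 1; ring
          _ ≤ _ := norm_add_le _ _
      rw [norm_one] at h6
      linarith
    have h5 : ‖1 - x‖ ≤ 5 / 4 := by linarith
    calc ‖1 - x‖ * (1 + ‖x‖ + ‖1 - x‖) ^ l ≤ 5 / 4 * 4 ^ l :=
          mul_le_mul h5 h3 (by positivity) (by norm_num)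
      _ ≤ 4 * 4 ^ l * ‖PP l x‖ := by nlinarith
  · -- `x` near `1`
    have h3 : 1 / (2 * 2 ^ l) ≤ (1 : ℝ) / 2 := by
      rw [div_le_div_iff₀ (by positivity) (by norm_num)]
      linarith
    have h4 : ‖yy l x‖ ≤ 1 / 2 := by
      refine (norm_yy_le l (by linarith)).trans ?_
      calc 2 ^ l * ‖1 - x‖ ≤ 2 ^ l * (1 / (2 * 2 ^ l)) := mul_le_mul_of_nonneg_left h (by positivity)
        _ = 1 / 2 := by field_simp
    have h5 : (l + 1) / 2 ≤ ‖SS l x‖ := by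
      have e : SS l x = (l + 1) * (1 - yy l x) := by
        unfold yy
        have : ((l : ℂ) + 1) ≠ 0 := by exact_mod_cast Nat.succ_ne_zero l
        field_simp
        ring
      have hlc : ‖((l : ℂ) + 1)‖ = (l : ℝ) + 1 := by
        have : ((l : ℂ) + 1) = (((l : ℝ) + 1 : ℝ) : ℂ) := by push_cast; ring
        rw [this, Complex.norm_real, Real.norm_eq_abs, abs_of_pos hl]
      rw [e, norm_mul, hlc]
      have h6 : ‖(1 : ℂ)‖ ≤ ‖1 - yy l x‖ + ‖yy l x‖ := by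
        calc ‖(1 : ℂ)‖ = ‖(1 - yy l x) + yy l x‖ := by congr 1; ring
          _ ≤ _ := norm_add_le _ _
      rw [norm_one] at h6
      nlinarith
    have h6 : (1 + ‖x‖ + ‖1 - x‖) ^ l ≤ 4 ^ l := by
      refine pow_le_pow_left₀ (by positivity) ?_ _
      linarith
    have h7 : (1 : ℝ) / 2 ≤ ‖SS l x‖ := by
      have : (0 : ℝ) ≤ l := Nat.cast_nonneg l
      linarith
    rw [PP_eq, norm_mul]
    calc ‖1 - x‖ * (1 + ‖x‖ + ‖1 - x‖) ^ l ≤ ‖1 - x‖ * 4 ^ l := mul_le_mul_of_nonneg_left h6 n1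
      _ ≤ 4 * 4 ^ l * (‖1 - x‖ * ‖SS l x‖) := by
          have : ‖1 - x‖ * 4 ^ l * 1 ≤ ‖1 - x‖ * 4 ^ l * (4 * ‖SS l x‖) :=
            mul_le_mul_of_nonneg_left (by linarith) (by positivity)
          linarith
  · -- `x` near `∞`
    have h3 : (1 + ‖x‖ + ‖1 - x‖) ^ l ≤ (4 * ‖x‖) ^ l := by
      refine pow_le_pow_left₀ (by positivity) ?_ _
      linarith
    have h4 : ‖x‖ ^ (l + 1) * (3 / 4) ≤ ‖PP l x‖ := by
      unfold PP
      have h5 : ‖x ^ (l + 1)‖ ≤ ‖1 - x ^ (l + 1)‖ + ‖(1 : ℂ)‖ := by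
        calc ‖x ^ (l + 1)‖ = ‖1 - (1 - x ^ (l + 1))‖ := by congr 1; ring
          _ ≤ ‖(1 : ℂ)‖ + ‖1 - x ^ (l + 1)‖ := norm_sub_le _ _
          _ = _ := add_comm _ _
      rw [norm_one, norm_pow] at h5
      have h6 : 4 ≤ ‖x‖ ^ (l + 1) := by
        rw [pow_succ]
        have : 1 ≤ ‖x‖ ^ l := one_le_pow₀ (by linarith)
        nlinarith
      linarith
    have h5 : ‖1 - x‖ ≤ 5 / 4 * ‖x‖ := by linarith
    calc ‖1 - x‖ * (1 + ‖x‖ + ‖1 - x‖) ^ l ≤ (5 / 4 * ‖x‖) * (4 * ‖x‖) ^ l :=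
          mul_le_mul h5 h3 (by positivity) (by positivity)
      _ = 5 / 4 * 4 ^ l * ‖x‖ ^ (l + 1) := by rw [mul_pow]; ring
      _ ≤ 4 * 4 ^ l * ‖PP l x‖ := by
          have h7 : 0 ≤ ‖x‖ ^ (l + 1) := by positivity
          nlinarith

end Pool.Agent.Helper61.QF
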