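import Pool.Agent.Helper61.QF.EvDefs

/-!
# Ev1 (MP_78803a, EVENT): the height and the type are almost constant on small arcs

Proof.
* `ps_close`: `Pool.Agent.Helper29.QF.ps_lip` with `E.core.speed` (drop `‖vV‖ ≥ 0`).
* `Y_close`: `ps ≤ V * 3δ ≤ 66/10^8` (`E.Vδ_le`), `Pool.Agent.Helper84.Lam.L4` gives
  `|log Y(x) - log Y(y)| ≤ 6700 ps ≤ 0.0045`, hence `|Y(x)/Y(y) - 1| ≤ 0.01`.
* `xt_exists`: `T_L4`. `xt_size`: `T_L4` gives a type with a small value, `not_two` says it is `τ`.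
* `xt_close`: put `Z = (1-lamD)⁻¹` (τ=0), `(lamD)⁻¹` (τ=1), `lamD` (τ=2); so `xt τ w = ‖Z w‖⁻¹` and by
  `xt_size` at `y`: `log ‖Z (B y)‖ ≥ Y/2 - 5 ≥ C₁/8 - 5 ≥ 95`. `cusp_harnack` with
  `(1-ps)/(1+ps) ≥ 0.99`: `log ‖Z (B x)‖ ≥ 0.99 * 95 - 3 ≥ log 10`. Second part: `not_two` (three cases).
-/

set_option autoImplicit false

open Polynomial Complex Metric
open Pool.Agent.Helper81.QF Pool.Agent.Helper29.QF
open Pool.Agent.Helper84.Lam (YD lamD LL L1 F3 ps)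

namespace Pool.Agent.Helper61.QF

theorem xt_pos {w : ℂ} (hw : ‖w‖ < 1) (τ : Fin 3) : 0 < xt τ w := by
  have h0 := norm_pos_iff.2 (Pool.Agent.Helper84.Lam.lamD_ne_zero hw)
  have h1 : 0 < ‖1 - lamD w‖ :=
    norm_pos_iff.2 (sub_ne_zero.2 (Pool.Agent.Helper84.Lam.lamD_ne_one hw).symm)
  unfold xt
  split_ifs
  · exact h1
  · exact h0
  · exact inv_pos.2 h0

private theorem xt_zero (w : ℂ) : xt 0 w = ‖1 - lamD w‖ := by simp [xt]

private theorem xt_one (w : ℂ) : xt 1 w = ‖lamD w‖ := by simp [xt]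

private theorem xt_two (w : ℂ) : xt 2 w = ‖lamD w‖⁻¹ := by simp [xt]

theorem xt_exists {w : ℂ} (hw : ‖w‖ < 1) (hY : 20 ≤ YD w) :
    ∃ τ : Fin 3, xt τ w ≤ 2 * Real.exp (4 - YD w / 2) ∧ xt τ w ≤ 1 / 10 := by
  rcases Pool.Agent.Helper84.Lam.T_L4 hw hY with h | h | h
  · exact ⟨1, by rw [xt_one]; exact h⟩
  · exact ⟨0, by rw [xt_zero]; exact h⟩
  · exact ⟨2, by rw [xt_two]; exact h⟩

theorem xt_unique {w : ℂ} (hw : ‖w‖ < 1) {τ τ' : Fin 3} (h : xt τ w ≤ 1 / 10)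
    (h' : xt τ' w ≤ 1 / 10) : τ = τ' := by
  obtain ⟨h1, h2, h3⟩ := Pool.Agent.Helper84.Lam.not_two hw
  fin_cases τ <;> fin_cases τ' <;>
    simp only [Fin.zero_eta, Fin.mk_one, Fin.reduceFinMk, xt_zero, xt_one, xt_two] at h h' ⊢
  · exact absurd ⟨h', h⟩ h1
  · exact absurd ⟨h, h'⟩ h3
  · exact absurd ⟨h, h'⟩ h1
  · exact absurd ⟨h, h'⟩ h2
  · exact absurd ⟨h', h⟩ h3
  · exact absurd ⟨h', h⟩ h2

theorem xt_size {w : ℂ} (hw : ‖w‖ < 1) (hY : 20 ≤ YD w) {τ : Fin 3} (h : xt τ w ≤ 1 / 10) :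
    xt τ w ≤ 2 * Real.exp (4 - YD w / 2) := by
  obtain ⟨τ', h1, h2⟩ := xt_exists hw hY
  rw [xt_unique hw h h2]
  exact h1

private theorem exists_Z (τ : Fin 3) : ∃ Z : ℂ → ℂ, (Z = lamD ∨ Z = (fun w => (1 - lamD w)⁻¹) ∨
    Z = (fun w => (lamD w)⁻¹)) ∧ ∀ w, xt τ w = ‖Z w‖⁻¹ := by
  fin_cases τ
  · refine ⟨fun w => (1 - lamD w)⁻¹, Or.inr (Or.inl rfl), fun w => ?_⟩
    simp only [Fin.zero_eta, xt_zero, norm_inv, inv_inv]
  · refine ⟨fun w => (lamD w)⁻¹, Or.inr (Or.inr rfl), fun w => ?_⟩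
    simp only [Fin.mk_one, xt_one, norm_inv, inv_inv]
  · refine ⟨lamD, Or.inl rfl, fun w => ?_⟩
    simp only [Fin.reduceFinMk, xt_two]

/-- Harnack: the type survives a move `ps B v` as long as `(1-ps)/(1+ps) * Y` is large. -/
theorem xt_harnack {w v : ℂ} (hw : ‖w‖ < 1) (hv : ‖v‖ < 1) (hY : 20 ≤ YD w) {τ : Fin 3}
    (h : xt τ w ≤ 1 / 10) (h6 : 6 ≤ (1 - ps w v) / (1 + ps w v) * (YD w / 2 - 5)) :
    Real.log (xt τ v) ≤ 3 - (1 - ps w v) / (1 + ps w v) * (YD w / 2 - 5) := by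
  obtain ⟨Z, hZ, hx⟩ := exists_Z τ
  have hp := xt_pos hw τ
  have hs := xt_size hw hY h
  have h0 : 0 ≤ ps w v := div_nonneg (norm_nonneg _) (norm_nonneg _)
  have h1 := Pool.Agent.Helper84.Lam.ps_lt_one hw hv
  have h2 : 0 ≤ (1 - ps w v) / (1 + ps w v) := div_nonneg (by linarith) (by linarith)
  have hZw : ‖Z w‖ = (xt τ w)⁻¹ := by rw [hx, inv_inv]
  have h10 : 10 ≤ ‖Z w‖ := by
    rw [hZw, le_inv_comm₀ (by norm_num) hp]
    linarith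
  have hlog : YD w / 2 - 5 ≤ Real.log ‖Z w‖ := by
    have h3 : Real.log (xt τ w) ≤ Real.log (2 * Real.exp (4 - YD w / 2)) :=
      Real.log_le_log hp hs
    rw [Real.log_mul (by norm_num) (Real.exp_pos _).ne', Real.log_exp] at h3
    have h4 : Real.log 2 ≤ 1 := by
      have := Real.log_two_lt_d9
      linarith
    rw [hZw, Real.log_inv]
    linarith
  have h3 : (1 - ps w v) / (1 + ps w v) * (YD w / 2 - 5) ≤
      (1 - ps w v) / (1 + ps w v) * Real.log ‖Z w‖ := mul_le_mul_of_nonneg_left hlog h2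
  have h4 := Pool.Agent.Helper84.Lam.cusp_harnack hZ hw hv h10 (by linarith)
  rw [hx, Real.log_inv]
  linarith

namespace Ev

variable {l : ℕ} (E : Ev l)

theorem B_lt {z : ℂ} (hz : ‖z‖ ≤ 1) : ‖E.B z‖ < 1 := Bq_lt E.pair hz

theorem ps_close {x y : ℂ} (hx : ‖x‖ ≤ 1) (hy : ‖y‖ ≤ 1) :
    ps (E.B x) (E.B y) ≤ E.V * ‖x - y‖ := by
  refine ps_lip E.pair (by linarith [E.hV]) (fun z hz => ?_) hx hy
  have h1 := E.core.speed z hz
  have h2 := norm_nonneg (vV E.b E.d z)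
  linarith

private theorem ps_small {x y : ℂ} (hx : ‖x‖ ≤ 1) (hy : ‖y‖ ≤ 1) (h : ‖x - y‖ ≤ 3 * E.δ) :
    ps (E.B x) (E.B y) ≤ 66 / 10 ^ 8 := by
  refine (E.ps_close hx hy).trans ?_
  have h1 := E.Vδ_le
  have hV := E.hV
  have h2 : E.V * ‖x - y‖ ≤ E.V * (3 * E.δ) := mul_le_mul_of_nonneg_left h (by linarith)
  linarith

theorem Y_close {x y : ℂ} (hx : ‖x‖ ≤ 1) (hy : ‖y‖ ≤ 1) (h : ‖x - y‖ ≤ 3 * E.δ) :
    |YD (E.B x) - YD (E.B y)| ≤ YD (E.B y) / 100 := by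
  have hps := E.ps_small hx hy h
  have hx' := E.B_lt hx
  have hy' := E.B_lt hy
  have h1 := Pool.Agent.Helper84.Lam.L4 hx' hy' (by linarith)
  have hYx : 0.8 ≤ YD (E.B x) := Pool.Agent.Helper84.Lam.YD_lower hx'
  have hYy : 0.8 ≤ YD (E.B y) := Pool.Agent.Helper84.Lam.YD_lower hy'
  have h2 : |Real.log (YD (E.B x)) - Real.log (YD (E.B y))| ≤ 0.0045 := by
    rw [abs_sub_comm]
    linarith
  set u := Real.log (YD (E.B x)) - Real.log (YD (E.B y)) with hu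
  have h3 : YD (E.B x) = YD (E.B y) * Real.exp u := by
    rw [hu, Real.exp_sub, Real.exp_log (by linarith), Real.exp_log (by linarith)]
    field_simp
  have h4 := Real.abs_exp_sub_one_le (x := u) (by linarith)
  have h5 : YD (E.B x) - YD (E.B y) = YD (E.B y) * (Real.exp u - 1) := by
    rw [h3]; ring
  rw [h5, abs_mul, abs_of_pos (by linarith : 0 < YD (E.B y))]
  nlinarith

theorem xt_close {x y : ℂ} (hx : ‖x‖ ≤ 1) (hy : ‖y‖ ≤ 1) (h : ‖x - y‖ ≤ 3 * E.δ) {τ : Fin 3}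
    (hY : E.C₁ / 4 ≤ YD (E.B y)) (hτ : xt τ (E.B y) ≤ 1 / 10) :
    xt τ (E.B x) ≤ 1 / 10 ∧ ∀ τ' : Fin 3, τ' ≠ τ → 1 / 10 < xt τ' (E.B x) := by
  have hps := E.ps_small hy hx (by rw [norm_sub_rev]; exact h)
  have hx' := E.B_lt hx
  have hy' := E.B_lt hy
  have hC := E.C_ge
  have hps0 : 0 ≤ ps (E.B y) (E.B x) := div_nonneg (norm_nonneg _) (norm_nonneg _)
  have h1 : 0.99 ≤ (1 - ps (E.B y) (E.B x)) / (1 + ps (E.B y) (E.B x)) := by
    rw [le_div_iff₀ (by linarith)]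
    linarith
  have h2 : 94 ≤ (1 - ps (E.B y) (E.B x)) / (1 + ps (E.B y) (E.B x)) * (YD (E.B y) / 2 - 5) := by
    nlinarith
  have h3 := xt_harnack hy' hx' (by linarith) hτ (by linarith)
  have h4 : xt τ (E.B x) ≤ 1 / 10 := by
    have h5 : Real.log (xt τ (E.B x)) ≤ -10 := by linarith
    have h6 := (Real.log_le_iff_le_exp (xt_pos hx' τ)).1 h5
    refine h6.trans ?_
    rw [Real.exp_neg, ← one_div]
    have h7 := Real.add_one_le_exp (10 : ℝ)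
    exact one_div_le_one_div_of_le (by norm_num) (by linarith)
  refine ⟨h4, fun τ' hne => ?_⟩
  by_contra hcon
  exact hne (xt_unique hx' (not_lt.1 hcon) h4)

end Ev

end Pool.Agent.Helper61.QF
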