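import Pool.Agent.Helper61.QF.Ev2

/-!
# Ev8 (MP_78803a, EVENT): the new speed

Proof.
* `g_growth`: `E.g_eval`, `chi_growth` with `V = 1`; `kd ≤ N/4`.
* `deriv_g`: Cauchy's estimate for `g` on the circle of radius `1/(2N)` around `z` (`|g| ≤ (1 + 1/(2N))^(2N) ≤ e`):
  `|g'(z)| ≤ 2 e N ≤ 6 N`.
* `speed'`: `Helper29.QF.speed_step` with `s = V`, `|g| = β < 1`, `1 - β ≥ c₁/R`:
  the factor is at most `(2V + 6N + V) R/c₁ ≤ 7 N R/400` (`m ≤ V`, `E.N_ge_V`, `c₁ ≥ 400`).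
-/

set_option autoImplicit false

open Polynomial Complex Metric
open Pool.Agent.Helper81.QF Pool.Agent.Helper29.QF
open Pool.Agent.Helper84.Lam (YD lamD LL L1 F3 ps)

namespace Pool.Agent.Helper61.QF.Ev

variable {l : ℕ} (E : Ev l)

private theorem h86_max {p : ℂ[X]} {M : ℝ} (hM : ∀ z : ℂ, ‖z‖ = 1 → ‖p.eval z‖ ≤ M) {w : ℂ} (hw : ‖w‖ ≤ 1) :
    ‖p.eval w‖ ≤ M :=
  Complex.norm_le_of_forall_mem_frontier_norm_le (f := fun z => p.eval z)
    (U := ball (0 : ℂ) 1) (C := M) isBounded_ball p.differentiable.diffContOnCl (by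
      intro z hz
      rw [frontier_ball _ one_ne_zero, mem_sphere, dist_zero_right] at hz
      exact hM z hz)
    (z := w) (by
      rw [closure_ball _ one_ne_zero, mem_closedBall, dist_zero_right]
      exact hw)

private theorem h86_deriv {p : ℂ[X]} {N : ℕ} (hN : 1 ≤ N) (hd : p.natDegree ≤ N) {M : ℝ}
    (hM : ∀ z : ℂ, ‖z‖ = 1 → ‖p.eval z‖ ≤ M) {z : ℂ} (hz : ‖z‖ ≤ 1) :
    ‖p.derivative.eval z‖ ≤ 3 * N * M := by
  have hM0 : 0 ≤ M := (norm_nonneg _).trans (hM 1 (by simp))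
  have hN0 : (0 : ℝ) < N := by exact_mod_cast hN
  have hpow : (1 + 1 / (N : ℝ)) ^ N ≤ 3 := by
    have h1 : 1 + 1 / (N : ℝ) ≤ Real.exp (1 / N) := by
      have := Real.add_one_le_exp (1 / (N : ℝ))
      linarith
    calc (1 + 1 / (N : ℝ)) ^ N ≤ Real.exp (1 / N) ^ N :=
          pow_le_pow_left₀ (by positivity) h1 _
      _ = Real.exp 1 := by
          rw [← Real.exp_nat_mul]
          congr 1
          field_simp
      _ ≤ 3 := by
          have h2 := Real.exp_one_lt_d9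
          linarith
  have hs : ∀ w ∈ sphere z (1 / (N : ℝ)), ‖p.eval w‖ ≤ 3 * M := by
    intro w hw
    rw [mem_sphere, dist_eq_norm] at hw
    have hw1 : ‖w‖ ≤ 1 + 1 / (N : ℝ) := by
      calc ‖w‖ = ‖z + (w - z)‖ := by ring_nf
        _ ≤ ‖z‖ + ‖w - z‖ := norm_add_le _ _
        _ ≤ _ := by rw [hw]; linarith
    by_cases h : 1 ≤ ‖w‖
    · calc ‖p.eval w‖ ≤ M * ‖w‖ ^ N := Pool.Agent.Helper58.LD.poly_growth hd hM h
        _ ≤ M * (1 + 1 / (N : ℝ)) ^ N := by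
            refine mul_le_mul_of_nonneg_left (pow_le_pow_left₀ (norm_nonneg _) hw1 _) hM0
        _ ≤ M * 3 := mul_le_mul_of_nonneg_left hpow hM0
        _ = 3 * M := by ring
    · have := h86_max hM (le_of_lt (not_le.1 h))
      linarith
  have h := Complex.norm_deriv_le_of_forall_mem_sphere_norm_le (f := fun z => p.eval z)
    (c := z) (R := 1 / (N : ℝ)) (by positivity) p.differentiable.diffContOnCl hs
  rw [Polynomial.deriv] at h
  refine h.trans (le_of_eq ?_)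
  field_simp

theorem g_growth {z : ℂ} (hz : 1 ≤ ‖z‖) : ‖E.g.eval z‖ ≤ ‖z‖ ^ (2 * E.N) := by
  have h := Pool.Agent.Helper58.LD.poly_growth E.g_natDegree (M := 1)
    (fun w hw => (E.g_lt hw.le).le) hz
  rwa [one_mul] at h

theorem deriv_g {z : ℂ} (hz : ‖z‖ = 1) : ‖(derivative E.g).eval z‖ ≤ 6 * E.N := by
  have h0 : 1 ≤ 2 * E.N := by
    have h1 := E.kd_lt
    omega
  have h := h86_deriv h0 E.g_natDegree (M := 1) (fun w hw => (E.g_lt hw.le).le) hz.le
  refine h.trans (le_of_eq ?_)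
  push_cast
  ring

theorem speed' {z : ℂ} (hz : ‖z‖ = 1) :
    ‖nN E.bp E.dp z‖ + ‖vV E.bp E.dp z‖ ≤ E.N * E.R * dl E.bp E.dp z := by
  have hg := E.g_le hz.le
  have hlt := E.g_lt hz.le
  have h1 := speed_step E.pair.db E.pair.dd hz (E.pair.lt z hz) hlt (E.core.speed z hz)
  refine h1.trans (mul_le_mul_of_nonneg_right ?_ (dl_pos E.pair' hz.le).le)
  have hd := E.deriv_g hz
  have hm := E.core.deg
  have hV := E.hV
  have hN := E.N_ge_V
  have hc := E.c_ge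
  have hR := E.R_ge
  have hn := norm_nonneg (E.g.eval z)
  have hm0 : (0 : ℝ) ≤ E.m := Nat.cast_nonneg _
  have hR0 : 0 < E.R := by linarith
  have h4 : E.c₁ / E.R ≤ 1 - ‖E.g.eval z‖ := by linarith
  have h5 : 0 < E.c₁ / E.R := by positivity
  rw [div_le_iff₀ (by linarith)]
  have h6 : (1 + ‖E.g.eval z‖) * E.V + ‖(derivative E.g).eval z‖ + E.m * ‖E.g.eval z‖ ≤ 7 * E.N := by
    nlinarith
  have h7 : (7 : ℝ) * E.N ≤ E.N * E.R * (E.c₁ / E.R) := by
    have e : (E.N : ℝ) * E.R * (E.c₁ / E.R) = E.N * E.c₁ := by field_simp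
    rw [e]
    nlinarith
  have h8 : (E.N : ℝ) * E.R * (E.c₁ / E.R) ≤ E.N * E.R * (1 - ‖E.g.eval z‖) := by
    refine mul_le_mul_of_nonneg_left h4 ?_
    positivity
  linarith

end Pool.Agent.Helper61.QF.Ev
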