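import Pool.Agent.Helper61.QF.Ev6
import Pool.Agent.Helper61.QF.Ev8

/-!
# Ev9 (MP_78803a, EVENT): bounds for `G'` and `Re G` on the closed disc

Proof.
* `Gd`: `deriv G = L1'(B₊)B₊' - L1'(B)B' - l (F3'(B₊)B₊' - F3'(B)B') + 2 l (d₊'/d₊ - d'/d)`
  (`ld` has derivative `d₊'/d₊ - d'/d`: it is a logarithm of `d₊/d`). `Helper29.QF.comp_deriv_le`: for `B₊` with
  speed `N R` and heights `≤ M` (`T_L2_three`: 8400, `speed_L1`: 2π), for `B` with speed `V ≤ N R` and heights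
  `≤ M/2`; `speed_d` for the last two. Total `≤ (2·2π M + 2·8400 l M + 4 l) N R ≤ 20000 (l+1) M N R`.
* `reG_circle`: `E.re_G`, `Helper29.QF.log_jj` twice, `E.dl_new`, so with `ee = |1-λ| hD^l`
  `Re G = l (log Y - log Y₊) + l log (1-β²) + log ee(B₊) - log ee(B)`;
  `|log (Y/Y₊)| ≤ log M + 1` (`YD_lower`: heights are `≥ 0.79`, `≤ M`), `|log (1-β²)| ≤ log (R/c₁) ≤ log M`,
  `|log |1-λ|| ≤ 7 M` and `3.5 M`, `0 ≤ log hD ≤ 7M + 2` (`hD ≤ 2 + 2 e^{7M}`), and `log M ≤ M/100` (`M ≥ 10^6`).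
  Total `≤ 10.5 M + l (7 M + 2 + 3 M/100 + 1) ≤ 20 (l+1) M`.
* `reG`: maximum principle for `G` and `-G` (`Pool.Agent.Helper58.LD.re_le_of_circle`, see the proof of `LL_inner`
  in `Helper29/QF/JJ.lean`).
-/

set_option autoImplicit false

open Polynomial Complex Metric
open Pool.Agent.Helper81.QF Pool.Agent.Helper29.QF
open Pool.Agent.Helper84.Lam (YD lamD LL L1 F3 ps)

namespace Pool.Agent.Helper61.QF.Ev

variable {l : ℕ} (E : Ev l)

theorem hasDeriv_ld {z : ℂ} (hz : ‖z‖ ≤ 1) :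
    HasDerivAt E.ld ((derivative E.dp).eval z / E.dp.eval z -
      (derivative E.d).eval z / E.d.eval z) z := by
  have h1 := E.dp.hasDerivAt z
  have h2 := E.d.hasDerivAt z
  have hd := E.pair.ne z hz
  have hdp := E.dp_ne hz
  have h3 := (h1.fun_div h2 hd).clog (Or.inl (E.ratio_re hz))
  have e : (derivative E.dp).eval z / E.dp.eval z - (derivative E.d).eval z / E.d.eval z =
      ((derivative E.dp).eval z * E.d.eval z - E.dp.eval z * (derivative E.d).eval z) /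
        E.d.eval z ^ 2 / (E.dp.eval z / E.d.eval z) := by
    field_simp
  rw [e]
  exact h3

theorem Gd {z : ℂ} (hz : ‖z‖ ≤ 1) :
    ‖deriv E.G z‖ ≤ 20000 * ((l : ℝ) + 1) * E.M * (E.N * E.R) := by
  have hF3 := (Pool.Agent.Helper84.Lam.F3_spec).1
  have hL1 := (Pool.Agent.Helper84.Lam.L1_spec).1
  have c1 := comp_deriv E.pair' hL1 hz
  have c2 := comp_deriv E.pair hL1 hz
  have c3 := comp_deriv E.pair' hF3 hz
  have c4 := comp_deriv E.pair hF3 hz
  have c5 := E.hasDeriv_ld hz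
  have hD := ((c1.sub c2).sub ((c3.sub c4).const_mul (l : ℂ))).add (c5.const_mul (2 * (l : ℂ)))
  have hG := hD.deriv
  have e : deriv E.G z = _ := hG
  rw [e]
  have hV := E.hV
  have hN := E.N_ge_V
  have hR := E.R_ge
  have hM := E.M_ge
  set S : ℝ := E.N * E.R with hS
  have hN0 : (0 : ℝ) ≤ E.N := Nat.cast_nonneg _
  have hVS : E.V ≤ S := by
    rw [hS]
    nlinarith
  have hS1 : 1 ≤ S := hV.trans hVS
  have hs' : ∀ z : ℂ, ‖z‖ = 1 → ‖nN E.bp E.dp z‖ ≤ S * dl E.bp E.dp z := fun w hw => by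
    have h1 := E.speed' hw
    have h2 := norm_nonneg (vV E.bp E.dp w)
    linarith
  have hs : ∀ z : ℂ, ‖z‖ = 1 → ‖nN E.b E.d z‖ ≤ E.V * dl E.b E.d z := fun w hw => by
    have h1 := E.core.speed w hw
    have h2 := norm_nonneg (vV E.b E.d w)
    linarith
  have b1 := comp_deriv_le E.pair' hL1 (C := 2 * Real.pi)
    (fun w hw => Pool.Agent.Helper84.Lam.speed_L1 hw) (by linarith) (by positivity) hs'
    (fun w hw => E.Yp_circle hw) hz
  have b2 := comp_deriv_le E.pair hL1 (C := 2 * Real.pi)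
    (fun w hw => Pool.Agent.Helper84.Lam.speed_L1 hw) (by linarith) (by positivity) hs
    (fun w hw => E.Y_circle hw) hz
  have b3 := comp_deriv_le E.pair' hF3 (C := 8400)
    (fun w hw => Pool.Agent.Helper84.Lam.T_L2_three hw) (by linarith) (by norm_num) hs'
    (fun w hw => E.Yp_circle hw) hz
  have b4 := comp_deriv_le E.pair hF3 (C := 8400)
    (fun w hw => Pool.Agent.Helper84.Lam.T_L2_three hw) (by linarith) (by norm_num) hs
    (fun w hw => E.Y_circle hw) hz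
  have b5 : ‖(derivative E.dp).eval z / E.dp.eval z‖ ≤ S := by
    rw [norm_div, div_le_iff₀ (norm_pos_iff.2 (E.dp_ne hz))]
    exact speed_d E.pair' (fun w hw => E.speed' hw) hz
  have b6 : ‖(derivative E.d).eval z / E.d.eval z‖ ≤ E.V := by
    rw [norm_div, div_le_iff₀ (norm_pos_iff.2 (E.pair.ne z hz))]
    exact speed_d E.pair (fun w hw => E.core.speed w hw) hz
  have hl0 : (0 : ℝ) ≤ l := Nat.cast_nonneg l
  have hpi : Real.pi < 3.15 := Real.pi_lt_d2
  have hpi0 := Real.pi_pos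
  have hMS : 0 ≤ E.M * S := mul_nonneg (by linarith) (by linarith)
  have hMV : E.M * E.V ≤ E.M * S := mul_le_mul_of_nonneg_left hVS (by linarith)
  have k1 : 2 * Real.pi * E.M * S ≤ 6.3 * (E.M * S) := by nlinarith
  have k2 : 2 * Real.pi * (E.M / 2) * E.V ≤ 6.3 * (E.M * S) := by
    have h7 : 2 * Real.pi * (E.M / 2) * E.V = Real.pi * (E.M * E.V) := by ring
    have h8 : 0 ≤ E.M * E.V := mul_nonneg (by linarith) (by linarith)
    rw [h7]
    nlinarith
  have k3 : 8400 * E.M * S = 8400 * (E.M * S) := by ring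
  have k4 : 8400 * (E.M / 2) * E.V ≤ 4200 * (E.M * S) := by
    have h7 : 8400 * (E.M / 2) * E.V = 4200 * (E.M * E.V) := by ring
    rw [h7]
    linarith
  have k5 : S ≤ E.M * S := by nlinarith
  refine (norm_add_le _ _).trans ?_
  refine (add_le_add ((norm_sub_le _ _).trans (add_le_add (norm_sub_le _ _)
    (le_of_eq (norm_mul _ _)))) (le_of_eq (norm_mul _ _))).trans ?_
  have n3 := (norm_sub_le (deriv F3 (Bq E.bp E.dp z) * deriv (Bq E.bp E.dp) z)
    (deriv F3 (Bq E.b E.d z) * deriv (Bq E.b E.d) z)).trans (add_le_add b3 b4)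
  have n5 := (norm_sub_le ((derivative E.dp).eval z / E.dp.eval z)
    ((derivative E.d).eval z / E.d.eval z)).trans (add_le_add b5 b6)
  have m3 := mul_le_mul_of_nonneg_left n3 hl0
  have m5 := mul_le_mul_of_nonneg_left n5 (show (0 : ℝ) ≤ 2 * l by positivity)
  have e1 : ‖(l : ℂ)‖ = l := Complex.norm_natCast l
  have e2 : ‖(2 * (l : ℂ))‖ = 2 * l := by
    rw [norm_mul, e1]
    norm_num
  rw [e1, e2]
  have m3' : (l : ℝ) * (8400 * E.M * S + 8400 * (E.M / 2) * E.V) ≤ l * (12600 * (E.M * S)) :=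
    mul_le_mul_of_nonneg_left (by linarith) hl0
  have m5' : 2 * (l : ℝ) * (S + E.V) ≤ 2 * l * (2 * (E.M * S)) :=
    mul_le_mul_of_nonneg_left (by linarith) (by positivity)
  have hfin : 20000 * ((l : ℝ) + 1) * E.M * S = 20000 * (l * (E.M * S)) + 20000 * (E.M * S) := by
    ring
  have hlMS : 0 ≤ (l : ℝ) * (E.M * S) := mul_nonneg hl0 hMS
  rw [hfin]
  have f3 : (l : ℝ) * (12600 * (E.M * S)) = 12600 * (l * (E.M * S)) := by ring
  have f5 : 2 * (l : ℝ) * (2 * (E.M * S)) = 4 * (l * (E.M * S)) := by ring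
  rw [f3] at m3'
  rw [f5] at m5'
  linarith

theorem ev9_log_ee {w : ℂ} (hw : ‖w‖ < 1) :
    Real.log (ee l w) = Real.log ‖1 - lamD w‖ + l * Real.log (hD w) := by
  have h1 : 0 < ‖1 - lamD w‖ := norm_pos_iff.2 (one_sub_lamD_ne hw)
  have h2 : 0 < hD w ^ l := pow_pos (hD_pos w) l
  unfold ee
  rw [Real.log_mul h1.ne' h2.ne', Real.log_pow]

theorem ev9_log_hD {w : ℂ} {a : ℝ} (ha : 0 ≤ a) (h1 : ‖lamD w‖ ≤ Real.exp a)
    (h2 : ‖1 - lamD w‖ ≤ Real.exp a) : 0 ≤ Real.log (hD w) ∧ Real.log (hD w) ≤ 2 + a := by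
  refine ⟨Real.log_nonneg (hD_one_le w), ?_⟩
  rw [Real.log_le_iff_le_exp (hD_pos w), Real.exp_add]
  have h3 : 1 ≤ Real.exp a := Real.one_le_exp ha
  have h4 : (3 : ℝ) ≤ Real.exp 2 := by
    have := Real.add_one_le_exp (2 : ℝ)
    linarith
  unfold hD
  nlinarith

theorem reG_circle {z : ℂ} (hz : ‖z‖ = 1) : |(E.G z).re| ≤ 20 * (((l : ℝ) + 1) * E.M) := by
  have hB : ‖E.B z‖ < 1 := Bq_lt E.pair hz.le
  have hBp := E.Bp_lt hz.le
  have hM := E.M_ge
  have hRM := E.R_le_M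
  have hR := E.R_ge
  have hl0 : (0 : ℝ) ≤ l := Nat.cast_nonneg l
  rw [E.re_G hz.le, log_jj E.pair l hz.le, log_jj E.pair' l hz.le]
  change |l * Real.log (2 * Real.pi * YD (E.B z)) - l * Real.log (dl E.b E.d z) -
      Real.log (ee l (E.B z)) - (l * Real.log (2 * Real.pi * YD (E.Bp z)) -
      l * Real.log (dl E.bp E.dp z) - Real.log (ee l (E.Bp z)))| ≤ _
  have hpi := Real.pi_pos
  have y1 : 0.8 ≤ YD (E.B z) := Pool.Agent.Helper84.Lam.YD_lower hB
  have y2 : 0.8 ≤ YD (E.Bp z) := Pool.Agent.Helper84.Lam.YD_lower hBp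
  have y3 : YD (E.B z) ≤ E.M / 2 := E.Y_circle hz
  have y4 : YD (E.Bp z) ≤ E.M := E.Yp_circle hz
  have h2pi : (2 * Real.pi) ≠ 0 := by positivity
  have u1 : Real.log (2 * Real.pi * YD (E.B z)) = Real.log (2 * Real.pi) +
      Real.log (YD (E.B z)) := Real.log_mul h2pi (by linarith)
  have u2 : Real.log (2 * Real.pi * YD (E.Bp z)) = Real.log (2 * Real.pi) +
      Real.log (YD (E.Bp z)) := Real.log_mul h2pi (by linarith)
  rw [u1, u2]
  have hlogM : Real.log E.M ≤ E.M - 1 := Real.log_le_sub_one_of_pos (by linarith)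
  have hlog8 : -(0.25 : ℝ) ≤ Real.log 0.8 := by
    have h := Real.one_sub_inv_le_log_of_pos (show (0 : ℝ) < 0.8 by norm_num)
    have h' : (1 : ℝ) - 0.8⁻¹ = -0.25 := by norm_num
    linarith
  have a1 : Real.log 0.8 ≤ Real.log (YD (E.B z)) := Real.log_le_log (by norm_num) y1
  have a2 : Real.log 0.8 ≤ Real.log (YD (E.Bp z)) := Real.log_le_log (by norm_num) y2
  have a3 : Real.log (YD (E.B z)) ≤ Real.log E.M :=
    Real.log_le_log (by linarith) (by linarith)
  have a4 : Real.log (YD (E.Bp z)) ≤ Real.log E.M := Real.log_le_log (by linarith) y4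
  have d1 := dl_pos E.pair hz.le
  have d2 := dl_pos E.pair' hz.le
  change 0 < dl E.bp E.dp z at d2
  have g1 : Real.log (dl E.bp E.dp z) ≤ Real.log (dl E.b E.d z) :=
    Real.log_le_log d2 (E.dl_new_le hz)
  have g2 : Real.log (dl E.b E.d z) ≤ E.M + Real.log (dl E.bp E.dp z) := by
    have h1 := Real.log_le_log d1 (E.dl_le_new hz)
    rw [Real.log_mul (by linarith) d2.ne'] at h1
    have h2 := Real.log_le_sub_one_of_pos (show 0 < E.R by linarith)
    linarith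
  obtain ⟨-, l2, l3, l4⟩ := E.lam_in hz.le
  obtain ⟨-, k2, k3, k4⟩ := E.lamp_in hz.le
  have q1 := ev9_log_hD (show 0 ≤ 3.5 * E.M by linarith) l2 l4
  have q2 := ev9_log_hD (show 0 ≤ 7 * E.M by linarith) k2 k4
  have r1 := (E.LL_in hz.le).2
  have r2 := (E.LLp_in hz.le).2
  rw [Pool.Agent.Helper84.Lam.re_L1 hB] at r1
  rw [Pool.Agent.Helper84.Lam.re_L1 hBp] at r2
  rw [ev9_log_ee hB, ev9_log_ee hBp]
  rw [abs_le] at r1 r2
  set A := Real.log (YD (E.B z))
  set A' := Real.log (YD (E.Bp z))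
  set D := Real.log (dl E.b E.d z)
  set D' := Real.log (dl E.bp E.dp z)
  set H := Real.log (hD (E.B z))
  set H' := Real.log (hD (E.Bp z))
  set K := Real.log ‖1 - lamD (E.B z)‖
  set K' := Real.log ‖1 - lamD (E.Bp z)‖
  set p := Real.log (2 * Real.pi)
  have e : l * (p + A) - l * D - (K + l * H) - (l * (p + A') - l * D' - (K' + l * H')) =
      l * ((A - A') + (D' - D) + (H' - H)) + (K' - K) := by ring
  rw [e, abs_le]
  have t1 : (A - A') + (D' - D) + (H' - H) ≤ 9 * E.M := by linarith [q1.1, q1.2, q2.1, q2.2]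
  have t2 : -(9 * E.M) ≤ (A - A') + (D' - D) + (H' - H) := by
    linarith [q1.1, q1.2, q2.1, q2.2]
  have t3 := mul_le_mul_of_nonneg_left t1 hl0
  have t4 := mul_le_mul_of_nonneg_left t2 hl0
  have hlM : 0 ≤ (l : ℝ) * E.M := mul_nonneg hl0 (by linarith)
  constructor
  · nlinarith [r1.1, r1.2, r2.1, r2.2]
  · nlinarith [r1.1, r1.2, r2.1, r2.2]

theorem reG {z : ℂ} (hz : ‖z‖ ≤ 1) : |(E.G z).re| ≤ 20 * (((l : ℝ) + 1) * E.M) := by
  have h1 := Pool.Agent.Helper58.LD.re_le_of_circle E.G_an (M := 20 * (((l : ℝ) + 1) * E.M))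
    (fun w hw => (abs_le.1 (E.reG_circle hw)).2) hz
  have h2 := Pool.Agent.Helper58.LD.re_le_of_circle E.G_an.neg (M := 20 * (((l : ℝ) + 1) * E.M))
    (fun w hw => by
      have := (abs_le.1 (E.reG_circle hw)).1
      simp only [Pi.neg_apply, Complex.neg_re]
      linarith) hz
  simp only [Pi.neg_apply, Complex.neg_re] at h2
  rw [abs_le]
  constructor <;> linarith

end Pool.Agent.Helper61.QF.Ev
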