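import Mathlib

/-!
# EvL: two general estimates for iterated derivatives (Cauchy, Leibniz)
-/

set_option autoImplicit false

open Complex Metric

namespace Pool.Agent.Helper61.QF

/-- Cauchy's estimate. -/
theorem cauchy_iter {F : ℂ → ℂ} {ζ : ℂ} {s C : ℝ} (hs : 0 < s)
    (hF : ∀ z : ℂ, ‖z - ζ‖ ≤ s → AnalyticAt ℂ F z) (hC : ∀ z : ℂ, ‖z - ζ‖ ≤ s → ‖F z‖ ≤ C) (i : ℕ) :
    ‖iteratedDeriv i F ζ‖ ≤ C * i.factorial * (1 / s) ^ i := by
  have hd : DiffContOnCl ℂ F (ball ζ s) := by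
    apply DifferentiableOn.diffContOnCl
    intro z hz
    have hz' : z ∈ closedBall ζ s := closure_ball_subset_closedBall hz
    rw [mem_closedBall, dist_eq_norm] at hz'
    exact (hF z hz').differentiableAt.differentiableWithinAt
  have h := norm_iteratedDeriv_le_of_forall_mem_sphere_norm_le (f := F) (C := C) i hs hd
    (fun z hz => hC z (by rw [mem_sphere, dist_eq_norm] at hz; exact hz.le))
  calc ‖iteratedDeriv i F ζ‖ ≤ i.factorial * C / s ^ i := h
    _ = C * i.factorial * (1 / s) ^ i := by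
      rw [div_pow, one_pow]; ring

/-- Leibniz. -/
theorem leibniz_le {F H : ℂ → ℂ} {ζ : ℂ} (hF : AnalyticAt ℂ F ζ) (hH : AnalyticAt ℂ H ζ)
    {k : ℕ} {A C a c : ℝ} (hA : 0 ≤ A) (hC : 0 ≤ C) (ha : 0 ≤ a) (hac : a ≤ c)
    (h1 : ∀ i ≤ k, ‖iteratedDeriv i F ζ‖ ≤ A * a ^ i)
    (h2 : ∀ i ≤ k, ‖iteratedDeriv i H ζ‖ ≤ C * i.factorial * c ^ i) :
    ‖iteratedDeriv k (fun z => F z * H z) ζ‖ ≤ A * C * (2 ^ k * k.factorial * c ^ k) := by
  have hc : 0 ≤ c := ha.trans hac
  rw [iteratedDeriv_fun_mul hF.contDiffAt hH.contDiffAt]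
  calc ‖∑ i ∈ Finset.range (k + 1),
        (k.choose i : ℂ) * iteratedDeriv i F ζ * iteratedDeriv (k - i) H ζ‖
      ≤ ∑ i ∈ Finset.range (k + 1),
        ‖(k.choose i : ℂ) * iteratedDeriv i F ζ * iteratedDeriv (k - i) H ζ‖ :=
        norm_sum_le _ _
    _ ≤ ∑ i ∈ Finset.range (k + 1), (k.choose i : ℝ) * (A * C * (k.factorial * c ^ k)) := by
        refine Finset.sum_le_sum fun i hi => ?_
        have hik : i ≤ k := Nat.lt_succ_iff.mp (Finset.mem_range.mp hi)
        rw [norm_mul, norm_mul, Complex.norm_natCast, mul_assoc]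
        refine mul_le_mul_of_nonneg_left ?_ (Nat.cast_nonneg _)
        have e1 : ‖iteratedDeriv i F ζ‖ ≤ A * c ^ i :=
          (h1 i hik).trans (mul_le_mul_of_nonneg_left (pow_le_pow_left₀ ha hac i) hA)
        have e2 : ‖iteratedDeriv (k - i) H ζ‖ ≤ C * (k.factorial * c ^ (k - i)) := by
          refine (h2 (k - i) (Nat.sub_le _ _)).trans ?_
          rw [mul_assoc]
          refine mul_le_mul_of_nonneg_left ?_ hC
          refine mul_le_mul_of_nonneg_right ?_ (pow_nonneg hc _)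
          exact_mod_cast Nat.factorial_le (Nat.sub_le k i)
        calc ‖iteratedDeriv i F ζ‖ * ‖iteratedDeriv (k - i) H ζ‖
            ≤ (A * c ^ i) * (C * (k.factorial * c ^ (k - i))) :=
              mul_le_mul e1 e2 (norm_nonneg _) (mul_nonneg hA (pow_nonneg hc _))
          _ = A * C * (k.factorial * (c ^ i * c ^ (k - i))) := by ring
          _ = A * C * (k.factorial * c ^ k) := by
              rw [← pow_add, Nat.add_sub_cancel' hik]
    _ = A * C * (2 ^ k * k.factorial * c ^ k) := by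
        rw [← Finset.sum_mul, ← Nat.cast_sum, Nat.sum_range_choose]
        push_cast
        ring

end Pool.Agent.Helper61.QF
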