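import Pool.Agent.Helper61.QF.Ev7
import Pool.Agent.Helper61.QF.Ev9
import Pool.Agent.Helper61.QF.EvL

/-!
# Ev10 (MP_78803a, EVENT): the dilated logarithm `G~(z) = G((1-s) z)`

Proof. If `|z| ≤ 1 + s` then `|(1-s)z| ≤ 1 - s² < 1`.
* `Gt_close`, `Gt_near`: mean value inequality on the convex closed disc with `E.Gd` and `E.hs`
  (`|G((1-s)z) - G(z)| ≤ sup|G'| s`; `|G~(z) - G~(ζ)| ≤ sup|G'| |z - ζ|`).
* `reGt`: `E.reG`.
* `Gt_small`: `|(1-s)z - ζ| ≤ 2 s + s² ≤ δ` (`E.s_le_δ`), `E.g_tail`, `E.G_bound` (`e^(-p) ≤ 1/400`).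
* `dGt`: `cauchy_iter` with `C = e^(1/4) |e^(G~ζ)| ≤ 3 |..|` (`Gt_near`); `dGt_inact`: `|e^x - 1| ≤ 2|x|` for
  `|x| ≤ 1`.
-/

set_option autoImplicit false

open Polynomial Complex Metric
open Pool.Agent.Helper81.QF Pool.Agent.Helper29.QF
open Pool.Agent.Helper84.Lam (YD lamD LL L1 F3 ps)

namespace Pool.Agent.Helper61.QF.Ev

variable {l : ℕ} (E : Ev l)

/-- the Lipschitz constant -/
private theorem h2_K : 20000 * ((l : ℝ) + 1) * E.M * (E.N * E.R) * E.s ≤ 1 / 4 := E.hs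

private theorem h2_K0 : 0 ≤ 20000 * ((l : ℝ) + 1) * E.M * (E.N * E.R) := by
  have h1 := E.M_ge
  have h2 := E.R_ge
  have h3 : (0 : ℝ) ≤ E.N := Nat.cast_nonneg _
  have h4 : (0 : ℝ) ≤ (l : ℝ) + 1 := by positivity
  have h5 : (0 : ℝ) ≤ E.M := by linarith
  have h6 : (0 : ℝ) ≤ E.R := by linarith
  positivity

private theorem h2_s1 : E.s ≤ 1 / 2 := by
  have hs := E.s_le
  refine hs.trans ?_
  norm_num

private theorem h2_nrm (z : ℂ) : ‖(((1 - E.s : ℝ) : ℂ) * z)‖ = (1 - E.s) * ‖z‖ := by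
  have hs := h2_s1 E
  rw [norm_mul, Complex.norm_real, Real.norm_of_nonneg (by linarith)]

private theorem h2_in {z : ℂ} (hz : ‖z‖ ≤ 1 + E.s) : ‖(((1 - E.s : ℝ) : ℂ) * z)‖ ≤ 1 := by
  have hs := h2_s1 E
  have hs0 := E.hs0
  rw [h2_nrm]
  nlinarith [norm_nonneg z]

private theorem h2_near_le {ζ z : ℂ} (hζ : ‖ζ‖ = 1) (hz : ‖z - ζ‖ ≤ E.s) : ‖z‖ ≤ 1 + E.s := by
  calc ‖z‖ = ‖ζ + (z - ζ)‖ := by ring_nf
    _ ≤ ‖ζ‖ + ‖z - ζ‖ := norm_add_le _ _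
    _ ≤ _ := by rw [hζ]; linarith

private theorem h2_lip {x y : ℂ} (hx : ‖x‖ ≤ 1) (hy : ‖y‖ ≤ 1) :
    ‖E.G y - E.G x‖ ≤ 20000 * ((l : ℝ) + 1) * E.M * (E.N * E.R) * ‖y - x‖ := by
  refine (convex_closedBall (0 : ℂ) 1).norm_image_sub_le_of_norm_deriv_le (𝕜 := ℂ)
    (fun w hw => (E.G_an w hw).differentiableAt) (fun w hw => E.Gd ?_) ?_ ?_
  · simpa using hw
  · simpa using hx
  · simpa using hy

theorem Gt_an {z : ℂ} (hz : ‖z‖ ≤ 1 + E.s) : AnalyticAt ℂ E.Gt z := by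
  have h1 : AnalyticAt ℂ E.G (((1 - E.s : ℝ) : ℂ) * z) := E.G_an _ (by
    simpa using h2_in E hz)
  have h2 : AnalyticAt ℂ (fun x : ℂ => ((1 - E.s : ℝ) : ℂ) * x) z :=
    analyticAt_const.mul analyticAt_id
  exact AnalyticAt.fun_comp (g := E.G) (f := fun x : ℂ => ((1 - E.s : ℝ) : ℂ) * x) h1 h2

theorem Gt_close {ζ : ℂ} (hζ : ‖ζ‖ = 1) : ‖E.Gt ζ - E.G ζ‖ ≤ 1 / 4 := by
  have hs0 := E.hs0
  have h1 := h2_lip E (x := ζ) (y := ((1 - E.s : ℝ) : ℂ) * ζ) hζ.le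
    (h2_in E (by rw [hζ]; linarith))
  have e : ((1 - E.s : ℝ) : ℂ) * ζ - ζ = -((E.s : ℝ) : ℂ) * ζ := by
    push_cast
    ring
  have e2 : ‖((1 - E.s : ℝ) : ℂ) * ζ - ζ‖ = E.s := by
    rw [e, norm_mul, norm_neg, Complex.norm_real, Real.norm_of_nonneg hs0.le, hζ, mul_one]
  rw [e2] at h1
  exact h1.trans (h2_K E)

theorem Gt_near {ζ z : ℂ} (hζ : ‖ζ‖ = 1) (hz : ‖z - ζ‖ ≤ E.s) : ‖E.Gt z - E.Gt ζ‖ ≤ 1 / 4 := by
  have hs0 := E.hs0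
  have hs1 := h2_s1 E
  have h1 := h2_lip E (x := ((1 - E.s : ℝ) : ℂ) * ζ) (y := ((1 - E.s : ℝ) : ℂ) * z)
    (h2_in E (by rw [hζ]; linarith)) (h2_in E (h2_near_le E hζ hz))
  have e2 : ‖((1 - E.s : ℝ) : ℂ) * z - ((1 - E.s : ℝ) : ℂ) * ζ‖ ≤ E.s := by
    rw [← mul_sub, h2_nrm]
    nlinarith [norm_nonneg (z - ζ)]
  exact (h1.trans (mul_le_mul_of_nonneg_left e2 (h2_K0 E))).trans (h2_K E)

theorem reGt {z : ℂ} (hz : ‖z‖ ≤ 1 + E.s) : |(E.Gt z).re| ≤ 20 * (((l : ℝ) + 1) * E.M) :=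
  E.reG (h2_in E hz)

theorem Gt_small {ζ z : ℂ} (hζ : ‖ζ‖ = 1) (hi : E.Inact ζ) (hz : ‖z - ζ‖ ≤ E.s) :
    ‖E.Gt z‖ ≤ 10 ^ 7 * (((l : ℝ) + 1) * E.M) * Real.exp (-E.p) := by
  have hs0 := E.hs0
  have hs1 := h2_s1 E
  have hw := h2_in E (h2_near_le E hζ hz)
  have hδ := E.s_le_δ
  have h1 : ‖((1 - E.s : ℝ) : ℂ) * z - ζ‖ ≤ E.δ := by
    have e : ((1 - E.s : ℝ) : ℂ) * z - ζ = ((1 - E.s : ℝ) : ℂ) * (z - ζ) - ((E.s : ℝ) : ℂ) * ζ := by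
      push_cast
      ring
    rw [e]
    refine (norm_sub_le _ _).trans ?_
    rw [h2_nrm, norm_mul, Complex.norm_real, Real.norm_of_nonneg hs0.le, hζ, mul_one]
    nlinarith [norm_nonneg (z - ζ)]
  have h2 := E.g_tail hw h1 hi
  have h3 := E.exp_p_le
  have h4 := E.G_bound hw (h2.trans (h3.trans (by norm_num)))
  refine h4.trans (mul_le_mul_of_nonneg_left h2 ?_)
  have := E.lM_ge
  positivity

private theorem h2_exp_le {a b : ℂ} (h : ‖a - b‖ ≤ 1 / 4) : ‖cexp a‖ ≤ 3 * ‖cexp b‖ := by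
  rw [Complex.norm_exp, Complex.norm_exp]
  have h1 : a.re - b.re ≤ 1 := by
    have h2 : |(a - b).re| ≤ ‖a - b‖ := Complex.abs_re_le_norm _
    rw [Complex.sub_re] at h2
    have h3 := le_abs_self (a.re - b.re)
    linarith
  calc Real.exp a.re ≤ Real.exp (1 + b.re) := Real.exp_le_exp.2 (by linarith)
    _ = Real.exp 1 * Real.exp b.re := Real.exp_add _ _
    _ ≤ 3 * Real.exp b.re := by
        have := Real.exp_one_lt_d9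
        exact mul_le_mul_of_nonneg_right (by linarith) (Real.exp_pos _).le

theorem dGt {ζ : ℂ} (hζ : ‖ζ‖ = 1) (i : ℕ) :
    ‖iteratedDeriv i (fun x => cexp (E.Gt x)) ζ‖ ≤
      3 * ‖cexp (E.Gt ζ)‖ * i.factorial * (1 / E.s) ^ i :=
  cauchy_iter E.hs0 (fun _ hz => (Gt_an E (h2_near_le E hζ hz)).cexp)
    (fun _ hz => h2_exp_le (Gt_near E hζ hz)) i

theorem dGt_inact {ζ : ℂ} (hζ : ‖ζ‖ = 1) (hi : E.Inact ζ) (i : ℕ) :
    ‖iteratedDeriv i (fun x => cexp (E.Gt x) - 1) ζ‖ ≤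
      2 * 10 ^ 7 * (((l : ℝ) + 1) * E.M) * Real.exp (-E.p) * i.factorial * (1 / E.s) ^ i := by
  refine cauchy_iter E.hs0 (fun _ hz => (Gt_an E (h2_near_le E hζ hz)).cexp.sub analyticAt_const)
    (fun z hz => ?_) i
  have h1 := Gt_small E hζ hi hz
  have h2 := E.exp_pM
  have h3 : ‖E.Gt z‖ ≤ 1 := by
    refine h1.trans ?_
    nlinarith
  have h4 := Complex.norm_exp_sub_one_le h3
  refine h4.trans ?_
  linarith

theorem Gt_zero : E.Gt 0 = 0 := by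
  unfold Gt
  rw [mul_zero]
  exact E.G_zero

/-- `G~ = z^K H0` with `H0` analytic near the closed disc -/
theorem Gt_factor : ∃ H0 : ℂ → ℂ, AnalyticOnNhd ℂ H0 (closedBall 0 1) ∧
    ∀ z : ℂ, E.Gt z = z ^ (E.N - kd E.n E.p) * H0 z := by
  obtain ⟨G0, hG0, h⟩ := E.G_factor
  have hs0 := E.hs0
  refine ⟨fun z => ((1 - E.s : ℝ) : ℂ) ^ (E.N - kd E.n E.p) * G0 (((1 - E.s : ℝ) : ℂ) * z),
    fun z hz => ?_, fun z => ?_⟩
  · have h1 : AnalyticAt ℂ G0 (((1 - E.s : ℝ) : ℂ) * z) := hG0 _ (by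
      rw [mem_closedBall, dist_zero_right] at hz ⊢
      exact h2_in E (by linarith))
    have h2 : AnalyticAt ℂ (fun x : ℂ => ((1 - E.s : ℝ) : ℂ) * x) z :=
      analyticAt_const.mul analyticAt_id
    exact analyticAt_const.mul
      (AnalyticAt.fun_comp (g := G0) (f := fun x : ℂ => ((1 - E.s : ℝ) : ℂ) * x) h1 h2)
  · unfold Gt
    rw [h, mul_pow]
    ring

end Pool.Agent.Helper61.QF.Ev
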