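import Pool.Agent.Helper61.QF.Ev10

/-!
# Ev11 (MP_78803a, EVENT): `f e^G~`, its derivatives, and the size of `W` on the circle

Proof.
* `fG_der`: `leibniz_le` with `F = f`, `A = |f ζ|`, `a = V` (`E.core.fder`), `H = exp G~`, `C = 3 |e^(G~ζ)|`,
  `c = 1/s` (`E.V_le_s`, `E.dGt`).
* `P_le`: `E.hP`, `ee = |1-λ| hD^l ≥ e^(-3.5 M)` (`hD ≥ 1`, `E.lam_in`), `V^l ≤ (1/s)^l ≤ e^Λ`.
* `PPp_le`: `|PP| ≤ 1 + |λ|^(l+1) ≤ 1 + e^(7(l+1)M)` (`E.lamp_in`).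
* `W_le`: `3·2^l l! e^Λ e^(20(l+1)M) + e^(Λ+3.5M) e^(8(l+1)M) ≤ e^(3Λ)` using `E.hΛl`, `E.hΛM`
  (`20 (l+1) M ≤ Λ/5`, `3.5 M + 8 (l+1) M ≤ 0.15 Λ`).
-/

set_option autoImplicit false

open Polynomial Complex Metric
open Pool.Agent.Helper81.QF Pool.Agent.Helper29.QF
open Pool.Agent.Helper84.Lam (YD lamD LL L1 F3 ps)

namespace Pool.Agent.Helper61.QF.Ev

variable {l : ℕ} (E : Ev l)

theorem fG_an {z : ℂ} (hz : ‖z‖ ≤ 1) : AnalyticAt ℂ E.fG z := by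
  have h1 : AnalyticAt ℂ E.f z := E.core.anf z (by simpa [mem_closedBall, dist_zero_right] using hz)
  have h2 : AnalyticAt ℂ E.Gt z := E.Gt_an (hz.trans (by linarith [E.hs0]))
  have h3 : AnalyticAt ℂ (fun x => cexp (E.Gt x)) z := h2.cexp
  have h4 : AnalyticAt ℂ (fun x => E.f x * cexp (E.Gt x)) z := h1.mul h3
  exact h4

theorem norm_fG (z : ℂ) : ‖E.fG z‖ = ‖E.f z‖ * Real.exp (E.Gt z).re := by
  unfold fG
  rw [norm_mul, Complex.norm_exp]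

theorem fG_ne {z : ℂ} (hz : ‖z‖ ≤ 1) : E.fG z ≠ 0 := by
  unfold fG
  exact mul_ne_zero (E.core.fne z hz) (Complex.exp_ne_zero _)

theorem fG_le {z : ℂ} (hz : ‖z‖ ≤ 1) :
    ‖E.fG z‖ ≤ Real.exp (20 * (((l : ℝ) + 1) * E.M)) * ‖E.f z‖ := by
  have h1 := E.reGt (hz.trans (by linarith [E.hs0]) : ‖z‖ ≤ 1 + E.s)
  rw [E.norm_fG, mul_comm]
  exact mul_le_mul_of_nonneg_right (Real.exp_le_exp.2 ((le_abs_self _).trans h1)) (norm_nonneg _)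

theorem le_fG {z : ℂ} (hz : ‖z‖ ≤ 1) :
    ‖E.f z‖ ≤ Real.exp (20 * (((l : ℝ) + 1) * E.M)) * ‖E.fG z‖ := by
  have h1 := E.reGt (hz.trans (by linarith [E.hs0]) : ‖z‖ ≤ 1 + E.s)
  have h2 : (0 : ℝ) ≤ 20 * (((l : ℝ) + 1) * E.M) + (E.Gt z).re := by
    have := neg_abs_le (E.Gt z).re
    linarith
  rw [E.norm_fG]
  have h3 : Real.exp (20 * (((l : ℝ) + 1) * E.M)) * (‖E.f z‖ * Real.exp (E.Gt z).re) =
      ‖E.f z‖ * Real.exp (20 * (((l : ℝ) + 1) * E.M) + (E.Gt z).re) := by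
    rw [Real.exp_add]
    ring
  rw [h3]
  exact le_mul_of_one_le_right (norm_nonneg _) (Real.one_le_exp h2)

theorem fG_der {ζ : ℂ} (hζ : ‖ζ‖ = 1) {i : ℕ} (hi : i ≤ l) :
    ‖iteratedDeriv i E.fG ζ‖ ≤ 3 * (2 ^ i * i.factorial * (1 / E.s) ^ i) * ‖E.fG ζ‖ := by
  have hF : AnalyticAt ℂ E.f ζ :=
    E.core.anf ζ (by simpa [mem_closedBall, dist_zero_right] using hζ.le)
  have hG : AnalyticAt ℂ E.Gt ζ := E.Gt_an (hζ.le.trans (by linarith [E.hs0]))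
  have hH : AnalyticAt ℂ (fun x => cexp (E.Gt x)) ζ := hG.cexp
  have h1 : ∀ j ≤ i, ‖iteratedDeriv j E.f ζ‖ ≤ ‖E.f ζ‖ * E.V ^ j := by
    intro j hj
    have := E.core.fder j (hj.trans hi) ζ hζ
    rw [mul_comm]
    exact this
  have h2 : ∀ j ≤ i, ‖iteratedDeriv j (fun x => cexp (E.Gt x)) ζ‖ ≤
      3 * ‖cexp (E.Gt ζ)‖ * j.factorial * (1 / E.s) ^ j := fun j _ => E.dGt hζ j
  have hV0 : 0 ≤ E.V := le_trans zero_le_one E.hV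
  have h3 := leibniz_le hF hH (norm_nonneg (E.f ζ))
    (by positivity : (0 : ℝ) ≤ 3 * ‖cexp (E.Gt ζ)‖) hV0 E.V_le_s h1 h2
  have h4 : ‖E.fG ζ‖ = ‖E.f ζ‖ * ‖cexp (E.Gt ζ)‖ := by
    unfold fG
    rw [norm_mul]
  have h5 : iteratedDeriv i E.fG ζ = iteratedDeriv i (fun z => E.f z * cexp (E.Gt z)) ζ := rfl
  rw [h5, h4]
  refine h3.trans (le_of_eq ?_)
  ring

theorem P_le {ζ : ℂ} (hζ : ‖ζ‖ = 1) : ‖E.P ζ‖ ≤ Real.exp (E.Λ + 3.5 * E.M) * ‖E.f ζ‖ := by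
  have h1 := E.hP ζ hζ
  obtain ⟨-, -, h2, -⟩ := E.lam_in hζ.le
  have h3 : (1 : ℝ) ≤ hD (Bq E.b E.d ζ) := by
    unfold hD
    have := norm_nonneg (lamD (Bq E.b E.d ζ))
    have := norm_nonneg (1 - lamD (Bq E.b E.d ζ))
    linarith
  have h4 : Real.exp (-(3.5 * E.M)) ≤ ee l (Bq E.b E.d ζ) := by
    unfold ee
    have h5 : (1 : ℝ) ≤ hD (Bq E.b E.d ζ) ^ l := one_le_pow₀ h3
    calc Real.exp (-(3.5 * E.M)) ≤ ‖1 - lamD (Bq E.b E.d ζ)‖ := h2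
      _ ≤ ‖1 - lamD (Bq E.b E.d ζ)‖ * hD (Bq E.b E.d ζ) ^ l :=
        le_mul_of_one_le_right (norm_nonneg _) h5
  have hV0 : 0 ≤ E.V := le_trans zero_le_one E.hV
  have h6 : E.V ^ l ≤ Real.exp E.Λ := (pow_le_pow_left₀ hV0 E.V_le_s l).trans E.hΛs
  have h7 : ‖E.P ζ‖ * Real.exp (-(3.5 * E.M)) ≤ Real.exp E.Λ * ‖E.f ζ‖ :=
    calc ‖E.P ζ‖ * Real.exp (-(3.5 * E.M)) ≤ ‖E.P ζ‖ * ee l (Bq E.b E.d ζ) :=
          mul_le_mul_of_nonneg_left h4 (norm_nonneg _)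
      _ ≤ E.V ^ l * ‖E.f ζ‖ := h1
      _ ≤ Real.exp E.Λ * ‖E.f ζ‖ := mul_le_mul_of_nonneg_right h6 (norm_nonneg _)
  have h8 : ‖E.P ζ‖ = ‖E.P ζ‖ * Real.exp (-(3.5 * E.M)) * Real.exp (3.5 * E.M) := by
    rw [mul_assoc, ← Real.exp_add, neg_add_cancel, Real.exp_zero, mul_one]
  rw [h8, Real.exp_add]
  calc ‖E.P ζ‖ * Real.exp (-(3.5 * E.M)) * Real.exp (3.5 * E.M)
      ≤ Real.exp E.Λ * ‖E.f ζ‖ * Real.exp (3.5 * E.M) :=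
        mul_le_mul_of_nonneg_right h7 (Real.exp_pos _).le
    _ = Real.exp E.Λ * Real.exp (3.5 * E.M) * ‖E.f ζ‖ := by ring

theorem PPp_le {z : ℂ} (hz : ‖z‖ ≤ 1) :
    ‖PP l (lamD (E.Bp z))‖ ≤ Real.exp (8 * (((l : ℝ) + 1) * E.M)) := by
  obtain ⟨-, h2, -, -⟩ := E.lamp_in hz
  have h3 : ‖lamD (E.Bp z)‖ ^ (l + 1) ≤ Real.exp (7 * (((l : ℝ) + 1) * E.M)) := by
    have h4 : ‖lamD (E.Bp z)‖ ^ (l + 1) ≤ Real.exp (7 * E.M) ^ (l + 1) :=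
      pow_le_pow_left₀ (norm_nonneg _) h2 _
    have h5 : Real.exp (7 * E.M) ^ (l + 1) = Real.exp (7 * (((l : ℝ) + 1) * E.M)) := by
      rw [← Real.exp_nat_mul]
      congr 1
      push_cast
      ring
    rw [h5] at h4
    exact h4
  have hy := E.lM_ge
  obtain ⟨y, hyd⟩ : ∃ y : ℝ, y = ((l : ℝ) + 1) * E.M := ⟨_, rfl⟩
  rw [← hyd] at h3 hy ⊢
  have h6 : (1 : ℝ) ≤ Real.exp (7 * y) := Real.one_le_exp (by linarith)
  have h7 : (2 : ℝ) ≤ Real.exp y := by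
    have := Real.add_one_le_exp y
    linarith
  have h8 : Real.exp (8 * y) = Real.exp y * Real.exp (7 * y) := by
    rw [← Real.exp_add]
    congr 1
    ring
  unfold PP
  calc ‖1 - lamD (E.Bp z) ^ (l + 1)‖ ≤ ‖(1 : ℂ)‖ + ‖lamD (E.Bp z) ^ (l + 1)‖ := norm_sub_le _ _
    _ = 1 + ‖lamD (E.Bp z)‖ ^ (l + 1) := by rw [norm_one, norm_pow]
    _ ≤ Real.exp (8 * y) := by
      rw [h8]
      nlinarith

theorem W_le {ζ : ℂ} (hζ : ‖ζ‖ = 1) : ‖E.W ζ‖ ≤ Real.exp (3 * E.Λ) * ‖E.f ζ‖ := by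
  have a1 := E.fG_der hζ (le_refl l)
  have a2 := E.fG_le hζ.le
  have a3 := E.P_le hζ
  have a4 := E.PPp_le hζ.le
  have b1 := E.hΛs
  have b2 := E.hΛl
  have b3 := E.hΛM
  have b4 := E.lM_ge
  have b5 := E.M_le_lM
  have b6 := E.Λ_ge
  obtain ⟨y, hyd⟩ : ∃ y : ℝ, y = ((l : ℝ) + 1) * E.M := ⟨_, rfl⟩
  have b3' : 100 * y ≤ E.Λ := by
    rw [hyd]
    linarith
  rw [← hyd] at a2 a4 b4 b5
  obtain ⟨q, hq⟩ : ∃ q : ℝ, q = 2 ^ l * (l.factorial : ℝ) := ⟨_, rfl⟩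
  have hq0 : 0 ≤ q := by
    rw [hq]
    positivity
  have b2' : 10 * q ≤ Real.exp E.Λ := by
    rw [hq]
    linarith
  have hf : 0 ≤ ‖E.f ζ‖ := norm_nonneg _
  have hss : 0 ≤ (1 / E.s) ^ l := by
    have := E.hs0
    positivity
  have hE1 : 0 < Real.exp E.Λ := Real.exp_pos _
  -- the first term
  have c1 : ‖iteratedDeriv l E.fG ζ‖ ≤ 3 / 10 * Real.exp (3 * E.Λ) * ‖E.f ζ‖ := by
    have d1 : 3 * (2 ^ l * (l.factorial : ℝ) * (1 / E.s) ^ l) ≤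
        3 / 10 * (Real.exp E.Λ * Real.exp E.Λ) := by
      rw [← hq]
      have e1 : q * (1 / E.s) ^ l ≤ q * Real.exp E.Λ := mul_le_mul_of_nonneg_left b1 hq0
      have e2 : 10 * q * Real.exp E.Λ ≤ Real.exp E.Λ * Real.exp E.Λ :=
        mul_le_mul_of_nonneg_right b2' hE1.le
      nlinarith
    have d2 : Real.exp (20 * y) ≤ Real.exp E.Λ := Real.exp_le_exp.2 (by linarith)
    have d3 : ‖E.fG ζ‖ ≤ Real.exp E.Λ * ‖E.f ζ‖ :=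
      a2.trans (mul_le_mul_of_nonneg_right d2 hf)
    have d4 : Real.exp (3 * E.Λ) = Real.exp E.Λ * Real.exp E.Λ * Real.exp E.Λ := by
      rw [← Real.exp_add, ← Real.exp_add]
      congr 1
      ring
    calc ‖iteratedDeriv l E.fG ζ‖
        ≤ 3 * (2 ^ l * (l.factorial : ℝ) * (1 / E.s) ^ l) * ‖E.fG ζ‖ := a1
      _ ≤ 3 / 10 * (Real.exp E.Λ * Real.exp E.Λ) * (Real.exp E.Λ * ‖E.f ζ‖) :=
        mul_le_mul d1 d3 (norm_nonneg _) (by positivity)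
      _ = 3 / 10 * Real.exp (3 * E.Λ) * ‖E.f ζ‖ := by
        rw [d4]
        ring
  -- the second term
  have c2 : ‖E.P ζ * PP l (lamD (E.Bp ζ))‖ ≤ 1 / 2 * Real.exp (3 * E.Λ) * ‖E.f ζ‖ := by
    have d1 : Real.exp (E.Λ + 3.5 * E.M) * Real.exp (8 * y) ≤ Real.exp (2 * E.Λ) := by
      rw [← Real.exp_add]
      refine Real.exp_le_exp.2 ?_
      norm_num
      linarith
    have d2 : 2 * Real.exp (2 * E.Λ) ≤ Real.exp (3 * E.Λ) := by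
      have e1 : Real.exp (3 * E.Λ) = Real.exp E.Λ * Real.exp (2 * E.Λ) := by
        rw [← Real.exp_add]
        congr 1
        ring
      have e2 : (2 : ℝ) ≤ Real.exp E.Λ := by
        have := Real.add_one_le_exp E.Λ
        linarith
      rw [e1]
      exact mul_le_mul_of_nonneg_right e2 (Real.exp_pos _).le
    rw [norm_mul]
    calc ‖E.P ζ‖ * ‖PP l (lamD (E.Bp ζ))‖
        ≤ (Real.exp (E.Λ + 3.5 * E.M) * ‖E.f ζ‖) * Real.exp (8 * y) :=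
          mul_le_mul a3 a4 (norm_nonneg _) (by positivity)
      _ = Real.exp (E.Λ + 3.5 * E.M) * Real.exp (8 * y) * ‖E.f ζ‖ := by ring
      _ ≤ 1 / 2 * Real.exp (3 * E.Λ) * ‖E.f ζ‖ := by
        refine mul_le_mul_of_nonneg_right ?_ hf
        linarith
  have c3 : 0 ≤ Real.exp (3 * E.Λ) * ‖E.f ζ‖ := by positivity
  unfold W
  calc ‖iteratedDeriv l E.fG ζ - E.P ζ * PP l (lamD (E.Bp ζ))‖
      ≤ ‖iteratedDeriv l E.fG ζ‖ + ‖E.P ζ * PP l (lamD (E.Bp ζ))‖ := norm_sub_le _ _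
    _ ≤ 3 / 10 * Real.exp (3 * E.Λ) * ‖E.f ζ‖ + 1 / 2 * Real.exp (3 * E.Λ) * ‖E.f ζ‖ :=
      add_le_add c1 c2
    _ ≤ Real.exp (3 * E.Λ) * ‖E.f ζ‖ := by linarith

end Pool.Agent.Helper61.QF.Ev
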