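import Pool.Agent.Helper61.QF.Ev11

/-!
# Ev12 (MP_78803a, EVENT): `W` at inactive points

Proof.
* `W_eq`: `fG = f (e^G~ - 1) + f`, `E.core.eq` (`Ps l v = PP l (lamD v)` by definition).
* first term: `leibniz_le` with `C = 2·10^7 (l+1) M e^(-p)` (`E.dGt_inact`).
* second term: `PP l x - PP l y = y^(l+1) - x^(l+1)` with `x = λ(B)`, `y = λ(B₊) = x e^δ'`,
  `δ' = D2 = LL(B₊) - LL(B)`, `|δ'| ≤ 2000 M e^(-p)` (`E.D2_bound`, `E.norm_g`, `E.β_tail`), so it is
  `≤ |x|^(l+1) 2 (l+1) |δ'|`, `|x| ≤ e^(3.5 M)`; times `P_le`.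
* sum `≤ e^(3Λ-p) |f|`: `2^l l! ≤ e^Λ/10`, `(1/s)^l ≤ e^Λ`, `2·10^7 (l+1) M ≤ e^(Λ/2)` (from `Λ ≥ 100 (l+1) M`, `Λ ≥ 2·10^8`).
-/

set_option autoImplicit false

open Polynomial Complex Metric
open Pool.Agent.Helper81.QF Pool.Agent.Helper29.QF
open Pool.Agent.Helper84.Lam (YD lamD LL L1 F3 ps)

namespace Pool.Agent.Helper61.QF.Ev

variable {l : ℕ} (E : Ev l)

theorem W_eq {z : ℂ} (hz : ‖z‖ ≤ 1) :
    E.W z = iteratedDeriv l (fun x => E.f x * (cexp (E.Gt x) - 1)) z +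
      E.P z * (PP l (lamD (E.B z)) - PP l (lamD (E.Bp z))) := by
  have hf : AnalyticAt ℂ E.f z := E.core.anf z (mem_closedBall_zero_iff.2 hz)
  have hG : AnalyticAt ℂ E.Gt z := E.Gt_an (hz.trans (by linarith [E.hs0]))
  have hH : AnalyticAt ℂ (fun x => E.f x * (cexp (E.Gt x) - 1)) z :=
    hf.mul ((analyticAt_cexp.comp hG).sub analyticAt_const)
  have e1 : E.fG = (fun x => E.f x * (cexp (E.Gt x) - 1)) + E.f := by
    funext x
    simp only [fG, Pi.add_apply]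
    ring
  have e2 : iteratedDeriv l E.f z = E.P z * PP l (lamD (E.B z)) := E.core.eq z hz
  unfold W
  rw [e1, iteratedDeriv_add hH.contDiffAt hf.contDiffAt, e2]
  ring

theorem W_inact {ζ : ℂ} (hζ : ‖ζ‖ = 1) (hi : E.Inact ζ) :
    ‖E.W ζ‖ ≤ Real.exp (3 * E.Λ - E.p) * ‖E.f ζ‖ := by
  have hf : AnalyticAt ℂ E.f ζ := E.core.anf ζ (mem_closedBall_zero_iff.2 hζ.le)
  have hG : AnalyticAt ℂ E.Gt ζ := E.Gt_an (hζ.le.trans (by linarith [E.hs0]))
  have hH : AnalyticAt ℂ (fun x => cexp (E.Gt x) - 1) ζ :=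
    (analyticAt_cexp.comp hG).sub analyticAt_const
  have hlM := E.lM_ge
  have hΛ := E.Λ_ge
  have hΛM := E.hΛM
  have hM := E.M_ge
  have hl1 := E.l1
  have hfn : 0 ≤ ‖E.f ζ‖ := norm_nonneg _
  have hep := Real.exp_pos (-(E.p : ℝ))
  set K : ℝ := ((l : ℝ) + 1) * E.M with hK
  -- the first term
  have h1 : ‖iteratedDeriv l (fun x => E.f x * (cexp (E.Gt x) - 1)) ζ‖ ≤
      ‖E.f ζ‖ * (2 * 10 ^ 7 * K * Real.exp (-E.p)) * (2 ^ l * l.factorial * (1 / E.s) ^ l) := by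
    refine leibniz_le hf hH hfn (by positivity) (by linarith [E.hV]) E.V_le_s (fun i hi' => ?_)
      (fun i _ => ?_)
    · have := E.core.fder i hi' ζ hζ
      linarith [this, mul_comm (E.V ^ i) ‖E.f ζ‖]
    · have := E.dGt_inact hζ hi i
      simpa only [hK] using this
  -- the numbers
  have hexp : 2 * 10 ^ 7 * K ≤ Real.exp (E.Λ / 2) := by
    have h2 : 1 + E.Λ / 2 + (E.Λ / 2) ^ 2 / 2 ≤ Real.exp (E.Λ / 2) :=
      Real.quadratic_le_exp_of_nonneg (by linarith)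
    nlinarith
  have hfac : 2 ^ l * (l.factorial : ℝ) ≤ Real.exp E.Λ / 10 := by
    have := E.hΛl
    linarith
  have hs := E.hΛs
  have hfac0 : (0 : ℝ) ≤ 2 ^ l * (l.factorial : ℝ) := by positivity
  have hs0 : (0 : ℝ) ≤ (1 / E.s) ^ l := pow_nonneg (by linarith [E.one_le_s]) _
  have hK0 : 0 ≤ K := by linarith
  have h1' : ‖iteratedDeriv l (fun x => E.f x * (cexp (E.Gt x) - 1)) ζ‖ ≤
      Real.exp (3 * E.Λ - E.p) / 2 * ‖E.f ζ‖ := by
    refine h1.trans ?_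
    have e3 : Real.exp (3 * E.Λ - E.p) =
        Real.exp (E.Λ / 2) * Real.exp E.Λ * Real.exp E.Λ * Real.exp (-E.p) * Real.exp (E.Λ / 2) := by
      rw [← Real.exp_add, ← Real.exp_add, ← Real.exp_add, ← Real.exp_add]
      congr 1
      ring
    rw [e3]
    have hb : 2 * 10 ^ 7 * K * (2 ^ l * (l.factorial : ℝ) * (1 / E.s) ^ l) ≤
        Real.exp (E.Λ / 2) * (Real.exp E.Λ / 10 * Real.exp E.Λ) := by
      refine mul_le_mul hexp (mul_le_mul hfac hs hs0 (by positivity)) (by positivity) (by positivity)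
    have hone : 1 ≤ Real.exp (E.Λ / 2) := Real.one_le_exp (by linarith)
    have hx : 0 ≤ Real.exp (E.Λ / 2) * Real.exp E.Λ * Real.exp E.Λ * Real.exp (-E.p) * ‖E.f ζ‖ := by
      positivity
    calc ‖E.f ζ‖ * (2 * 10 ^ 7 * K * Real.exp (-E.p)) * (2 ^ l * l.factorial * (1 / E.s) ^ l)
        = (2 * 10 ^ 7 * K * (2 ^ l * (l.factorial : ℝ) * (1 / E.s) ^ l)) *
          (Real.exp (-E.p) * ‖E.f ζ‖) := by ring
      _ ≤ (Real.exp (E.Λ / 2) * (Real.exp E.Λ / 10 * Real.exp E.Λ)) *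
          (Real.exp (-E.p) * ‖E.f ζ‖) := mul_le_mul_of_nonneg_right hb (by positivity)
      _ = Real.exp (E.Λ / 2) * Real.exp E.Λ * Real.exp E.Λ * Real.exp (-E.p) * ‖E.f ζ‖ * (1 / 10) := by
        ring
      _ ≤ Real.exp (E.Λ / 2) * Real.exp E.Λ * Real.exp E.Λ * Real.exp (-E.p) * ‖E.f ζ‖ *
          (Real.exp (E.Λ / 2) / 2) := mul_le_mul_of_nonneg_left (by linarith) hx
      _ = _ := by ring
  -- the second term
  set w : ℂ := ((l + 1 : ℕ) : ℂ) * E.D2 ζ with hw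
  have hg : ‖E.g.eval ζ‖ ≤ Real.exp (-E.p) := by
    rw [E.norm_g hζ]
    exact E.β_tail hζ hi
  have hg' : ‖E.g.eval ζ‖ ≤ 1 / 400 := hg.trans (E.exp_p_le.trans (by norm_num))
  have hD : ‖E.D2 ζ‖ ≤ 2000 * E.M * Real.exp (-E.p) :=
    (E.D2_bound hζ.le hg').trans (mul_le_mul_of_nonneg_left hg (by linarith))
  have hwn : ‖w‖ ≤ 2000 * K * Real.exp (-E.p) := by
    rw [hw, norm_mul, Complex.norm_natCast, hK]
    have : ((l + 1 : ℕ) : ℝ) = (l : ℝ) + 1 := by push_cast; ring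
    rw [this]
    calc ((l : ℝ) + 1) * ‖E.D2 ζ‖ ≤ ((l : ℝ) + 1) * (2000 * E.M * Real.exp (-E.p)) :=
          mul_le_mul_of_nonneg_left hD (by positivity)
      _ = _ := by ring
  have hw1 : ‖w‖ ≤ 1 := by
    have := E.exp_pM
    rw [← hK] at this
    linarith
  have hPP : PP l (lamD (E.B ζ)) - PP l (lamD (E.Bp ζ)) = lamD (E.B ζ) ^ (l + 1) * (cexp w - 1) := by
    have e4 : lamD (E.Bp ζ) = lamD (E.B ζ) * cexp (E.D2 ζ) := by
      rw [← Pool.Agent.Helper84.Lam.exp_LL (E.Bp_lt hζ.le), ← Pool.Agent.Helper84.Lam.exp_LL (E.B_lt hζ.le),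
        ← Complex.exp_add]
      congr 1
      unfold D2
      ring
    have e5 : cexp w = cexp (E.D2 ζ) ^ (l + 1) := by
      rw [hw, Complex.exp_nat_mul]
    rw [e5, e4]
    unfold PP
    ring
  have hex : ‖cexp w - 1‖ ≤ 2 * ‖w‖ := by
    have := Complex.norm_exp_sub_one_sub_id_le hw1
    have e6 : cexp w - 1 = (cexp w - 1 - w) + w := by ring
    rw [e6]
    refine (norm_add_le _ _).trans ?_
    nlinarith [norm_nonneg w]
  have hlam : ‖lamD (E.B ζ)‖ ^ (l + 1) ≤ Real.exp (3.5 * K) := by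
    have h3 := (E.lam_in hζ.le).2.1
    calc ‖lamD (E.B ζ)‖ ^ (l + 1) ≤ Real.exp (3.5 * E.M) ^ (l + 1) :=
          pow_le_pow_left₀ (norm_nonneg _) h3 _
      _ = Real.exp (3.5 * K) := by
        rw [← Real.exp_nat_mul]
        congr 1
        rw [hK]
        push_cast
        ring
  have h2 : ‖E.P ζ * (PP l (lamD (E.B ζ)) - PP l (lamD (E.Bp ζ)))‖ ≤
      Real.exp (3 * E.Λ - E.p) / 2 * ‖E.f ζ‖ := by
    rw [hPP, norm_mul, norm_mul, norm_pow]
    have hP := E.P_le hζ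
    calc ‖E.P ζ‖ * (‖lamD (E.B ζ)‖ ^ (l + 1) * ‖cexp w - 1‖)
        ≤ (Real.exp (E.Λ + 3.5 * E.M) * ‖E.f ζ‖) *
          (Real.exp (3.5 * K) * (2 * (2000 * K * Real.exp (-E.p)))) := by
          refine mul_le_mul hP (mul_le_mul hlam (hex.trans (by linarith)) (norm_nonneg _)
            (Real.exp_pos _).le) (by positivity) (by positivity)
      _ = Real.exp (E.Λ + 3.5 * E.M + 3.5 * K) * (4000 * K) * Real.exp (-E.p) * ‖E.f ζ‖ := by
          rw [Real.exp_add (E.Λ + 3.5 * E.M)]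
          ring
      _ ≤ Real.exp (2 * E.Λ) * (Real.exp (E.Λ / 2)) * Real.exp (-E.p) * ‖E.f ζ‖ := by
          refine mul_le_mul_of_nonneg_right (mul_le_mul_of_nonneg_right (mul_le_mul
            (Real.exp_le_exp.2 ?_) (by linarith) (by positivity) (by positivity)) hep.le) hfn
          have := E.M_le_lM
          rw [← hK] at this
          have h5 : 100 * K ≤ E.Λ := by
            rw [hK]
            linarith
          linarith
      _ ≤ Real.exp (3 * E.Λ - E.p) / 2 * ‖E.f ζ‖ := by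
          refine mul_le_mul_of_nonneg_right ?_ hfn
          have e7 : Real.exp (3 * E.Λ - E.p) =
              Real.exp (2 * E.Λ) * Real.exp (E.Λ / 2) * Real.exp (-E.p) * Real.exp (E.Λ / 2) := by
            rw [← Real.exp_add, ← Real.exp_add, ← Real.exp_add]
            congr 1
            ring
          rw [e7]
          have h6 : 2 ≤ Real.exp (E.Λ / 2) := by
            have := Real.add_one_le_exp (E.Λ / 2)
            linarith
          have h7 : 0 ≤ Real.exp (2 * E.Λ) * Real.exp (E.Λ / 2) * Real.exp (-E.p) := by positivity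
          nlinarith
  rw [E.W_eq hζ.le]
  refine (norm_add_le _ _).trans ?_
  linarith

end Pool.Agent.Helper61.QF.Ev
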