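import Pool.Agent.Helper61.QF.Ev11

/-!
# Ev13 (MP_78803a, EVENT): the multiplier `Σ`

Proof.
* `sig_le`: `0 ≤ ct ≤ 1`, `norm_TT_le` with `M := 7 M` (`E.lamp_in`): `|TT| ≤ J exp ((2l+1) 7M (J+1))`;
  `3 J exp (14 (l+1) M (J+1)) ≤ exp (p/8)` because `p/8 ≥ 25 (l+1) M (J+1)` and `3J ≤ exp (J)`.
* `qq_small`: `τ = 0`: `norm_yy_le`: `2^l /(4·2^l)`; `τ = 1`: `|x|^(l+1) ≤ |x|`; `τ = 2`: the same for `|x|⁻¹`.
* `sig_active`: `PP Σ - 1 = ct_τ (1 - qq_τ^J) - 1 + Σ_{τ'≠τ} ct_τ' PP TT_τ'` (`PP_mul_TT`; `lamD ≠ 0, 1`: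
  `Helper84.Lam.lamD_ne_zero`, `lamD_ne_one`), with `E.active_type`; the last sum is at most
  `2 e^(-p) e^(8(l+1)M) e^(p/8) ≤ 2 e^(-p/2)`, and `3 e^(-p/2) ≤ (1/2)^J` since `p ≥ 10^8 J`.
-/

set_option autoImplicit false

open Polynomial Complex Metric
open Pool.Agent.Helper81.QF Pool.Agent.Helper29.QF
open Pool.Agent.Helper84.Lam (YD lamD LL L1 F3 ps)

namespace Pool.Agent.Helper61.QF

theorem qq_small (l : ℕ) (τ : Fin 3) {w : ℂ} (hw : ‖w‖ < 1) (h : xt τ w ≤ 1 / (4 * 2 ^ l)) :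
    ‖qq l τ (lamD w)‖ ≤ 1 / 2 := by
  have h2l : (1 : ℝ) ≤ 2 ^ l := one_le_pow₀ (by norm_num)
  have hq : (1 : ℝ) / (4 * 2 ^ l) ≤ 1 / 4 :=
    div_le_div_of_nonneg_left (by norm_num) (by norm_num) (by linarith)
  have hpow : ∀ y : ℝ, 0 ≤ y → y ≤ 1 / 4 → y ^ (l + 1) ≤ 1 / 2 := by
    intro y h0 h1
    calc y ^ (l + 1) ≤ y ^ 1 := pow_le_pow_of_le_one h0 (by linarith) (by omega)
      _ ≤ 1 / 2 := by rw [pow_one]; linarith
  unfold xt at h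
  unfold qq
  split_ifs at h ⊢ with h3 h4
  · have h5 : ‖1 - lamD w‖ ≤ 1 := by linarith
    refine (norm_yy_le l h5).trans ?_
    calc (2 : ℝ) ^ l * ‖1 - lamD w‖ ≤ 2 ^ l * (1 / (4 * 2 ^ l)) :=
          mul_le_mul_of_nonneg_left h (by positivity)
      _ = 1 / 4 := by field_simp
      _ ≤ 1 / 2 := by norm_num
  · rw [norm_pow]
    exact hpow _ (norm_nonneg _) (h.trans hq)
  · rw [norm_inv, norm_pow, ← inv_pow]
    exact hpow _ (inv_nonneg.2 (norm_nonneg _)) (h.trans hq)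

namespace Ev

variable {l : ℕ} (E : Ev l)

theorem TT_le (τ : Fin 3) {z : ℂ} (hz : ‖z‖ ≤ 1) :
    ‖TT l E.J τ (lamD (E.Bp z))‖ ≤ Real.exp (E.p / 8) / 3 := by
  obtain ⟨h1, h2, h3, -⟩ := E.lamp_in hz
  have hM := E.M_ge
  have hJ := E.J_ge
  have hl := E.l1
  have hT := norm_TT_le l E.J τ (M := 7 * E.M) (by linarith) h1 h3 h2
  refine hT.trans ?_
  have hX0 : (E.J : ℝ) + 1 ≤ (((l : ℝ) + 1) * E.M) * ((E.J : ℝ) + 1) := by
    have := E.lM_ge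
    nlinarith
  set X : ℝ := (((l : ℝ) + 1) * E.M) * ((E.J : ℝ) + 1) with hX
  have hp : 25 * X ≤ E.p / 8 := by
    have := E.hp
    rw [hX]
    linarith
  have h4 : (2 * (l : ℝ) + 1) * (7 * E.M) * ((E.J : ℝ) + 1) ≤ 14 * X := by
    rw [hX]
    have h5 : 0 ≤ 7 * E.M * ((E.J : ℝ) + 1) := by positivity
    nlinarith
  have h6 : 3 * (E.J : ℝ) ≤ Real.exp (11 * X) := by
    have := Real.add_one_le_exp (11 * X)
    linarith
  have h7 : Real.exp (25 * X) = Real.exp (11 * X) * Real.exp (14 * X) := by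
    rw [← Real.exp_add]
    ring_nf
  have h8 : (E.J : ℝ) * Real.exp ((2 * (l : ℝ) + 1) * (7 * E.M) * ((E.J : ℝ) + 1)) ≤
      E.J * Real.exp (14 * X) :=
    mul_le_mul_of_nonneg_left (Real.exp_le_exp.2 h4) (by linarith)
  refine h8.trans ?_
  rw [le_div_iff₀ (by norm_num : (0 : ℝ) < 3)]
  calc (E.J : ℝ) * Real.exp (14 * X) * 3 = (3 * E.J) * Real.exp (14 * X) := by ring
    _ ≤ Real.exp (11 * X) * Real.exp (14 * X) :=
        mul_le_mul_of_nonneg_right h6 (Real.exp_pos _).le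
    _ = Real.exp (25 * X) := h7.symm
    _ ≤ Real.exp (E.p / 8) := Real.exp_le_exp.2 hp

theorem sig_le {ζ : ℂ} (hζ : ‖ζ‖ = 1) : ‖E.sig ζ‖ ≤ Real.exp (E.p / 8) := by
  unfold sig
  have hb : ∀ τ ∈ (Finset.univ : Finset (Fin 3)),
      ‖(E.ct τ ζ : ℂ) * TT l E.J τ (lamD (E.Bp ζ))‖ ≤ Real.exp (E.p / 8) / 3 := by
    intro τ _
    rw [norm_mul, Complex.norm_real, Real.norm_eq_abs, abs_of_nonneg (E.ct_nonneg τ ζ)]
    calc E.ct τ ζ * ‖TT l E.J τ (lamD (E.Bp ζ))‖ ≤ 1 * (Real.exp (E.p / 8) / 3) :=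
          mul_le_mul (E.ct_le_one τ hζ) (E.TT_le τ hζ.le) (norm_nonneg _) zero_le_one
      _ = Real.exp (E.p / 8) / 3 := one_mul _
  refine (norm_sum_le_of_le _ hb).trans ?_
  rw [Finset.sum_const, Finset.card_univ, Fintype.card_fin, nsmul_eq_mul]
  push_cast
  linarith

theorem sig_active {ζ : ℂ} (hζ : ‖ζ‖ = 1) (ha : ¬ E.Inact ζ) :
    ‖PP l (lamD (E.Bp ζ)) * E.sig ζ - 1‖ ≤ 2 * (1 / 2) ^ E.J := by
  obtain ⟨τ, -, h1, h2, h3⟩ := E.active_type hζ ha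
  have hB : ‖E.Bp ζ‖ < 1 := E.Bp_lt hζ.le
  have hPP := E.PPp_le hζ.le
  set x : ℂ := lamD (E.Bp ζ) with hx
  have hx0 : x ≠ 0 := Helper84.Lam.lamD_ne_zero hB
  have hx1 : x ≠ 1 := Helper84.Lam.lamD_ne_one hB
  have hq := qq_small l τ hB h3
  -- the decomposition
  have e : PP l x * E.sig ζ - 1 =
      ((E.ct τ ζ : ℂ) - 1) + (-((E.ct τ ζ : ℂ) * qq l τ x ^ E.J)) +
        ∑ τ' ∈ Finset.univ.erase τ, (E.ct τ' ζ : ℂ) * (PP l x * TT l E.J τ' x) := by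
    unfold sig
    rw [← hx, ← Finset.add_sum_erase Finset.univ _ (Finset.mem_univ τ), mul_add, Finset.mul_sum]
    have h4 : PP l x * ((E.ct τ ζ : ℂ) * TT l E.J τ x) =
        (E.ct τ ζ : ℂ) * (1 - qq l τ x ^ E.J) := by
      rw [← PP_mul_TT l E.J τ hx0 hx1]
      ring
    rw [h4]
    have h5 : ∑ i ∈ Finset.univ.erase τ, PP l x * ((E.ct i ζ : ℂ) * TT l E.J i x) =
        ∑ τ' ∈ Finset.univ.erase τ, (E.ct τ' ζ : ℂ) * (PP l x * TT l E.J τ' x) :=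
      Finset.sum_congr rfl (fun i _ => by ring)
    rw [h5]
    ring
  have hc0 := E.ct_nonneg τ ζ
  have hc1 := E.ct_le_one τ hζ
  have n1 : ‖(E.ct τ ζ : ℂ) - 1‖ ≤ Real.exp (-E.p) := by
    have : (E.ct τ ζ : ℂ) - 1 = ((E.ct τ ζ - 1 : ℝ) : ℂ) := by push_cast; ring
    rw [this, Complex.norm_real, Real.norm_eq_abs, abs_le]
    constructor <;> linarith [Real.exp_pos (-(E.p : ℝ))]
  have n2 : ‖-((E.ct τ ζ : ℂ) * qq l τ x ^ E.J)‖ ≤ (1 / 2) ^ E.J := by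
    rw [norm_neg, norm_mul, norm_pow, Complex.norm_real, Real.norm_eq_abs, abs_of_nonneg hc0]
    calc E.ct τ ζ * ‖qq l τ x‖ ^ E.J ≤ 1 * (1 / 2) ^ E.J :=
          mul_le_mul hc1 (pow_le_pow_left₀ (norm_nonneg _) hq _) (by positivity) zero_le_one
      _ = (1 / 2) ^ E.J := one_mul _
  have hs : ∀ τ' ∈ Finset.univ.erase τ, ‖(E.ct τ' ζ : ℂ) * (PP l x * TT l E.J τ' x)‖ ≤
      Real.exp (-E.p) * (Real.exp (8 * (((l : ℝ) + 1) * E.M)) * (Real.exp (E.p / 8) / 3)) := by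
    intro τ' hτ'
    have hne := Finset.ne_of_mem_erase hτ'
    rw [norm_mul, norm_mul, Complex.norm_real, Real.norm_eq_abs,
      abs_of_nonneg (E.ct_nonneg τ' ζ)]
    exact mul_le_mul (h2 τ' hne)
      (mul_le_mul hPP (E.TT_le τ' hζ.le) (norm_nonneg _) (Real.exp_pos _).le)
      (by positivity) (Real.exp_pos _).le
  have n3 := norm_sum_le_of_le _ hs
  rw [Finset.sum_const, Finset.card_erase_of_mem (Finset.mem_univ τ), Finset.card_univ,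
    Fintype.card_fin, nsmul_eq_mul] at n3
  norm_num only [Nat.cast_ofNat] at n3
  have hp' := E.p_ge'
  have hplM := E.p_ge_lM
  have hlM := E.lM_ge
  have hJp := E.p_ge
  have hJ := E.J_ge
  have k1 : Real.exp (-E.p) * (Real.exp (8 * (((l : ℝ) + 1) * E.M)) * (Real.exp (E.p / 8) / 3)) ≤
      Real.exp (-(E.p : ℝ) / 2) / 3 := by
    have : Real.exp (-E.p) * (Real.exp (8 * (((l : ℝ) + 1) * E.M)) * (Real.exp (E.p / 8) / 3)) =
        Real.exp (-E.p + 8 * (((l : ℝ) + 1) * E.M) + E.p / 8) / 3 := by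
      rw [Real.exp_add, Real.exp_add]
      ring
    rw [this]
    refine div_le_div_of_nonneg_right (Real.exp_le_exp.2 ?_) (by norm_num)
    linarith
  have k2 : Real.exp (-(E.p : ℝ)) ≤ Real.exp (-(E.p : ℝ) / 2) / 3 := by
    have e1 : Real.exp (-(E.p : ℝ)) = Real.exp (-(E.p : ℝ) / 2) * Real.exp (-(E.p : ℝ) / 2) := by
      rw [← Real.exp_add]
      ring_nf
    have e2 : Real.exp (-(E.p : ℝ) / 2) ≤ 1 / 3 := by
      have h5 : Real.exp (-(E.p : ℝ) / 2) = (Real.exp ((E.p : ℝ) / 2))⁻¹ := by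
        rw [← Real.exp_neg]
        ring_nf
      have h6 : (3 : ℝ) ≤ Real.exp ((E.p : ℝ) / 2) := by
        have := Real.add_one_le_exp ((E.p : ℝ) / 2)
        linarith
      rw [h5, one_div]
      exact inv_anti₀ (by norm_num) h6
    rw [e1]
    have := Real.exp_pos (-(E.p : ℝ) / 2)
    nlinarith
  have k3 : Real.exp (-(E.p : ℝ) / 2) ≤ (1 / 2) ^ E.J := by
    have h5 : (1 / 2 : ℝ) ^ E.J = Real.exp (-(E.J * Real.log 2)) := by
      rw [Real.exp_neg, mul_comm, Real.exp_mul, Real.exp_log (by norm_num), Real.rpow_natCast,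
        one_div, inv_pow]
    rw [h5]
    refine Real.exp_le_exp.2 ?_
    have h6 : Real.log 2 ≤ 1 := by
      have := Real.log_le_sub_one_of_pos (by norm_num : (0 : ℝ) < 2)
      linarith
    have h7 : (E.J : ℝ) * Real.log 2 ≤ E.J * 1 := mul_le_mul_of_nonneg_left h6 (by linarith)
    linarith
  rw [e]
  refine (norm_add_le _ _).trans ?_
  have n12 := norm_add_le ((E.ct τ ζ : ℂ) - 1) (-((E.ct τ ζ : ℂ) * qq l τ x ^ E.J))
  linarith

end Ev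

end Pool.Agent.Helper61.QF
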