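import Pool.Agent.Helper61.QF.Ev12
import Pool.Agent.Helper61.QF.Ev13

/-!
# Ev14 (MP_78803a, EVENT): `F` is tiny on the circle

Proof.
* active: `|F| ≤ e^(3Λ) |f| 2·2^(-J)` (`W_le`, `sig_active`), `J log 2 - 3Λ - log 2 ≥ J/2` as `J ≥ 40 Λ`.
* inactive: `|F| ≤ e^(3Λ-p) |f| (e^(8(l+1)M) e^(p/8) + 1)` (`W_inact`, `PPp_le`, `sig_le`), and `p ≥ 10^8 J`,
  `J ≥ 40 Λ`, `Λ ≥ 100 (l+1) M`.
-/

set_option autoImplicit false

open Polynomial Complex Metric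
open Pool.Agent.Helper81.QF Pool.Agent.Helper29.QF
open Pool.Agent.Helper84.Lam (YD lamD LL L1 F3 ps)

namespace Pool.Agent.Helper61.QF.Ev

variable {l : ℕ} (E : Ev l)

theorem F_le {ζ : ℂ} (hζ : ‖ζ‖ = 1) : ‖E.F ζ‖ ≤ Real.exp (-(E.J : ℝ) / 2) * ‖E.f ζ‖ := by
  have hf : 0 ≤ ‖E.f ζ‖ := norm_nonneg _
  have hJ := E.hJ
  have hΛ := E.Λ_ge
  have hΛM := E.hΛM
  have hJ0 := E.J_ge
  have hp := E.p_ge
  have h2 : (2 : ℝ) ≤ Real.exp 1 := by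
    have := Real.add_one_le_exp (1 : ℝ)
    linarith
  unfold F
  rw [norm_mul]
  by_cases hi : E.Inact ζ
  · have a1 := E.W_inact hζ hi
    have a2 := E.PPp_le hζ.le
    have a3 := E.sig_le hζ
    obtain ⟨y, hyd⟩ : ∃ y : ℝ, y = ((l : ℝ) + 1) * E.M := ⟨_, rfl⟩
    have hy : 100 * y ≤ E.Λ := by
      rw [hyd]
      linarith
    have hy0 : 0 ≤ y := by
      have := E.lM_ge
      rw [← hyd] at this
      linarith
    rw [← hyd] at a2
    have b1 : ‖PP l (lamD (E.Bp ζ)) * E.sig ζ - 1‖ ≤ Real.exp (8 * y + E.p / 8 + 1) := by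
      have c1 : ‖PP l (lamD (E.Bp ζ)) * E.sig ζ‖ ≤ Real.exp (8 * y + E.p / 8) := by
        rw [norm_mul, Real.exp_add]
        exact mul_le_mul a2 a3 (norm_nonneg _) (Real.exp_pos _).le
      have c2 : (1 : ℝ) ≤ Real.exp (8 * y + E.p / 8) := by
        refine Real.one_le_exp ?_
        have : (0 : ℝ) ≤ E.p := Nat.cast_nonneg _
        positivity
      have c3 : Real.exp (8 * y + E.p / 8 + 1) = Real.exp (8 * y + E.p / 8) * Real.exp 1 :=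
        Real.exp_add _ _
      refine (norm_sub_le _ _).trans ?_
      rw [norm_one, c3]
      nlinarith
    calc ‖E.W ζ‖ * ‖PP l (lamD (E.Bp ζ)) * E.sig ζ - 1‖
        ≤ (Real.exp (3 * E.Λ - E.p) * ‖E.f ζ‖) * Real.exp (8 * y + E.p / 8 + 1) :=
          mul_le_mul a1 b1 (norm_nonneg _) (by positivity)
      _ = Real.exp ((3 * E.Λ - E.p) + (8 * y + E.p / 8 + 1)) * ‖E.f ζ‖ := by
          rw [Real.exp_add (3 * E.Λ - E.p) (8 * y + E.p / 8 + 1)]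
          ring
      _ ≤ Real.exp (-(E.J : ℝ) / 2) * ‖E.f ζ‖ := by
          refine mul_le_mul_of_nonneg_right (Real.exp_le_exp.2 ?_) hf
          linarith
  · have a1 := E.W_le hζ
    have a2 := E.sig_active hζ hi
    have h5 : (1 / 2 : ℝ) ^ E.J = Real.exp (-(E.J * Real.log 2)) := by
      rw [Real.exp_neg, mul_comm, Real.exp_mul, Real.exp_log (by norm_num), Real.rpow_natCast,
        one_div, inv_pow]
    have h6 : 0.69 ≤ Real.log 2 := by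
      have := Real.log_two_gt_d9
      linarith
    have h7 : (E.J : ℝ) * 0.69 ≤ E.J * Real.log 2 := mul_le_mul_of_nonneg_left h6 (by linarith)
    have b1 : 2 * (1 / 2 : ℝ) ^ E.J ≤ Real.exp (1 - E.J * 0.69) := by
      rw [h5, sub_eq_add_neg, Real.exp_add]
      exact mul_le_mul h2 (Real.exp_le_exp.2 (by linarith)) (Real.exp_pos _).le (Real.exp_pos _).le
    calc ‖E.W ζ‖ * ‖PP l (lamD (E.Bp ζ)) * E.sig ζ - 1‖
        ≤ (Real.exp (3 * E.Λ) * ‖E.f ζ‖) * Real.exp (1 - E.J * 0.69) :=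
          mul_le_mul a1 (a2.trans b1) (norm_nonneg _) (by positivity)
      _ = Real.exp (3 * E.Λ + (1 - E.J * 0.69)) * ‖E.f ζ‖ := by
          rw [Real.exp_add (3 * E.Λ) (1 - E.J * 0.69)]
          ring
      _ ≤ Real.exp (-(E.J : ℝ) / 2) * ‖E.f ζ‖ := by
          refine mul_le_mul_of_nonneg_right (Real.exp_le_exp.2 ?_) hf
          linarith

theorem Wsig_inact {ζ : ℂ} (hζ : ‖ζ‖ = 1) (hi : E.Inact ζ) :
    ‖E.W ζ * E.sig ζ‖ ≤ Real.exp (-(E.p : ℝ) / 2) * ‖E.f ζ‖ := by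
  have hf : 0 ≤ ‖E.f ζ‖ := norm_nonneg _
  have hJ := E.hJ
  have hΛ := E.Λ_ge
  have hp := E.p_ge
  rw [norm_mul]
  calc ‖E.W ζ‖ * ‖E.sig ζ‖
      ≤ (Real.exp (3 * E.Λ - E.p) * ‖E.f ζ‖) * Real.exp (E.p / 8) :=
        mul_le_mul (E.W_inact hζ hi) (E.sig_le hζ) (norm_nonneg _) (by positivity)
    _ = Real.exp ((3 * E.Λ - E.p) + E.p / 8) * ‖E.f ζ‖ := by
        rw [Real.exp_add (3 * E.Λ - E.p) (E.p / 8)]
        ring
    _ ≤ Real.exp (-(E.p : ℝ) / 2) * ‖E.f ζ‖ := by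
        refine mul_le_mul_of_nonneg_right (Real.exp_le_exp.2 ?_) hf
        linarith

theorem Wsig_le {ζ : ℂ} (hζ : ‖ζ‖ = 1) :
    ‖E.W ζ * E.sig ζ‖ ≤ Real.exp (3 * E.Λ + E.p / 8) * ‖E.f ζ‖ := by
  rw [norm_mul]
  calc ‖E.W ζ‖ * ‖E.sig ζ‖
      ≤ (Real.exp (3 * E.Λ) * ‖E.f ζ‖) * Real.exp (E.p / 8) :=
        mul_le_mul (E.W_le hζ) (E.sig_le hζ) (norm_nonneg _) (by positivity)
    _ = Real.exp (3 * E.Λ + E.p / 8) * ‖E.f ζ‖ := by
        rw [Real.exp_add (3 * E.Λ) (E.p / 8)]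
        ring

end Pool.Agent.Helper61.QF.Ev
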