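import Pool.Agent.Helper61.QF.Ev14

/-!
# Ev15 (MP_78803a, EVENT): analytic versions of `W Σ` and `F`

Proof. `K = N - kd`, `e = K - l - kd - 2 p n ≥ 0` (`E.N_sub`).
* `W_factor`: `E.W_eq`: `f (e^G~ - 1) = z^K (..)` for all `z` (`exists_factor` with `E.Gt_factor` near `0`, where
  `|e^x - 1| ≤ 2|x|`), `iter_factor`; `P (PP (λ(B)) - PP (λ(B₊))) = z^K (..)` by `exists_factor` with a bound near `0`
  (`λ` is analytic, so Lipschitz near `B 0`; `E.BpB_factor`).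
* `exists_anF`: `w0 z = z^e W0 z Σ_τ chi_τ(z) TT_τ(λ(B₊ z))`, `f0 z = PP w0 z - z^(kd+e) W0 z`, where
  `chi_τ = chi n p (vt τ)`, on the circle `chi_τ(z) = z^kd ct_τ(z)` (`chi_circle`). `TT l J τ` is analytic at
  `x ≠ 0, 1`; `lamD (B₊ z) ≠ 0, 1`, `Helper29.QF.comp_an`.
-/

set_option autoImplicit false

open Polynomial Complex Metric
open Pool.Agent.Helper81.QF Pool.Agent.Helper29.QF
open Pool.Agent.Helper84.Lam (YD lamD LL L1 F3 ps)

namespace Pool.Agent.Helper61.QF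

/-- `exp A - 1` is divisible by `z^K` if `A` is -/
private theorem exp_factor {A A0 : ℂ → ℂ} {K : ℕ} (hK : 1 ≤ K)
    (hA0 : AnalyticOnNhd ℂ A0 (closedBall 0 1)) (h : ∀ z : ℂ, A z = z ^ K * A0 z) :
    ∃ E0 : ℂ → ℂ, AnalyticOnNhd ℂ E0 (closedBall 0 1) ∧ ∀ z : ℂ, cexp (A z) - 1 = z ^ K * E0 z := by
  have hA : AnalyticOnNhd ℂ A (closedBall 0 1) := by
    intro z hz
    have e : A = fun x => x ^ K * A0 x := funext h
    rw [e]
    exact (analyticAt_id.pow K).mul (hA0 z hz)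
  have h0 : (0 : ℂ) ∈ closedBall (0 : ℂ) 1 := by simp
  have hA00 : A 0 = 0 := by
    rw [h, zero_pow (by omega), zero_mul]
  have hE : AnalyticOnNhd ℂ (fun z => cexp (A z) - 1) (closedBall 0 1) := fun z hz =>
    (hA z hz).cexp.sub analyticAt_const
  refine Pool.Agent.Helper16.T78.exists_div hE h0 ?_
  have h1 : (fun x : ℂ => cexp x - cexp 0) =O[nhds 0] fun x => x - 0 :=
    (Complex.hasDerivAt_exp 0).isBigO_sub
  have h2 : Filter.Tendsto A (nhds 0) (nhds 0) := by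
    have := (hA 0 h0).continuousAt.tendsto
    rwa [hA00] at this
  have h3 : (fun z : ℂ => cexp (A z) - 1) =O[nhds 0] A := by
    have h4 := h1.comp_tendsto h2
    simpa [Function.comp_def, Complex.exp_zero] using h4
  have h5 : A =O[nhds 0] fun z : ℂ => z ^ K := by
    have e : A = fun x => x ^ K * A0 x := funext h
    rw [e]
    have h6 : A0 =O[nhds 0] (fun _ : ℂ => (1 : ℂ)) :=
      (hA0 0 h0).continuousAt.tendsto.isBigO_one ℂ
    have h7 := (Asymptotics.isBigO_refl (fun x : ℂ => x ^ K) (nhds 0)).mul h6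
    simpa using h7
  exact h3.trans h5

private theorem TT_diff (l J : ℕ) (τ : Fin 3) {x : ℂ} (h0 : x ≠ 0) (h1 : x ≠ 1) :
    DifferentiableAt ℂ (TT l J τ) x := by
  have hl : ((l : ℂ) + 1) ≠ 0 := by exact_mod_cast Nat.succ_ne_zero l
  have hx : (1 - x) * ((l : ℂ) + 1) ≠ 0 := mul_ne_zero (sub_ne_zero.2 h1.symm) hl
  have hp : x ^ (l + 1) ≠ 0 := pow_ne_zero _ h0
  have hid : DifferentiableAt ℂ (fun y : ℂ => y) x := differentiableAt_id
  have hpow : ∀ k : ℕ, DifferentiableAt ℂ (fun y : ℂ => y ^ k) x := fun k => hid.pow k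
  have hq : DifferentiableAt ℂ (fun y => qq l τ y) x := by
    unfold qq
    split_ifs with h2 h3
    · unfold yy SS
      exact (differentiableAt_const _).sub
        ((DifferentiableAt.fun_sum fun i _ => hpow i).div_const _)
    · exact hpow _
    · exact (hpow _).inv hp
  have hs : DifferentiableAt ℂ (fun y => ∑ j ∈ Finset.range J, qq l τ y ^ j) x :=
    DifferentiableAt.fun_sum fun i _ => hq.pow i
  have hpre : DifferentiableAt ℂ (fun y : ℂ => (if τ = 0 then ((1 - y) * ((l : ℂ) + 1))⁻¹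
      else if τ = 1 then 1 else -(y ^ (l + 1))⁻¹ : ℂ)) x := by
    split_ifs with h2 h3
    · exact (((differentiableAt_const _).sub hid).mul (differentiableAt_const _)).inv hx
    · exact differentiableAt_const _
    · exact ((hpow _).inv hp).neg
  exact hpre.mul hs

/-- analytic versions of `W Σ` and `F`, divided by `z^(2pn)` -/
structure AnF {l : ℕ} (E : Ev l) (w0 f0 : ℂ → ℂ) : Prop where
  anw : AnalyticOnNhd ℂ w0 (closedBall 0 1)
  anf : AnalyticOnNhd ℂ f0 (closedBall 0 1)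
  hw : ∀ z : ℂ, ‖z‖ = 1 → z ^ (2 * E.p * E.n) * w0 z = E.W z * E.sig z
  hf : ∀ z : ℂ, ‖z‖ = 1 → z ^ (2 * E.p * E.n) * f0 z = E.F z
  eq : ∀ z : ℂ, ‖z‖ ≤ 1 → z ^ (2 * E.p * E.n) * f0 z =
    PP l (lamD (E.Bp z)) * (z ^ (2 * E.p * E.n) * w0 z) - E.W z

namespace Ev

variable {l : ℕ} (E : Ev l)

private theorem PP_sub {z : ℂ} (hz : ‖z‖ ≤ 1) :
    PP l (lamD (E.B z)) - PP l (lamD (E.Bp z)) =
      lamD (E.B z) ^ (l + 1) * (cexp (((l + 1 : ℕ) : ℂ) * E.D2 z) - 1) := by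
  have e4 : lamD (E.Bp z) = lamD (E.B z) * cexp (E.D2 z) := by
    rw [← Pool.Agent.Helper84.Lam.exp_LL (E.Bp_lt hz), ← Pool.Agent.Helper84.Lam.exp_LL (E.B_lt hz),
      ← Complex.exp_add]
    congr 1
    unfold D2
    ring
  rw [Complex.exp_nat_mul, e4]
  unfold PP
  ring

theorem W_factor : ∃ W0 : ℂ → ℂ, AnalyticOnNhd ℂ W0 (closedBall 0 1) ∧
    ∀ z : ℂ, ‖z‖ ≤ 1 → E.W z = z ^ (E.N - kd E.n E.p - l) * W0 z := by
  obtain ⟨H0, hH0, hG⟩ := E.Gt_factor
  obtain ⟨E0, hE0, hE⟩ := exp_factor E.K_pos hH0 hG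
  obtain ⟨D0, hD0, hD⟩ := E.D2_factor
  obtain ⟨E1, hE1, hE'⟩ := exp_factor (A := fun z => ((l + 1 : ℕ) : ℂ) * E.D2 z)
    (A0 := fun z => ((l + 1 : ℕ) : ℂ) * D0 z) E.K_pos
    (fun z hz => analyticAt_const.mul (hD0 z hz)) (fun z => by
      simp only [hD z]
      ring)
  have hlK : l ≤ E.N - kd E.n E.p := by
    have := E.N_sub
    omega
  obtain ⟨F1, hF1, hF⟩ := iter_factor (F := fun x => E.f x * (cexp (E.Gt x) - 1))
    (F0 := fun x => E.f x * E0 x) (fun z hz => (E.core.anf z hz).mul (hE0 z hz)) hlK (fun z => by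
      simp only [hE z]
      ring)
  have hlam : AnalyticOnNhd ℂ (fun z => lamD (E.B z)) (closedBall 0 1) :=
    E.comp_an_B (fun w hw => Pool.Agent.Helper84.Lam.diff_lamD hw)
  refine ⟨fun z => F1 z + E.P z * (lamD (E.B z) ^ (l + 1) * (z ^ l * E1 z)), fun z hz => ?_,
    fun z hz => ?_⟩
  · exact (hF1 z hz).add ((E.core.anP z hz).mul
      (((hlam z hz).pow (l + 1)).mul ((analyticAt_id.pow l).mul (hE1 z hz))))
  · rw [E.W_eq hz, hF z hz, E.PP_sub hz, hE' z]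
    have e : z ^ (E.N - kd E.n E.p) = z ^ (E.N - kd E.n E.p - l) * z ^ l := by
      rw [← pow_add]
      congr 1
      omega
    rw [e]
    ring

theorem exists_anF : ∃ w0 f0 : ℂ → ℂ, AnF E w0 f0 := by
  obtain ⟨W0, hW0, hW⟩ := E.W_factor
  obtain ⟨e, he⟩ : ∃ e : ℕ, E.N - kd E.n E.p - l = 2 * E.p * E.n + (kd E.n E.p + e) :=
    ⟨E.N - kd E.n E.p - l - 2 * E.p * E.n - kd E.n E.p, by
      have := E.N_sub
      omega⟩
  rw [he] at hW
  have hTT : ∀ τ : Fin 3, AnalyticOnNhd ℂ (fun z => TT l E.J τ (lamD (E.Bp z))) (closedBall 0 1) :=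
    fun τ => E.comp_an_Bp (F := fun w => TT l E.J τ (lamD w)) (fun w hw =>
      DifferentiableAt.fun_comp' w (TT_diff l E.J τ (Pool.Agent.Helper84.Lam.lamD_ne_zero hw)
        (Pool.Agent.Helper84.Lam.lamD_ne_one hw)) (Pool.Agent.Helper84.Lam.diff_lamD hw))
  have hPP : AnalyticOnNhd ℂ (fun z => PP l (lamD (E.Bp z))) (closedBall 0 1) := by
    refine E.comp_an_Bp (F := fun w => PP l (lamD w)) (fun w hw => ?_)
    unfold PP
    exact (differentiableAt_const _).sub ((Pool.Agent.Helper84.Lam.diff_lamD hw).pow _)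
  have hS : AnalyticOnNhd ℂ (fun z => ∑ τ : Fin 3,
      (chi E.n E.p (E.vt τ)).eval z * TT l E.J τ (lamD (E.Bp z))) (closedBall 0 1) := by
    intro z hz
    exact Finset.analyticAt_fun_sum _ (fun τ _ => (poly_an _ _ z hz).mul (hTT τ z hz))
  have hw0 : AnalyticOnNhd ℂ (fun z => z ^ e * W0 z * ∑ τ : Fin 3,
      (chi E.n E.p (E.vt τ)).eval z * TT l E.J τ (lamD (E.Bp z))) (closedBall 0 1) :=
    fun z hz => ((analyticAt_id.pow e).mul (hW0 z hz)).mul (hS z hz)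
  have hvt : ∀ (τ : Fin 3) (w : ℂ), ‖w‖ = 1 → |E.vt τ w| ≤ 1 := by
    intro τ w _
    unfold vt
    split_ifs <;> norm_num
  have hcirc : ∀ z : ℂ, ‖z‖ = 1 → z ^ (2 * E.p * E.n) * (z ^ e * W0 z * ∑ τ : Fin 3,
      (chi E.n E.p (E.vt τ)).eval z * TT l E.J τ (lamD (E.Bp z))) = E.W z * E.sig z := by
    intro z hz
    have h1 : ∑ τ : Fin 3, (chi E.n E.p (E.vt τ)).eval z * TT l E.J τ (lamD (E.Bp z)) =
        z ^ kd E.n E.p * E.sig z := by
      unfold sig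
      rw [Finset.mul_sum]
      refine Finset.sum_congr rfl (fun τ _ => ?_)
      rw [chi_circle (E.meas_vt τ) (hvt τ) hz]
      unfold ct
      ring
    rw [h1, hW z hz.le, pow_add, pow_add]
    ring
  refine ⟨_, fun z => PP l (lamD (E.Bp z)) * (z ^ e * W0 z * ∑ τ : Fin 3,
      (chi E.n E.p (E.vt τ)).eval z * TT l E.J τ (lamD (E.Bp z))) - z ^ (kd E.n E.p + e) * W0 z,
    hw0, fun z hz => ?_, hcirc, fun z hz => ?_, fun z hz => ?_⟩
  · exact ((hPP z hz).mul (hw0 z hz)).sub ((analyticAt_id.pow _).mul (hW0 z hz))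
  · have h1 := hcirc z hz
    have h2 := hW z hz.le
    unfold F
    rw [mul_sub, ← mul_assoc, mul_comm (z ^ (2 * E.p * E.n)) (PP l (lamD (E.Bp z))), mul_assoc, h1,
      ← mul_assoc (z ^ (2 * E.p * E.n)), ← pow_add, ← h2]
    ring
  · rw [hW z hz, pow_add]
    ring

end Ev

end Pool.Agent.Helper61.QF
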