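import Pool.Agent.Helper61.QF.Ev15
import Pool.Agent.Helper16.T78.T1
import Pool.Agent.Helper16.T78.T6

/-!
# Ev16 (MP_78803a, EVENT): the correction `h = I^l F`

Proof.
* `f_log`: on the circle `|f'| ≤ V |f|` (`E.core.fder 1`, `E.hl`), maximum principle for `f'/f`.
* `exists_cor`: `E.exists_anF`; `g z = z^(2pn) f0 z`: `Helper16.T78.schwarz_weighted` (R = 1, φ = f, `E.F_le`) gives
  `|g z| ≤ e^(-J/2) |f z| |z|^(2pn)`; then `Helper16.T78.wprim_iter_all` with `R = 1`, `b = V`, `x = 1`,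
  `n = 2pn` (`V ≤ 2pn` by `E.hn`).
-/

set_option autoImplicit false

open Polynomial Complex Metric
open Pool.Agent.Helper81.QF Pool.Agent.Helper29.QF
open Pool.Agent.Helper84.Lam (YD lamD LL L1 F3 ps)

namespace Pool.Agent.Helper61.QF

/-- the correction `h` of `f e^G~` and the correction `z^(2pn) w0` of `P` -/
structure Cor {l : ℕ} (E : Ev l) (w0 h : ℂ → ℂ) : Prop where
  anw : AnalyticOnNhd ℂ w0 (closedBall 0 1)
  anh : AnalyticOnNhd ℂ h (closedBall 0 1)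
  hw : ∀ z : ℂ, ‖z‖ = 1 → z ^ (2 * E.p * E.n) * w0 z = E.W z * E.sig z
  eq : ∀ z : ℂ, ‖z‖ ≤ 1 → iteratedDeriv l h z =
    PP l (lamD (E.Bp z)) * (z ^ (2 * E.p * E.n) * w0 z) - E.W z
  le : ∀ i ≤ l, ∀ z : ℂ, ‖z‖ ≤ 1 →
    ‖iteratedDeriv i h z‖ ≤ Real.exp (-(E.J : ℝ) / 2) * ‖E.f z‖ * ‖z‖ ^ (2 * E.p * E.n)

namespace Ev

variable {l : ℕ} (E : Ev l)

theorem f_log {z : ℂ} (hz : ‖z‖ ≤ 1) : ‖deriv E.f z‖ ≤ E.V * ‖E.f z‖ := by
  have hne : ∀ w ∈ closedBall (0 : ℂ) 1, E.f w ≠ 0 := fun w hw =>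
    E.core.fne w (mem_closedBall_zero_iff.1 hw)
  have h := Pool.Agent.Helper16.T78.norm_le_of_circle (f := fun z => deriv E.f z / E.f z)
    (R := 1) (M := E.V) one_pos (E.core.anf.deriv.div E.core.anf hne) (fun w hw => by
      have h1 := E.core.fder 1 E.hl w hw
      rw [iteratedDeriv_one, pow_one] at h1
      have h4 : 0 < ‖E.f w‖ := norm_pos_iff.2 (E.core.fne w hw.le)
      change ‖deriv E.f w / E.f w‖ ≤ E.V
      rw [norm_div, div_le_iff₀ h4]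
      exact h1) hz
  have h4 : 0 < ‖E.f z‖ := norm_pos_iff.2 (E.core.fne z hz)
  change ‖deriv E.f z / E.f z‖ ≤ E.V at h
  rw [norm_div, div_le_iff₀ h4] at h
  exact h

theorem V_le_pn : E.V ≤ (2 * E.p * E.n : ℕ) := by
  have h1 := E.hn
  have h2 := E.hV
  have h3 : (1 : ℝ) ≤ E.p := by exact_mod_cast E.one_le_p
  have h4 := E.n_pos
  push_cast
  nlinarith

theorem exists_cor : ∃ w0 h : ℂ → ℂ, Cor E w0 h := by
  obtain ⟨w0, f0, hA⟩ := E.exists_anF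
  have hsw : ∀ z : ℂ, ‖z‖ ≤ 1 → ‖z ^ (2 * E.p * E.n) * f0 z‖ ≤
      Real.exp (-(E.J : ℝ) / 2) * ‖E.f z‖ * ‖z‖ ^ (2 * E.p * E.n) := by
    intro z hz
    have h := Pool.Agent.Helper16.T78.schwarz_weighted (h := f0) (φ := E.f) (R := 1)
      (M := Real.exp (-(E.J : ℝ) / 2)) (m := 2 * E.p * E.n) one_pos hA.anf E.core.anf E.core.fne
      (fun w hw => by
        rw [hA.hf w hw]
        exact E.F_le hw) hz
    rwa [div_one] at h
  have hV0 : 0 ≤ E.V := by linarith [E.hV]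
  have hVn := E.V_le_pn
  obtain ⟨h, h1, h2, h3⟩ := Pool.Agent.Helper16.T78.wprim_iter_all l (f := E.f)
    (g := fun z => z ^ (2 * E.p * E.n) * f0 z) (R := 1) (b := E.V)
    (C := Real.exp (-(E.J : ℝ) / 2)) (x := 1) (n := 2 * E.p * E.n) one_pos hV0
    (fun z hz => (E.core.anf z (mem_closedBall_zero_iff.2 hz)).differentiableAt)
    (fun z hz => E.f_log hz) one_pos (by linarith) (Real.exp_pos _).le
    (fun z hz => (analyticAt_id.pow _).mul (hA.anf z hz)) hsw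
  refine ⟨w0, h, ⟨hA.anw, h1, hA.hw, fun z hz => ?_, fun i hi z hz => ?_⟩⟩
  · rw [h2 z hz]
    exact hA.eq z hz
  · have h4 := h3 i hi z hz
    rwa [one_pow, div_one] at h4

/-- the new function -/
noncomputable def f1 (h : ℂ → ℂ) (z : ℂ) : ℂ := E.fG z + h z

/-- the new coefficient -/
noncomputable def P1 (w0 : ℂ → ℂ) (z : ℂ) : ℂ := E.P z + z ^ (2 * E.p * E.n) * w0 z

end Ev

end Pool.Agent.Helper61.QF
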