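import Pool.Agent.Helper61.QF.Ev16

/-!
# Ev17 (MP_78803a, EVENT): the new function `f1 = f e^G~ + h` and the new coefficient `P1 = P + W Σ`

Proof.
* `h_le`: `Cor.le 0` and `E.le_fG`: `e^(-J/2) e^(20(l+1)M) ≤ e^(-J/4)` (`E.J_ge_lM`).
* `f1_eq`: `iteratedDeriv l (fG + h) = iteratedDeriv l fG + iteratedDeriv l h`
  `= (W + P PP) + (PP z^(2pn) w0 - W) = PP (P + z^(2pn) w0)`; `Ps l v = PP l (lamD v)` by definition.
* `f1_zero`: `G~ 0 = 0`, `h 0 = 0` (`Cor.le 0` at `z = 0`, `2pn ≥ 1`), `E.core.f0`. `P1_zero`: `0^(2pn) = 0`.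
* `f1_der`: `i = 0` trivial; `i ≥ 1`: `E.fG_der` and `Cor.le i`: `≤ (3·2^i i! + 1) (1/s)^i |fG|`, `|fG| ≤ 2 |f1|`,
  `2 (3·2^i i! + 1) ≤ 8·2^i i! ≤ (16 l)^i`.
-/

set_option autoImplicit false

open Polynomial Complex Metric
open Pool.Agent.Helper81.QF Pool.Agent.Helper29.QF
open Pool.Agent.Helper84.Lam (YD lamD LL L1 F3 ps)

namespace Pool.Agent.Helper61.QF.Ev

variable {l : ℕ} (E : Ev l) {w0 h : ℂ → ℂ}

/-- `e^(-J/2) e^(20(l+1)M) ≤ e^(-J/4)` -/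
private theorem exp_half_le {z : ℂ} (hz : ‖z‖ ≤ 1) :
    Real.exp (-(E.J : ℝ) / 2) * ‖E.f z‖ ≤ Real.exp (-(E.J : ℝ) / 4) * ‖E.fG z‖ := by
  have h1 := E.le_fG hz
  have h2 : Real.exp (-(E.J : ℝ) / 2) * Real.exp (20 * (((l : ℝ) + 1) * E.M)) ≤
      Real.exp (-(E.J : ℝ) / 4) := by
    rw [← Real.exp_add]
    refine Real.exp_le_exp.2 ?_
    have := E.J_ge_lM
    have := E.lM_ge
    linarith
  calc Real.exp (-(E.J : ℝ) / 2) * ‖E.f z‖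
      ≤ Real.exp (-(E.J : ℝ) / 2) * (Real.exp (20 * (((l : ℝ) + 1) * E.M)) * ‖E.fG z‖) :=
        mul_le_mul_of_nonneg_left h1 (Real.exp_pos _).le
    _ = Real.exp (-(E.J : ℝ) / 2) * Real.exp (20 * (((l : ℝ) + 1) * E.M)) * ‖E.fG z‖ := by ring
    _ ≤ Real.exp (-(E.J : ℝ) / 4) * ‖E.fG z‖ := mul_le_mul_of_nonneg_right h2 (norm_nonneg _)

theorem h_le (C : Cor E w0 h) {z : ℂ} (hz : ‖z‖ ≤ 1) :
    ‖h z‖ ≤ Real.exp (-(E.J : ℝ) / 4) * ‖E.fG z‖ * ‖z‖ ^ (2 * E.p * E.n) := by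
  have h1 := C.le 0 (Nat.zero_le _) z hz
  rw [iteratedDeriv_zero] at h1
  exact h1.trans (mul_le_mul_of_nonneg_right (E.exp_half_le hz) (by positivity))

theorem exp_J : Real.exp (-(E.J : ℝ) / 4) ≤ 1 / 1000 := by
  have h1 := E.J_ge
  have h2 := Real.add_one_le_exp ((E.J : ℝ) / 4)
  have h3 : Real.exp (-(E.J : ℝ) / 4) = (Real.exp ((E.J : ℝ) / 4))⁻¹ := by
    rw [← Real.exp_neg]
    ring_nf
  rw [h3, one_div]
  exact inv_anti₀ (by norm_num) (by linarith)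

private theorem h_small (C : Cor E w0 h) {z : ℂ} (hz : ‖z‖ ≤ 1) :
    ‖h z‖ ≤ 1 / 1000 * ‖E.fG z‖ := by
  refine (E.h_le C hz).trans ?_
  have h1 := E.exp_J
  have h2 : ‖z‖ ^ (2 * E.p * E.n) ≤ 1 := pow_le_one₀ (norm_nonneg _) hz
  calc Real.exp (-(E.J : ℝ) / 4) * ‖E.fG z‖ * ‖z‖ ^ (2 * E.p * E.n)
      ≤ Real.exp (-(E.J : ℝ) / 4) * ‖E.fG z‖ * 1 :=
        mul_le_mul_of_nonneg_left h2 (mul_nonneg (Real.exp_pos _).le (norm_nonneg _))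
    _ ≤ 1 / 1000 * ‖E.fG z‖ := by
        rw [mul_one]
        exact mul_le_mul_of_nonneg_right h1 (norm_nonneg _)

theorem f1_near (C : Cor E w0 h) {z : ℂ} (hz : ‖z‖ ≤ 1) :
    ‖E.f1 h z - E.fG z‖ ≤ 1 / 1000 * ‖E.fG z‖ := by
  have e : E.f1 h z - E.fG z = h z := by
    unfold f1
    ring
  rw [e]
  exact E.h_small C hz

theorem fG_le_f1 (C : Cor E w0 h) {z : ℂ} (hz : ‖z‖ ≤ 1) : ‖E.fG z‖ ≤ 1.01 * ‖E.f1 h z‖ := by
  have h1 := E.f1_near C hz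
  have h2 : ‖E.fG z‖ ≤ ‖E.f1 h z‖ + ‖E.f1 h z - E.fG z‖ := by
    calc ‖E.fG z‖ = ‖E.f1 h z - (E.f1 h z - E.fG z)‖ := by
          congr 1
          ring
      _ ≤ _ := norm_sub_le _ _
  have h3 := norm_nonneg (E.f1 h z)
  have h4 := norm_nonneg (E.fG z)
  linarith

theorem f1_ne (C : Cor E w0 h) {z : ℂ} (hz : ‖z‖ ≤ 1) : E.f1 h z ≠ 0 := by
  intro h0
  have h1 := E.fG_le_f1 C hz
  rw [h0, norm_zero, mul_zero] at h1
  exact E.fG_ne hz (norm_le_zero_iff.1 h1)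

theorem f1_an (C : Cor E w0 h) : AnalyticOnNhd ℂ (E.f1 h) (closedBall 0 1) := by
  intro z hz
  have hz' : ‖z‖ ≤ 1 := by simpa using hz
  exact (E.fG_an hz').add (C.anh z hz)

theorem P1_an (C : Cor E w0 h) : AnalyticOnNhd ℂ (E.P1 w0) (closedBall 0 1) := by
  intro z hz
  exact (E.core.anP z hz).add ((analyticAt_id.pow _).mul (C.anw z hz))

private theorem iter_f1 (C : Cor E w0 h) {z : ℂ} (hz : ‖z‖ ≤ 1) (i : ℕ) :
    iteratedDeriv i (E.f1 h) z = iteratedDeriv i E.fG z + iteratedDeriv i h z := by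
  have hz' : z ∈ closedBall (0 : ℂ) 1 := by simpa using hz
  have h1 : ContDiffAt ℂ i E.fG z := (E.fG_an hz).contDiffAt
  have h2 : ContDiffAt ℂ i h z := (C.anh z hz').contDiffAt
  have h3 := iteratedDeriv_add h1 h2
  exact h3

theorem f1_eq (C : Cor E w0 h) {z : ℂ} (hz : ‖z‖ ≤ 1) :
    iteratedDeriv l (E.f1 h) z = E.P1 w0 z * Ps l (E.Bp z) := by
  rw [E.iter_f1 C hz, C.eq z hz]
  have hPs : Ps l (E.Bp z) = PP l (lamD (E.Bp z)) := rfl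
  rw [hPs]
  unfold P1 W
  ring

theorem f1_zero (C : Cor E w0 h) : E.f1 h 0 = 1 := by
  have h1 : h 0 = 0 := by
    have h2 := E.h_le C (z := 0) (by simp)
    have h3 : 2 * E.p * E.n ≠ 0 := by
      have := E.one_le_p
      have := E.one_le_n
      positivity
    rw [norm_zero, zero_pow h3, mul_zero] at h2
    exact norm_le_zero_iff.1 h2
  unfold f1 fG
  rw [h1, E.Gt_zero, E.core.f0]
  simp

theorem P1_zero : E.P1 w0 0 = Pst l := by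
  have h3 : 2 * E.p * E.n ≠ 0 := by
    have := E.one_le_p
    have := E.one_le_n
    positivity
  unfold P1
  rw [zero_pow h3, zero_mul, add_zero, E.core.P0]

theorem f1_der (C : Cor E w0 h) {ζ : ℂ} (hζ : ‖ζ‖ = 1) {i : ℕ} (hi : i ≤ l) :
    ‖iteratedDeriv i (E.f1 h) ζ‖ ≤ (16 * l / E.s) ^ i * ‖E.f1 h ζ‖ := by
  rcases Nat.eq_zero_or_pos i with h0 | hi0
  · subst h0
    rw [iteratedDeriv_zero, pow_zero, one_mul]
  rw [E.iter_f1 C hζ.le]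
  have h1 := E.fG_der hζ hi
  have h2 := C.le i hi ζ hζ.le
  rw [hζ, one_pow, mul_one] at h2
  have h3 := E.exp_half_le hζ.le
  have h4 := E.exp_J
  have h5 := E.fG_le_f1 C hζ.le
  have hs1 := E.one_le_s
  have hsi : 1 ≤ (1 / E.s) ^ i := one_le_pow₀ hs1
  have hf := norm_nonneg (E.fG ζ)
  have hf1 := norm_nonneg (E.f1 h ζ)
  have h6 : ‖iteratedDeriv i h ζ‖ ≤ (1 / E.s) ^ i * ‖E.fG ζ‖ := by
    refine h2.trans (h3.trans ?_)
    refine mul_le_mul_of_nonneg_right ?_ hf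
    linarith
  have hfac : (1 : ℝ) ≤ 2 ^ i * i.factorial := by
    have h7 : (1 : ℝ) ≤ 2 ^ i := one_le_pow₀ (by norm_num)
    have h8 : (1 : ℝ) ≤ i.factorial := by exact_mod_cast Nat.one_le_iff_ne_zero.2 (Nat.factorial_ne_zero i)
    nlinarith
  have hpow : 8 * (2 ^ i * (i.factorial : ℝ)) ≤ (16 * (l : ℝ)) ^ i := by
    have h7 : (i.factorial : ℝ) ≤ (l : ℝ) ^ i := by
      have h8 : i.factorial ≤ i ^ i := Nat.factorial_le_pow i
      have h9 : i ^ i ≤ l ^ i := Nat.pow_le_pow_left hi i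
      exact_mod_cast h8.trans h9
    have h8 : (8 : ℝ) ≤ 8 ^ i := by
      calc (8 : ℝ) = 8 ^ 1 := by norm_num
        _ ≤ 8 ^ i := pow_le_pow_right₀ (by norm_num) hi0
    have e : (16 * (l : ℝ)) ^ i = 8 ^ i * (2 ^ i * (l : ℝ) ^ i) := by
      rw [← mul_pow, ← mul_pow]
      congr 1
      ring
    rw [e]
    refine mul_le_mul h8 (mul_le_mul_of_nonneg_left h7 (by positivity)) (by positivity)
      (by positivity)
  calc ‖iteratedDeriv i E.fG ζ + iteratedDeriv i h ζ‖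
      ≤ ‖iteratedDeriv i E.fG ζ‖ + ‖iteratedDeriv i h ζ‖ := norm_add_le _ _
    _ ≤ 3 * (2 ^ i * i.factorial * (1 / E.s) ^ i) * ‖E.fG ζ‖ + (1 / E.s) ^ i * ‖E.fG ζ‖ :=
        add_le_add h1 h6
    _ = (3 * (2 ^ i * (i.factorial : ℝ)) + 1) * (1 / E.s) ^ i * ‖E.fG ζ‖ := by ring
    _ ≤ (3 * (2 ^ i * (i.factorial : ℝ)) + 1) * (1 / E.s) ^ i * (1.01 * ‖E.f1 h ζ‖) :=
        mul_le_mul_of_nonneg_left h5 (by positivity)
    _ = ((3 * (2 ^ i * (i.factorial : ℝ)) + 1) * 1.01) * ((1 / E.s) ^ i * ‖E.f1 h ζ‖) := by ring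
    _ ≤ (16 * (l : ℝ)) ^ i * ((1 / E.s) ^ i * ‖E.f1 h ζ‖) := by
        refine mul_le_mul_of_nonneg_right ?_ (by positivity)
        linarith
    _ = (16 * l / E.s) ^ i * ‖E.f1 h ζ‖ := by
        rw [← mul_assoc, ← mul_pow]
        congr 2
        ring

end Pool.Agent.Helper61.QF.Ev
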