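import Pool.Agent.Helper61.QF.Ev17

/-!
# Ev18 (MP_78803a, EVENT): the inequality `V` for the new state

Proof.
* active: `|P1| |PP| = |f1^(l)| ≤ (16 l/s)^l |f1|` (`f1_eq`, `f1_der`), and `ee l (B₊) ≤ 4·4^l |PP|` by `le_norm_PP`
  with the type of `E.active_type` (`ee = |1-λ| hD^l`); `4·4^l ≤ 16^l`.
* inactive: `P1 = P + W Σ` (`Cor.hw`). `ee_inact`: `|λ'| ≤ |λ| e^t`, `|1-λ'| ≤ |1-λ| e^t`, `t = 2000 M e^(-p)`
  (`E.D2_bound`, `E.L1_bound`, `E.norm_g`, `E.β_tail`), so `ee' ≤ e^((l+1)t) ee ≤ 2 ee` (`E.exp_pM`).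
  `|P| ee' ≤ 2 V^l |f|` (`E.hP`); `ee' ≤ e^(7M) (2 + 2 e^(7M))^l ≤ e^(10 (l+1) M)`, so `|W Σ| ee' ≤ |f|`
  (`E.Wsig_inact`, `p ≥ 10^9 (l+1) M`); `|f| ≤ 1.2 |fG| ≤ 2 |f1|` (`E.Gt_small` at `ζ`, `E.norm_fG`). Sum
  `≤ (2 V^l + 1) 2 |f1| ≤ 6 (1/s)^l |f1|`.
-/

set_option autoImplicit false

open Polynomial Complex Metric
open Pool.Agent.Helper81.QF Pool.Agent.Helper29.QF
open Pool.Agent.Helper84.Lam (YD lamD LL L1 F3 ps)

namespace Pool.Agent.Helper61.QF.Ev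

variable {l : ℕ} (E : Ev l) {w0 h : ℂ → ℂ}

theorem ee_active {ζ : ℂ} (hζ : ‖ζ‖ = 1) (ha : ¬ E.Inact ζ) :
    ee l (E.Bp ζ) ≤ 4 * 4 ^ l * ‖PP l (lamD (E.Bp ζ))‖ := by
  obtain ⟨τ, -, -, -, hx⟩ := E.active_type hζ ha
  have h2l : (1 : ℝ) ≤ 2 ^ l := one_le_pow₀ (by norm_num)
  have h4 : (1 : ℝ) / (4 * 2 ^ l) ≤ 1 / 4 :=
    div_le_div_of_nonneg_left (by norm_num) (by norm_num) (by linarith)
  refine le_norm_PP l ?_
  unfold xt at hx
  split_ifs at hx with h0 h1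
  · right
    left
    refine hx.trans ?_
    exact div_le_div_of_nonneg_left (by norm_num) (by positivity) (by nlinarith)
  · left
    exact hx.trans h4
  · right
    right
    have h5 : ‖lamD (E.Bp ζ)‖⁻¹ ≤ 1 / 4 := hx.trans h4
    have h6 : 0 < ‖lamD (E.Bp ζ)‖ := by
      rw [norm_pos_iff, ← Pool.Agent.Helper84.Lam.exp_LL (E.Bp_lt hζ.le)]
      exact Complex.exp_ne_zero _
    rw [inv_le_comm₀ h6 (by norm_num)] at h5
    norm_num at h5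
    exact h5

private theorem norm_mul_exp {a b x y : ℂ} (ha : cexp a = x) (hb : cexp b = y) {t : ℝ}
    (h : ‖b - a‖ ≤ t) : ‖y‖ ≤ Real.exp t * ‖x‖ := by
  have e : y = cexp (b - a) * x := by
    rw [← ha, ← hb, ← Complex.exp_add]
    congr 1
    ring
  rw [e, norm_mul]
  refine mul_le_mul_of_nonneg_right ?_ (norm_nonneg _)
  rw [Complex.norm_exp]
  exact Real.exp_le_exp.2 ((Complex.re_le_norm _).trans h)

theorem ee_inact {ζ : ℂ} (hζ : ‖ζ‖ = 1) (hi : E.Inact ζ) : ee l (E.Bp ζ) ≤ 2 * ee l (E.B ζ) := by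
  have hg : ‖E.g.eval ζ‖ ≤ Real.exp (-E.p) := by
    rw [E.norm_g hζ]
    exact E.β_tail hζ hi
  have hg' : ‖E.g.eval ζ‖ ≤ 1 / 400 := hg.trans (E.exp_p_le.trans (by norm_num))
  have hM := E.M_ge
  set t : ℝ := 2000 * E.M * Real.exp (-E.p) with ht
  have ht0 : 0 ≤ t := by
    rw [ht]
    have := Real.exp_pos (-(E.p : ℝ))
    have : 0 ≤ 2000 * E.M := by linarith
    positivity
  have hDD : ‖LL (E.Bp ζ) - LL (E.B ζ)‖ ≤ t :=
    (E.D2_bound hζ.le hg').trans (mul_le_mul_of_nonneg_left hg (by linarith))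
  have hL : ‖L1 (E.Bp ζ) - L1 (E.B ζ)‖ ≤ t :=
    (E.L1_bound hζ.le hg').trans (mul_le_mul_of_nonneg_left hg (by linarith))
  have h1 := norm_mul_exp (Pool.Agent.Helper84.Lam.exp_LL (E.B_lt hζ.le))
    (Pool.Agent.Helper84.Lam.exp_LL (E.Bp_lt hζ.le)) hDD
  have h2 := norm_mul_exp (Pool.Agent.Helper84.Lam.exp_L1 (E.B_lt hζ.le))
    (Pool.Agent.Helper84.Lam.exp_L1 (E.Bp_lt hζ.le)) hL
  have het : 1 ≤ Real.exp t := Real.one_le_exp ht0
  have hh : hD (E.Bp ζ) ≤ Real.exp t * hD (E.B ζ) := by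
    unfold hD
    linarith
  have hh0 : 0 ≤ hD (E.Bp ζ) := by
    unfold hD
    positivity
  have hB0 : 0 ≤ hD (E.B ζ) := by
    unfold hD
    positivity
  have h3 : ee l (E.Bp ζ) ≤ (Real.exp t * ‖1 - lamD (E.B ζ)‖) * (Real.exp t * hD (E.B ζ)) ^ l := by
    unfold ee
    exact mul_le_mul h2 (pow_le_pow_left₀ hh0 hh l) (pow_nonneg hh0 _)
      (mul_nonneg (Real.exp_pos _).le (norm_nonneg _))
  have h4 : (Real.exp t * ‖1 - lamD (E.B ζ)‖) * (Real.exp t * hD (E.B ζ)) ^ l =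
      Real.exp (((l : ℝ) + 1) * t) * ee l (E.B ζ) := by
    unfold ee
    rw [mul_pow, ← Real.exp_nat_mul]
    have : Real.exp (((l : ℝ) + 1) * t) = Real.exp t * Real.exp (l * t) := by
      rw [← Real.exp_add]
      congr 1
      ring
    rw [this]
    ring
  rw [h4] at h3
  refine h3.trans (mul_le_mul_of_nonneg_right ?_ ?_)
  · have h5 : ((l : ℝ) + 1) * t ≤ 1 / 10 ^ 8 := by
      have := E.exp_pM
      rw [ht]
      nlinarith
    have h6 : Real.exp (((l : ℝ) + 1) * t) ≤ Real.exp (1 / 10 ^ 8) := Real.exp_le_exp.2 h5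
    refine h6.trans ?_
    have h7 := Real.exp_one_lt_d9
    have h8 : Real.exp (1 / 10 ^ 8) ^ 2 ≤ Real.exp 1 := by
      rw [← Real.exp_nat_mul]
      exact Real.exp_le_exp.2 (by norm_num)
    have h9 := Real.exp_pos (1 / 10 ^ 8)
    nlinarith
  · unfold ee
    exact mul_nonneg (norm_nonneg _) (pow_nonneg hB0 _)

theorem ee_le {z : ℂ} (hz : ‖z‖ ≤ 1) : ee l (E.Bp z) ≤ Real.exp (10 * (((l : ℝ) + 1) * E.M)) := by
  obtain ⟨-, h2, -, h4⟩ := E.lamp_in hz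
  have hM := E.M_ge
  have he : 1 ≤ Real.exp (7 * E.M) := Real.one_le_exp (by linarith)
  have h5 : hD (E.Bp z) ≤ Real.exp (10 * E.M) := by
    unfold hD
    have e : Real.exp (10 * E.M) = Real.exp (3 * E.M) * Real.exp (7 * E.M) := by
      rw [← Real.exp_add]
      congr 1
      ring
    have h6 : 3 ≤ Real.exp (3 * E.M) := by
      have := Real.add_one_le_exp (3 * E.M)
      linarith
    rw [e]
    nlinarith
  have h0 : 0 ≤ hD (E.Bp z) := by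
    unfold hD
    positivity
  unfold ee
  calc ‖1 - lamD (E.Bp z)‖ * hD (E.Bp z) ^ l ≤ Real.exp (10 * E.M) * Real.exp (10 * E.M) ^ l :=
        mul_le_mul (h4.trans (Real.exp_le_exp.2 (by linarith))) (pow_le_pow_left₀ h0 h5 l)
          (pow_nonneg h0 _) (Real.exp_pos _).le
    _ = Real.exp (10 * (((l : ℝ) + 1) * E.M)) := by
        rw [← Real.exp_nat_mul, ← Real.exp_add]
        congr 1
        ring

theorem V_new (C : Cor E w0 h) {ζ : ℂ} (hζ : ‖ζ‖ = 1) :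
    ‖E.P1 w0 ζ‖ * ee l (E.Bp ζ) ≤ (256 * l / E.s) ^ l * ‖E.f1 h ζ‖ := by
  have hl := E.hl
  have hl1 := E.l1
  have hs0 := E.hs0
  have hf1 := norm_nonneg (E.f1 h ζ)
  by_cases hi : E.Inact ζ
  · -- inactive
    have e1 : E.P1 w0 ζ = E.P ζ + E.W ζ * E.sig ζ := by
      unfold P1
      rw [C.hw ζ hζ]
    have h1 := E.ee_inact hζ hi
    have h2 := E.hP ζ hζ
    have h3 := E.Wsig_inact hζ hi
    have h4 := E.ee_le (z := ζ) hζ.le
    have hee0 : 0 ≤ ee l (E.Bp ζ) := by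
      unfold ee hD
      positivity
    have hfn := norm_nonneg (E.f ζ)
    have h5 : ‖E.W ζ * E.sig ζ‖ * ee l (E.Bp ζ) ≤ ‖E.f ζ‖ := by
      calc ‖E.W ζ * E.sig ζ‖ * ee l (E.Bp ζ)
          ≤ (Real.exp (-(E.p : ℝ) / 2) * ‖E.f ζ‖) * Real.exp (10 * (((l : ℝ) + 1) * E.M)) :=
            mul_le_mul h3 h4 hee0 (mul_nonneg (Real.exp_pos _).le hfn)
        _ = Real.exp (-(E.p : ℝ) / 2 + 10 * (((l : ℝ) + 1) * E.M)) * ‖E.f ζ‖ := by
            rw [Real.exp_add]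
            ring
        _ ≤ 1 * ‖E.f ζ‖ := by
            refine mul_le_mul_of_nonneg_right ?_ hfn
            rw [Real.exp_le_one_iff]
            have := E.p_ge_lM
            have := E.lM_ge
            linarith
        _ = ‖E.f ζ‖ := one_mul _
    have h6 : ‖E.P ζ‖ * ee l (E.Bp ζ) ≤ 2 * (E.V ^ l * ‖E.f ζ‖) := by
      calc ‖E.P ζ‖ * ee l (E.Bp ζ) ≤ ‖E.P ζ‖ * (2 * ee l (E.B ζ)) :=
            mul_le_mul_of_nonneg_left h1 (norm_nonneg _)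
        _ = 2 * (‖E.P ζ‖ * ee l (E.B ζ)) := by ring
        _ ≤ 2 * (E.V ^ l * ‖E.f ζ‖) := by linarith
    have h7 : ‖E.f ζ‖ ≤ 1.2 * ‖E.f1 h ζ‖ := by
      have h8 := E.Gt_small hζ hi (z := ζ) (by simpa using hs0.le)
      have h9 := E.exp_pM
      have h10 : ‖E.Gt ζ‖ ≤ 1 / 10 ^ 5 := by
        refine h8.trans ?_
        nlinarith
      have h11 : -(1 / 10 ^ 5) ≤ (E.Gt ζ).re := by
        have := neg_abs_le (E.Gt ζ).re
        have := Complex.abs_re_le_norm (E.Gt ζ)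
        linarith
      have h12 : 1 - 1 / 10 ^ 5 ≤ Real.exp (E.Gt ζ).re := by
        have := Real.add_one_le_exp (E.Gt ζ).re
        linarith
      have h13 := E.norm_fG ζ
      have h14 := E.fG_le_f1 C hζ.le
      have h15 : ‖E.f ζ‖ * (1 - 1 / 10 ^ 5) ≤ ‖E.fG ζ‖ := by
        rw [h13]
        exact mul_le_mul_of_nonneg_left h12 hfn
      norm_num at h15 ⊢
      linarith
    have hVs : E.V ^ l ≤ (1 / E.s) ^ l := pow_le_pow_left₀ (by linarith [E.hV]) E.V_le_s l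
    have hs1 : 1 ≤ (1 / E.s) ^ l := one_le_pow₀ E.one_le_s
    have h16 : (256 * (l : ℝ) / E.s) ^ l = (256 * (l : ℝ)) ^ l * (1 / E.s) ^ l := by
      rw [← mul_pow]
      congr 1
      ring
    have h17 : (256 : ℝ) ≤ (256 * (l : ℝ)) ^ l := by
      calc (256 : ℝ) ≤ 256 * (l : ℝ) := by linarith
        _ = (256 * (l : ℝ)) ^ 1 := (pow_one _).symm
        _ ≤ (256 * (l : ℝ)) ^ l := pow_le_pow_right₀ (by linarith) hl
    rw [e1, h16]
    calc ‖E.P ζ + E.W ζ * E.sig ζ‖ * ee l (E.Bp ζ)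
        ≤ (‖E.P ζ‖ + ‖E.W ζ * E.sig ζ‖) * ee l (E.Bp ζ) :=
          mul_le_mul_of_nonneg_right (norm_add_le _ _) hee0
      _ = ‖E.P ζ‖ * ee l (E.Bp ζ) + ‖E.W ζ * E.sig ζ‖ * ee l (E.Bp ζ) := by ring
      _ ≤ 2 * (E.V ^ l * ‖E.f ζ‖) + ‖E.f ζ‖ := add_le_add h6 h5
      _ ≤ 2 * ((1 / E.s) ^ l * ‖E.f ζ‖) + (1 / E.s) ^ l * ‖E.f ζ‖ := by
          have := mul_le_mul_of_nonneg_right hVs hfn
          have := mul_le_mul_of_nonneg_right hs1 hfn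
          linarith
      _ = 3 * ((1 / E.s) ^ l * ‖E.f ζ‖) := by ring
      _ ≤ 3 * ((1 / E.s) ^ l * (1.2 * ‖E.f1 h ζ‖)) := by
          have : (0 : ℝ) ≤ (1 / E.s) ^ l := by linarith
          have := mul_le_mul_of_nonneg_left h7 this
          linarith
      _ = 3.6 * ((1 / E.s) ^ l * ‖E.f1 h ζ‖) := by ring
      _ ≤ (256 * (l : ℝ)) ^ l * ((1 / E.s) ^ l * ‖E.f1 h ζ‖) := by
          refine mul_le_mul_of_nonneg_right (by linarith) (mul_nonneg (by linarith) hf1)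
      _ = (256 * (l : ℝ)) ^ l * (1 / E.s) ^ l * ‖E.f1 h ζ‖ := by ring
  · -- active
    have h1 := E.ee_active hζ hi
    have h2 := E.f1_eq C (z := ζ) hζ.le
    have h3 := E.f1_der C hζ (le_refl l)
    have hPs : Ps l (E.Bp ζ) = PP l (lamD (E.Bp ζ)) := rfl
    rw [h2, hPs, norm_mul] at h3
    have h4 : (4 : ℝ) * 4 ^ l ≤ 16 ^ l := by
      have h5 : (4 : ℝ) ≤ 4 ^ l := by
        calc (4 : ℝ) = 4 ^ 1 := (pow_one _).symm
          _ ≤ 4 ^ l := pow_le_pow_right₀ (by norm_num) hl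
      have e : (16 : ℝ) ^ l = 4 ^ l * 4 ^ l := by
        rw [← mul_pow]
        norm_num
      rw [e]
      exact mul_le_mul_of_nonneg_right h5 (by positivity)
    have h6 : (0 : ℝ) ≤ (16 * l / E.s) ^ l * ‖E.f1 h ζ‖ := by positivity
    calc ‖E.P1 w0 ζ‖ * ee l (E.Bp ζ)
        ≤ ‖E.P1 w0 ζ‖ * (4 * 4 ^ l * ‖PP l (lamD (E.Bp ζ))‖) :=
          mul_le_mul_of_nonneg_left h1 (norm_nonneg _)
      _ = 4 * 4 ^ l * (‖E.P1 w0 ζ‖ * ‖PP l (lamD (E.Bp ζ))‖) := by ring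
      _ ≤ 4 * 4 ^ l * ((16 * l / E.s) ^ l * ‖E.f1 h ζ‖) :=
          mul_le_mul_of_nonneg_left h3 (by positivity)
      _ ≤ 16 ^ l * ((16 * l / E.s) ^ l * ‖E.f1 h ζ‖) := mul_le_mul_of_nonneg_right h4 h6
      _ = (256 * l / E.s) ^ l * ‖E.f1 h ζ‖ := by
          rw [← mul_assoc, ← mul_pow]
          congr 2
          ring

end Pool.Agent.Helper61.QF.Ev
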