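import Pool.Agent.Helper61.QF.Ev17

/-!
# Ev19 (MP_78803a, EVENT): `log |f1|` and `xi`

Proof. `log_f1`: `|log |f1| - log |fG|| ≤ 1/100` (`f1_near`), `log |fG| = log |f| + Re G~` (`norm_fG`).
* `flog_new`: `E.reGt`.
* `xi_new`: `xi l bp dp f1 = log |f1| + log |jj₊|`, `Re G = log |jj| - log |jj₊|` (`E.re_G`), `E.Gt_close`.
-/

set_option autoImplicit false

open Polynomial Complex Metric
open Pool.Agent.Helper81.QF Pool.Agent.Helper29.QF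
open Pool.Agent.Helper84.Lam (YD lamD LL L1 F3 ps)

namespace Pool.Agent.Helper61.QF.Ev

variable {l : ℕ} (E : Ev l) {w0 h : ℂ → ℂ}

theorem log_f1 (C : Cor E w0 h) {ζ : ℂ} (hζ : ‖ζ‖ = 1) :
    |Real.log ‖E.f1 h ζ‖ - (Real.log ‖E.f ζ‖ + (E.Gt ζ).re)| ≤ 1 / 100 := by
  have hg : 0 < ‖E.fG ζ‖ := norm_pos_iff.2 (E.fG_ne hζ.le)
  have ha : 0 < ‖E.f1 h ζ‖ := norm_pos_iff.2 (E.f1_ne C hζ.le)
  have hf : 0 < ‖E.f ζ‖ := norm_pos_iff.2 (E.core.fne ζ hζ.le)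
  have e1 : Real.log ‖E.f ζ‖ + (E.Gt ζ).re = Real.log ‖E.fG ζ‖ := by
    rw [E.norm_fG, Real.log_mul hf.ne' (Real.exp_pos _).ne', Real.log_exp]
  have h1 := E.f1_near C hζ.le
  have h2 := abs_norm_sub_norm_le (E.f1 h ζ) (E.fG ζ)
  have h3 := abs_le.1 (h2.trans h1)
  have e2 : Real.log ‖E.f1 h ζ‖ - Real.log ‖E.fG ζ‖ = Real.log (‖E.f1 h ζ‖ / ‖E.fG ζ‖) :=
    (Real.log_div ha.ne' hg.ne').symm
  have hq : 0 < ‖E.f1 h ζ‖ / ‖E.fG ζ‖ := div_pos ha hg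
  have h4 : ‖E.f1 h ζ‖ / ‖E.fG ζ‖ ≤ 1001 / 1000 := by
    rw [div_le_iff₀ hg]
    linarith [h3.2]
  have h5 : (‖E.f1 h ζ‖ / ‖E.fG ζ‖)⁻¹ ≤ 1000 / 999 := by
    rw [inv_div, div_le_iff₀ ha]
    linarith [h3.1]
  have h6 := Real.log_le_sub_one_of_pos hq
  have h7 := Real.one_sub_inv_le_log_of_pos hq
  rw [e1, e2, abs_le]
  constructor <;> linarith

theorem flog_new (C : Cor E w0 h) {ζ : ℂ} (hζ : ‖ζ‖ = 1) :
    |Real.log ‖E.f1 h ζ‖ - Real.log ‖E.f ζ‖| ≤ 20 * (((l : ℝ) + 1) * E.M) + 1 := by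
  have h1 := abs_le.1 (E.log_f1 C hζ)
  have h2 := abs_le.1 (E.reGt (z := ζ) (by rw [hζ]; linarith [E.hs0]))
  rw [abs_le]
  constructor <;> linarith [h1.1, h1.2, h2.1, h2.2]

theorem xi_new (C : Cor E w0 h) {ζ : ℂ} (hζ : ‖ζ‖ = 1) :
    |xi l E.bp E.dp (E.f1 h) ζ - xi l E.b E.d E.f ζ| ≤ 1 := by
  have ha : 0 < ‖E.f1 h ζ‖ := norm_pos_iff.2 (E.f1_ne C hζ.le)
  have hf : 0 < ‖E.f ζ‖ := norm_pos_iff.2 (E.core.fne ζ hζ.le)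
  have hj : 0 < ‖jj l E.b E.d ζ‖ := norm_pos_iff.2 (jj_ne E.pair l hζ.le)
  have hj' : 0 < ‖jj l E.bp E.dp ζ‖ := norm_pos_iff.2 (jj_ne E.pair' l hζ.le)
  have e1 : xi l E.bp E.dp (E.f1 h) ζ = Real.log ‖E.f1 h ζ‖ + Real.log ‖jj l E.bp E.dp ζ‖ := by
    unfold xi
    rw [norm_mul, Real.log_mul ha.ne' hj'.ne']
  have e2 : xi l E.b E.d E.f ζ = Real.log ‖E.f ζ‖ + Real.log ‖jj l E.b E.d ζ‖ := by
    unfold xi
    rw [norm_mul, Real.log_mul hf.ne' hj.ne']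
  have h1 := abs_le.1 (E.log_f1 C hζ)
  have h2 := abs_le.1 ((Complex.abs_re_le_norm (E.Gt ζ - E.G ζ)).trans (E.Gt_close hζ))
  have h3 := E.re_G hζ.le
  rw [Complex.sub_re] at h2
  rw [e1, e2, abs_le]
  constructor <;> linarith [h1.1, h1.2, h2.1, h2.2, h3]

end Pool.Agent.Helper61.QF.Ev
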