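import Pool.Agent.Helper61.QF.EvDefs

/-!
# Ev2 (MP_78803a, EVENT): measurability of the cut-offs, the Szegő coefficient `g`, the new pair

Proof.
* Measurability: `fun z => YD (E.B z)` is continuous on `closedBall 0 1` (`Helper84.PD.cont_comp` with
  `continuousOn_YD`), and so are `‖lamD (B z)‖`, `‖1 - lamD (B z)‖`; so the sets are relatively closed or open in
  the closed set `sphere 0 1`, hence measurable (e.g. replace `YD (E.B z)` by
  `(closedBall 0 1).piecewise .. 0`, which is measurable).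
* `v_le`: on `A` we have `Y ≤ R`. `β`: `cf_nonneg`, `cf_le`.
* `norm_g`: `chi_circle`, `|z| = 1`. `g_le`: maximum principle (`Pool.Agent.Helper58.LD.norm_le_of_circle`, used in
  `Helper29/QF/JJ.lean`). `g_natDegree`: `chi_natDegree`, `E.kd_lt`. `pair'`: `Pair.step`.
-/

set_option autoImplicit false

open Polynomial Complex Metric
open Pool.Agent.Helper81.QF Pool.Agent.Helper29.QF
open Pool.Agent.Helper84.Lam (YD lamD LL L1 F3 ps)

namespace Pool.Agent.Helper61.QF.Ev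

variable {l : ℕ} (E : Ev l)

lemma meas_of_cont {u : ℂ → ℝ} (hu : ContinuousOn u (sphere 0 1)) :
    Measurable (fun z : ℂ => if ‖z‖ = 1 then u z else 0) := by
  classical
  have h := hu.measurable_piecewise (g := fun _ => (0 : ℝ)) continuousOn_const
    (isClosed_sphere.measurableSet)
  have e : (sphere (0 : ℂ) 1).piecewise u (fun _ => (0 : ℝ)) =
      fun z : ℂ => if ‖z‖ = 1 then u z else 0 := by
    funext z
    unfold Set.piecewise
    simp only [mem_sphere_zero_iff_norm]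
  rwa [e] at h

lemma contY : ContinuousOn (fun z => YD (E.B z)) (sphere 0 1) :=
  (Pool.Agent.Helper84.PD.cont_comp E.pair Pool.Agent.Helper84.PD.continuousOn_YD).mono
    sphere_subset_closedBall

lemma contX (τ : Fin 3) : ContinuousOn (fun z => xt τ (E.B z)) (sphere 0 1) := by
  have h1 : ContinuousOn (fun z => ‖1 - lamD (E.B z)‖) (sphere 0 1) :=
    (Pool.Agent.Helper84.PD.cont_comp E.pair
      (continuousOn_const.sub Pool.Agent.Helper84.PD.continuousOn_lamD).norm).mono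
      sphere_subset_closedBall
  have h2 : ContinuousOn (fun z => ‖lamD (E.B z)‖) (sphere 0 1) :=
    (Pool.Agent.Helper84.PD.cont_comp E.pair
      Pool.Agent.Helper84.PD.continuousOn_lamD.norm).mono sphere_subset_closedBall
  have h3 : ContinuousOn (fun z => ‖lamD (E.B z)‖⁻¹) (sphere 0 1) :=
    h2.inv₀ fun z hz => by
      have hz' : ‖z‖ = 1 := by simpa using hz
      exact norm_ne_zero_iff.2 (Pool.Agent.Helper84.Lam.lamD_ne_zero (Bq_lt E.pair hz'.le))
  unfold xt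
  by_cases c0 : τ = 0
  · simp only [c0, if_true]
    exact h1
  · by_cases c1 : τ = 1
    · simp only [c1, if_true]
      exact h2
    · simp only [c0, c1, if_false]
      exact h3

/-- the height, extended by `0` outside the circle -/
noncomputable def Yt (z : ℂ) : ℝ := if ‖z‖ = 1 then YD (E.B z) else 0

/-- `x_τ`, extended by `0` outside the circle -/
noncomputable def Xt (τ : Fin 3) (z : ℂ) : ℝ := if ‖z‖ = 1 then xt τ (E.B z) else 0

lemma meas_Yt : Measurable E.Yt := meas_of_cont E.contY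

lemma meas_Xt (τ : Fin 3) : Measurable (E.Xt τ) := meas_of_cont (E.contX τ)

lemma Yt_eq {z : ℂ} (hz : ‖z‖ = 1) : E.Yt z = YD (E.B z) := by
  unfold Yt
  rw [if_pos hz]

lemma Xt_eq (τ : Fin 3) {z : ℂ} (hz : ‖z‖ = 1) : E.Xt τ z = xt τ (E.B z) := by
  unfold Xt
  rw [if_pos hz]

lemma meas_circ : MeasurableSet {z : ℂ | ‖z‖ = 1} :=
  measurableSet_eq_fun measurable_norm measurable_const

theorem meas_v : Measurable E.v := by
  classical
  have e : E.v = fun z : ℂ => if (‖z‖ = 1 ∧ E.C₁ ≤ E.Yt z ∧ E.Yt z ≤ E.R) then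
      1 - E.c₁ / E.Yt z else 0 := by
    funext z
    unfold v A
    by_cases hz : ‖z‖ = 1
    · rw [E.Yt_eq hz]
      simp only [Set.mem_ofPred_eq]
      congr
    · have h1 : ¬ z ∈ {z : ℂ | ‖z‖ = 1 ∧ E.C₁ ≤ YD (E.B z) ∧ YD (E.B z) ≤ E.R} :=
        fun h => hz h.1
      have h2 : ¬ (‖z‖ = 1 ∧ E.C₁ ≤ E.Yt z ∧ E.Yt z ≤ E.R) := fun h => hz h.1
      rw [if_neg h1, if_neg h2]
  rw [e]
  refine Measurable.ite ?_ ?_ measurable_const
  · exact meas_circ.inter ((measurableSet_le measurable_const E.meas_Yt).inter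
      (measurableSet_le E.meas_Yt measurable_const))
  · exact measurable_const.sub (measurable_const.div E.meas_Yt)

theorem meas_vt (τ : Fin 3) : Measurable (E.vt τ) := by
  classical
  have e : E.vt τ = fun z : ℂ => if (‖z‖ = 1 ∧ E.C₁ / 4 ≤ E.Yt z ∧ E.Xt τ z ≤ 1 / 10) then
      (1 : ℝ) else 0 := by
    funext z
    unfold vt
    by_cases hz : ‖z‖ = 1
    · rw [E.Yt_eq hz, E.Xt_eq τ hz]
    · have h1 : ¬ (‖z‖ = 1 ∧ E.C₁ / 4 ≤ YD (E.B z) ∧ xt τ (E.B z) ≤ 1 / 10) := fun h => hz h.1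
      have h2 : ¬ (‖z‖ = 1 ∧ E.C₁ / 4 ≤ E.Yt z ∧ E.Xt τ z ≤ 1 / 10) := fun h => hz h.1
      rw [if_neg h1, if_neg h2]
  rw [e]
  refine Measurable.ite ?_ measurable_const measurable_const
  exact meas_circ.inter ((measurableSet_le measurable_const E.meas_Yt).inter
      (measurableSet_le (E.meas_Xt τ) measurable_const))

theorem meas_ut (τ : Fin 3) : Measurable (E.ut τ) := by
  classical
  have e : E.ut τ = fun z : ℂ => if (‖z‖ = 1 ∧ E.C₁ / 2 ≤ E.Yt z ∧ E.Yt z ≤ E.R / 2 ∧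
      E.Xt τ z ≤ 1 / 10) then (1 : ℝ) else 0 := by
    funext z
    unfold ut
    by_cases hz : ‖z‖ = 1
    · rw [E.Yt_eq hz, E.Xt_eq τ hz]
    · have h1 : ¬ (‖z‖ = 1 ∧ E.C₁ / 2 ≤ YD (E.B z) ∧ YD (E.B z) ≤ E.R / 2 ∧
          xt τ (E.B z) ≤ 1 / 10) := fun h => hz h.1
      have h2 : ¬ (‖z‖ = 1 ∧ E.C₁ / 2 ≤ E.Yt z ∧ E.Yt z ≤ E.R / 2 ∧
          E.Xt τ z ≤ 1 / 10) := fun h => hz h.1
      rw [if_neg h1, if_neg h2]
  rw [e]
  refine Measurable.ite ?_ measurable_const measurable_const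
  exact meas_circ.inter ((measurableSet_le measurable_const E.meas_Yt).inter
      ((measurableSet_le E.meas_Yt measurable_const).inter
      (measurableSet_le (E.meas_Xt τ) measurable_const)))

theorem meas_ulow : Measurable E.ulow := by
  classical
  have e : E.ulow = fun z : ℂ => if (‖z‖ = 1 ∧ E.Yt z < E.C₁ / 2) then (1 : ℝ) else 0 := by
    funext z
    unfold ulow
    by_cases hz : ‖z‖ = 1
    · rw [E.Yt_eq hz]
    · have h1 : ¬ (‖z‖ = 1 ∧ YD (E.B z) < E.C₁ / 2) := fun h => hz h.1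
      have h2 : ¬ (‖z‖ = 1 ∧ E.Yt z < E.C₁ / 2) := fun h => hz h.1
      rw [if_neg h1, if_neg h2]
  rw [e]
  refine Measurable.ite ?_ measurable_const measurable_const
  exact meas_circ.inter (measurableSet_lt E.meas_Yt measurable_const)

theorem meas_uhigh : Measurable E.uhigh := by
  classical
  have e : E.uhigh = fun z : ℂ => if (‖z‖ = 1 ∧ E.R / 2 < E.Yt z) then (1 : ℝ) else 0 := by
    funext z
    unfold uhigh
    by_cases hz : ‖z‖ = 1
    · rw [E.Yt_eq hz]
    · have h1 : ¬ (‖z‖ = 1 ∧ E.R / 2 < YD (E.B z)) := fun h => hz h.1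
      have h2 : ¬ (‖z‖ = 1 ∧ E.R / 2 < E.Yt z) := fun h => hz h.1
      rw [if_neg h1, if_neg h2]
  rw [e]
  refine Measurable.ite ?_ measurable_const measurable_const
  exact meas_circ.inter (measurableSet_lt measurable_const E.meas_Yt)

lemma c1_pos : 0 < E.c₁ := by linarith [E.c_ge]

lemma R_pos : 0 < E.R := by linarith [E.R_ge]

lemma c1R_pos : 0 < E.c₁ / E.R := div_pos E.c1_pos E.R_pos

lemma c1R_le : E.c₁ / E.R ≤ 1 := by
  rw [div_le_one E.R_pos]
  have h1 := E.hR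
  have h2 := E.hC
  have h3 := E.c1_pos
  linarith

theorem v_nonneg (z : ℂ) : 0 ≤ E.v z := by
  unfold v
  split_ifs with h
  · have h1 : E.C₁ ≤ YD (E.B z) := h.2.1
    have h2 := E.hC
    have h3 := E.c1_pos
    have h4 : 0 < YD (E.B z) := by linarith
    have h5 : E.c₁ / YD (E.B z) ≤ 1 := by
      rw [div_le_one h4]
      linarith
    linarith
  · exact le_rfl

theorem v_le (z : ℂ) : E.v z ≤ 1 - E.c₁ / E.R := by
  unfold v
  split_ifs with h
  · have h1 : E.C₁ ≤ YD (E.B z) := h.2.1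
    have h0 : YD (E.B z) ≤ E.R := h.2.2
    have h2 := E.hC
    have h3 := E.c1_pos
    have h4 : 0 < YD (E.B z) := by linarith
    have h5 : E.c₁ / E.R ≤ E.c₁ / YD (E.B z) := div_le_div_of_nonneg_left h3.le h4 h0
    linarith
  · linarith [E.c1R_le]

theorem abs_v_le (z : ℂ) : |E.v z| ≤ 1 := by
  rw [abs_of_nonneg (E.v_nonneg z)]
  linarith [E.v_le z, E.c1R_pos]

theorem β_nonneg (z : ℂ) : 0 ≤ E.β z :=
  cf_nonneg E.one_le_n E.p (fun u _ => E.v_nonneg u) z

theorem β_le {z : ℂ} (hz : ‖z‖ = 1) : E.β z ≤ 1 - E.c₁ / E.R :=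
  cf_le E.one_le_n E.p E.meas_v (V := 1) (fun u _ => E.abs_v_le u) (fun u _ => E.v_le u) hz

theorem β_lt {z : ℂ} (hz : ‖z‖ = 1) : E.β z < 1 := by
  linarith [E.β_le hz, E.c1R_pos]

theorem g_eval (z : ℂ) :
    E.g.eval z = z ^ (E.N - kd E.n E.p) * (chi E.n E.p E.v).eval z := by
  unfold g
  rw [eval_mul, eval_pow, eval_X]

theorem norm_g {z : ℂ} (hz : ‖z‖ = 1) : ‖E.g.eval z‖ = E.β z := by
  rw [E.g_eval, chi_circle E.meas_v (V := 1) (fun w _ => E.abs_v_le w) hz, norm_mul, norm_pow, hz,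
    one_pow, one_mul, norm_mul, norm_pow, hz, one_pow, one_mul, Complex.norm_real]
  exact Real.norm_of_nonneg (E.β_nonneg z)

theorem g_le {z : ℂ} (hz : ‖z‖ ≤ 1) : ‖E.g.eval z‖ ≤ 1 - E.c₁ / E.R :=
  Pool.Agent.Helper58.LD.norm_le_of_circle (poly_an E.g _)
    (fun w hw => by rw [E.norm_g hw]; exact E.β_le hw) hz

theorem g_lt {z : ℂ} (hz : ‖z‖ ≤ 1) : ‖E.g.eval z‖ < 1 := by
  linarith [E.g_le hz, E.c1R_pos]

theorem g_natDegree : E.g.natDegree ≤ 2 * E.N := by
  unfold g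
  refine natDegree_mul_le.trans ?_
  rw [natDegree_X_pow]
  have h1 := chi_natDegree E.n E.p E.v
  have h2 := E.kd_lt
  omega

theorem g_zero : E.g.eval 0 = 0 := by
  rw [E.g_eval, zero_pow (by have := E.kd_lt; omega), zero_mul]

theorem pair' : Pair (E.m + 2 * E.N) E.bp E.dp :=
  Pair.step E.pair E.g_natDegree E.g_zero (fun _ hz => E.g_lt hz.le)

theorem bp_zero : E.bp.eval 0 = 0 := by
  unfold bp
  rw [eval_add, eval_mul, E.g_zero, E.core.b0, zero_mul, add_zero]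

theorem Bp_lt {z : ℂ} (hz : ‖z‖ ≤ 1) : ‖E.Bp z‖ < 1 := Bq_lt E.pair' hz

/-- exact identity on the circle (`step_identity`) -/
theorem dl_new {z : ℂ} (hz : ‖z‖ = 1) :
    dl E.bp E.dp z = (1 - E.β z ^ 2) * dl E.b E.d z := by
  have h := step_identity (g := E.g) E.pair.db E.pair.dd hz
  rw [E.norm_g hz] at h
  exact h

theorem dl_new_le {z : ℂ} (hz : ‖z‖ = 1) : dl E.bp E.dp z ≤ dl E.b E.d z := by
  rw [E.dl_new hz]
  have h1 := dl_pos E.pair hz.le
  have h2 := sq_nonneg (E.β z)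
  nlinarith

theorem dl_le_new {z : ℂ} (hz : ‖z‖ = 1) : dl E.b E.d z ≤ E.R * dl E.bp E.dp z := by
  rw [E.dl_new hz, ← mul_assoc]
  have h1 := dl_pos E.pair hz.le
  have h2 := E.β_nonneg z
  have h3 := E.β_le hz
  have h4 := E.R_pos
  have h5 := E.c_ge
  have h6 : E.R * (E.c₁ / E.R) = E.c₁ := mul_div_cancel₀ _ h4.ne'
  have h7 : E.c₁ / E.R ≤ 1 - E.β z ^ 2 := by
    have := E.β_lt hz
    nlinarith
  have h8 : 1 ≤ E.R * (1 - E.β z ^ 2) := by
    have := mul_le_mul_of_nonneg_left h7 h4.le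
    rw [h6] at this
    linarith
  nlinarith

end Pool.Agent.Helper61.QF.Ev
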