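import Pool.Agent.Helper61.QF.Ev17

/-!
# Ev20 (MP_78803a, EVENT): closeness inside the disc

Proof. `K = 2 p n ≥ V` (`E.V_le_pn`), and `N - kd ≥ 2 p n` (`E.N_sub`), so `|z|^(N-kd) ≤ |z|^(2pn)`.
* `B`: `E.BpB_factor`, `|B₊ - B| ≤ 2` on the circle, `Helper16.T78.schwarz_weighted` with `φ = 1`.
* `f`: `f1 - f = f (e^G~ - 1) + h`; `e^G~ - 1 = z^(N-kd) (..)` (`exists_factor`, `E.Gt_factor`), on the circle
  `|e^G~ - 1| ≤ 1 + e^(20(l+1)M) ≤ e^Λ`; so `≤ e^Λ |z|^(N-kd)` (`schwarz_weighted`); `|h| ≤ |f| |z|^(2pn)`;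
  `e^Λ + 1 ≤ e^(3Λ)`.
* `P`: `P1 - P = z^(2pn) w0`, on the circle `= W Σ`, `E.Wsig_le`.
-/

set_option autoImplicit false

open Polynomial Complex Metric
open Pool.Agent.Helper81.QF Pool.Agent.Helper29.QF
open Pool.Agent.Helper84.Lam (YD lamD LL L1 F3 ps)

namespace Pool.Agent.Helper61.QF.Ev

variable {l : ℕ} (E : Ev l) {w0 h : ℂ → ℂ}

private theorem pn_le : 2 * E.p * E.n ≤ E.N - kd E.n E.p :=
  (Nat.le_add_right _ _).trans E.N_sub

private theorem pow_mono {z : ℂ} (hz : ‖z‖ ≤ 1) :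
    ‖z‖ ^ (E.N - kd E.n E.p) ≤ ‖z‖ ^ (2 * E.p * E.n) :=
  pow_le_pow_of_le_one (norm_nonneg _) hz E.pn_le

private theorem schwarz_one {h : ℂ → ℂ} {M : ℝ} {m : ℕ}
    (hh : AnalyticOnNhd ℂ h (closedBall 0 1))
    (hM : ∀ z : ℂ, ‖z‖ = 1 → ‖z ^ m * h z‖ ≤ M) {z : ℂ} (hz : ‖z‖ ≤ 1) :
    ‖z ^ m * h z‖ ≤ M * ‖z‖ ^ m := by
  have h1 := Pool.Agent.Helper16.T78.schwarz_weighted (h := h) (φ := fun _ => (1 : ℂ)) (R := 1)
    (M := M) (m := m) one_pos hh analyticOnNhd_const (fun _ _ => one_ne_zero)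
    (fun w hw => by simpa using hM w hw) hz
  simpa using h1

theorem expGt_pow {z : ℂ} (hz : ‖z‖ ≤ 1) :
    ‖cexp (E.Gt z) - 1‖ ≤ Real.exp E.Λ * ‖z‖ ^ (2 * E.p * E.n) := by
  obtain ⟨H0, hH0, hG⟩ := E.Gt_factor
  set φ : ℂ → ℂ := dslope Complex.exp 0 with hφ
  have hφd : Differentiable ℂ φ := by
    rw [← differentiableOn_univ]
    exact (Complex.differentiableOn_dslope Filter.univ_mem).2
      (Complex.differentiable_exp.differentiableOn)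
  have hφe : ∀ x : ℂ, cexp x - 1 = x * φ x := by
    intro x
    have h1 := sub_smul_dslope Complex.exp 0 x
    rw [sub_zero, smul_eq_mul, Complex.exp_zero] at h1
    exact h1.symm
  have e : ∀ w : ℂ, cexp (E.Gt w) - 1 = w ^ (E.N - kd E.n E.p) * (H0 w * φ (E.Gt w)) := by
    intro w
    rw [hφe, ← mul_assoc, ← hG w]
  have han : AnalyticOnNhd ℂ (fun w => H0 w * φ (E.Gt w)) (closedBall 0 1) := by
    intro w hw
    have hw' : ‖w‖ ≤ 1 := by simpa using hw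
    have h1 : AnalyticAt ℂ E.Gt w := E.Gt_an (hw'.trans (by linarith [E.hs0]))
    have h2 : AnalyticAt ℂ φ (E.Gt w) := hφd.analyticAt _
    have h3 : AnalyticAt ℂ (fun x => φ (E.Gt x)) w := AnalyticAt.fun_comp (g := φ) (f := E.Gt) h2 h1
    exact (hH0 w hw).mul h3
  have hM : ∀ w : ℂ, ‖w‖ = 1 →
      ‖w ^ (E.N - kd E.n E.p) * (H0 w * φ (E.Gt w))‖ ≤ Real.exp E.Λ := by
    intro w hw
    rw [← e w]
    have h1 := E.reGt (z := w) (by rw [hw]; linarith [E.hs0])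
    have h2 : ‖cexp (E.Gt w)‖ ≤ Real.exp (20 * (((l : ℝ) + 1) * E.M)) := by
      rw [Complex.norm_exp]
      exact Real.exp_le_exp.2 ((le_abs_self _).trans h1)
    have h3 := E.hΛM
    have h4 := E.lM_ge
    have h5 : (2 : ℝ) ≤ Real.exp (((l : ℝ) + 1) * E.M) := by
      have := Real.add_one_le_exp (((l : ℝ) + 1) * E.M)
      linarith
    have h6 : (1 : ℝ) ≤ Real.exp (20 * (((l : ℝ) + 1) * E.M)) := Real.one_le_exp (by linarith)
    calc ‖cexp (E.Gt w) - 1‖ ≤ ‖cexp (E.Gt w)‖ + ‖(1 : ℂ)‖ := norm_sub_le _ _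
      _ ≤ 2 * Real.exp (20 * (((l : ℝ) + 1) * E.M)) := by
          rw [norm_one]
          linarith
      _ ≤ Real.exp (((l : ℝ) + 1) * E.M) * Real.exp (20 * (((l : ℝ) + 1) * E.M)) :=
          mul_le_mul_of_nonneg_right h5 (Real.exp_pos _).le
      _ = Real.exp (((l : ℝ) + 1) * E.M + 20 * (((l : ℝ) + 1) * E.M)) := by rw [Real.exp_add]
      _ ≤ Real.exp E.Λ := Real.exp_le_exp.2 (by linarith)
  rw [e z]
  exact (schwarz_one han hM hz).trans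
    (mul_le_mul_of_nonneg_left (E.pow_mono hz) (Real.exp_pos _).le)

theorem close (C : Cor E w0 h) {A : ℝ} (hA0 : 3 * E.Λ ≤ A)
    (hA : ∀ ζ : ℂ, ‖ζ‖ = 1 → 3 * E.Λ + E.p / 8 + Real.log ‖E.f ζ‖ ≤ A) :
    Close A E.V E.b E.d E.f E.P E.bp E.dp (E.f1 h) (E.P1 w0) := by
  have hΛ := E.Λ_ge
  have hA3 : Real.exp (3 * E.Λ) ≤ Real.exp A := Real.exp_le_exp.2 hA0
  have hΛ1 : (1 : ℝ) ≤ Real.exp E.Λ := Real.one_le_exp (by linarith)
  have hΛ2 : (2 : ℝ) ≤ Real.exp E.Λ := by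
    have := Real.add_one_le_exp E.Λ
    linarith
  have h3Λ : 2 * Real.exp E.Λ ≤ Real.exp (3 * E.Λ) := by
    calc 2 * Real.exp E.Λ ≤ Real.exp E.Λ * Real.exp E.Λ :=
          mul_le_mul_of_nonneg_right hΛ2 (Real.exp_pos _).le
      _ = Real.exp (E.Λ + E.Λ) := by rw [Real.exp_add]
      _ ≤ Real.exp (3 * E.Λ) := Real.exp_le_exp.2 (by linarith)
  refine ⟨2 * E.p * E.n, E.V_le_pn, ?_⟩
  intro z hz
  have hzK : 0 ≤ ‖z‖ ^ (2 * E.p * E.n) := pow_nonneg (norm_nonneg _) _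
  refine ⟨?_, ?_, ?_⟩
  · obtain ⟨k, hk, hkB⟩ := E.BpB_factor
    have h1 : ‖z ^ (E.N - kd E.n E.p) * k z‖ ≤ 2 * ‖z‖ ^ (E.N - kd E.n E.p) := by
      refine schwarz_one hk (fun w hw => ?_) hz
      rw [← hkB w]
      refine (norm_sub_le _ _).trans ?_
      have := (E.Bp_lt hw.le).le
      have := (E.B_lt hw.le).le
      linarith
    rw [← hkB z] at h1
    have h2 := E.pow_mono hz
    calc ‖E.Bp z - E.B z‖ ≤ 2 * ‖z‖ ^ (E.N - kd E.n E.p) := h1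
      _ ≤ Real.exp A * ‖z‖ ^ (2 * E.p * E.n) :=
          mul_le_mul (by linarith) h2 (pow_nonneg (norm_nonneg _) _) (Real.exp_pos _).le
  · have e : E.f1 h z - E.f z = E.f z * (cexp (E.Gt z) - 1) + h z := by
      unfold f1 fG
      ring
    have h1 := E.expGt_pow hz
    have h2 := C.le 0 (Nat.zero_le _) z hz
    rw [iteratedDeriv_zero] at h2
    have h3 : Real.exp (-(E.J : ℝ) / 2) ≤ 1 := by
      refine Real.exp_le_one_iff.2 ?_
      have := E.J_ge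
      linarith
    have hf := norm_nonneg (E.f z)
    have h4 : ‖h z‖ ≤ ‖z‖ ^ (2 * E.p * E.n) * ‖E.f z‖ := by
      refine h2.trans ?_
      calc Real.exp (-(E.J : ℝ) / 2) * ‖E.f z‖ * ‖z‖ ^ (2 * E.p * E.n)
          = Real.exp (-(E.J : ℝ) / 2) * (‖z‖ ^ (2 * E.p * E.n) * ‖E.f z‖) := by ring
        _ ≤ 1 * (‖z‖ ^ (2 * E.p * E.n) * ‖E.f z‖) :=
            mul_le_mul_of_nonneg_right h3 (mul_nonneg hzK hf)
        _ = _ := one_mul _
    rw [e]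
    calc ‖E.f z * (cexp (E.Gt z) - 1) + h z‖ ≤ ‖E.f z * (cexp (E.Gt z) - 1)‖ + ‖h z‖ :=
          norm_add_le _ _
      _ ≤ ‖E.f z‖ * (Real.exp E.Λ * ‖z‖ ^ (2 * E.p * E.n)) +
            ‖z‖ ^ (2 * E.p * E.n) * ‖E.f z‖ := by
          rw [norm_mul]
          exact add_le_add (mul_le_mul_of_nonneg_left h1 hf) h4
      _ = (Real.exp E.Λ + 1) * (‖z‖ ^ (2 * E.p * E.n) * ‖E.f z‖) := by ring
      _ ≤ Real.exp A * (‖z‖ ^ (2 * E.p * E.n) * ‖E.f z‖) :=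
          mul_le_mul_of_nonneg_right (by linarith) (mul_nonneg hzK hf)
      _ = _ := by ring
  · have e : E.P1 w0 z - E.P z = z ^ (2 * E.p * E.n) * w0 z := by
      unfold P1
      ring
    rw [e]
    refine schwarz_one C.anw (fun w hw => ?_) hz
    rw [C.hw w hw]
    refine (E.Wsig_le hw).trans ?_
    have hf : 0 < ‖E.f w‖ := norm_pos_iff.2 (E.core.fne w hw.le)
    calc Real.exp (3 * E.Λ + E.p / 8) * ‖E.f w‖
        = Real.exp (3 * E.Λ + E.p / 8 + Real.log ‖E.f w‖) := by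
          rw [Real.exp_add (3 * E.Λ + E.p / 8), Real.exp_log hf]
      _ ≤ Real.exp A := Real.exp_le_exp.2 (hA w hw)

end Pool.Agent.Helper61.QF.Ev
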