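import Pool.Agent.Helper61.QF.Ev5

/-!
# Ev21 (MP_78803a, RELEASE): the partition of unity; low and high heights

Proof.
* `sum_u`: on the circle exactly one of `ut 0, ut 1, ut 2, ulow, uhigh` is `1` (`xt_exists` as `C₁/2 ≥ 20`,
  `xt_unique`; `C₁/2 ≤ R/2`).
* `cf_add` (general): `cf` is linear in `v` (integrals of bounded measurable functions; `Helper29.QF.chi_sub` and
  `chi_circle` may help, or `circ_int_real`); `sum_a` follows with `cf_const`.
* `low_bound`: if `Y(Bζ) ≥ 0.51 C₁` then `ulow = 0` on `|w - ζ| < δ` (`Y_close`), `alow ≤ e^(-p)` (`local_zero`), and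
  `e^(-p) log M ≤ 1` (`Yp_circle`, `E.exp_pM`). Otherwise `ζ` is inactive (`inact_of_low`) and
  `Y₊ ≤ Y + 1 ≤ C₁` (`Yp_inact`).
* `high_bound`: `T_L6` (`HHl w = Hh w`: `re_LL`, `re_L1`): `Hh(B) + 4 ≥ Y/2 ≥ 0`. If `Y(Bζ) ≤ 0.49 R` then
  `ahigh ≤ e^(-p)`; otherwise `8 (Hh + 4)/R ≥ 1 ≥ ahigh`. `log Y₊ ≤ log M`.
-/

set_option autoImplicit false

open Polynomial Complex Metric
open Pool.Agent.Helper81.QF Pool.Agent.Helper29.QF
open Pool.Agent.Helper84.Lam (YD lamD LL L1 F3 ps)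

namespace Pool.Agent.Helper61.QF

theorem cf_add {n p : ℕ} (hn : 1 ≤ n) {v w : ℂ → ℝ} (hv : Measurable v) (hw : Measurable w)
    {V W : ℝ} (hbv : ∀ u : ℂ, ‖u‖ = 1 → |v u| ≤ V) (hbw : ∀ u : ℂ, ‖u‖ = 1 → |w u| ≤ W) {z : ℂ}
    (hz : ‖z‖ = 1) : cf n p (fun u => v u + w u) z = cf n p v z + cf n p w z := by
  unfold cf
  rw [← mul_add, ← Real.circleAverage_fun_add (circ_int_real hv hbv (kern_cont n p z))
    (circ_int_real hw hbw (kern_cont n p z))]
  congr 2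
  funext u
  ring

/-- `cf` is continuous on the circle -/
theorem cf_cont {n p : ℕ} {v : ℂ → ℝ} (hv : Measurable v)
    {V : ℝ} (hbv : ∀ u : ℂ, ‖u‖ = 1 → |v u| ≤ V) : ContinuousOn (cf n p v) (sphere 0 1) := by
  have h0 : ∀ z ∈ sphere (0 : ℂ) 1, z ^ kd n p ≠ 0 := fun z hz =>
    pow_ne_zero _ (circ_ne (by simpa using hz))
  have h1 : ContinuousOn (fun z : ℂ => ((chi n p v).eval z / z ^ kd n p).re) (sphere 0 1) :=
    Complex.continuous_re.comp_continuousOn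
      ((chi n p v).continuous.continuousOn.div (continuousOn_id.pow _) h0)
  refine h1.congr (fun z hz => ?_)
  have hz1 : ‖z‖ = 1 := by simpa using hz
  simp only
  rw [chi_circle hv hbv hz1, mul_div_cancel_left₀ _ (h0 z hz), Complex.ofReal_re]

namespace Ev

variable {l : ℕ} (E : Ev l)

theorem ut_01 (τ : Fin 3) (z : ℂ) : 0 ≤ E.ut τ z ∧ E.ut τ z ≤ 1 := by
  unfold ut
  split_ifs <;> norm_num

theorem ulow_01 (z : ℂ) : 0 ≤ E.ulow z ∧ E.ulow z ≤ 1 := by
  unfold ulow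
  split_ifs <;> norm_num

theorem uhigh_01 (z : ℂ) : 0 ≤ E.uhigh z ∧ E.uhigh z ≤ 1 := by
  unfold uhigh
  split_ifs <;> norm_num

theorem sum_u {z : ℂ} (hz : ‖z‖ = 1) : ∑ τ : Fin 3, E.ut τ z + E.ulow z + E.uhigh z = 1 := by
  have hC := E.C_ge
  have hR := E.hR
  have hB := E.B_lt hz.le
  by_cases h1 : YD (E.B z) < E.C₁ / 2
  · have e1 : E.ulow z = 1 := by
      unfold ulow
      rw [if_pos ⟨hz, h1⟩]
    have e2 : E.uhigh z = 0 := by
      unfold uhigh
      rw [if_neg]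
      rintro ⟨-, h⟩
      linarith
    have e3 : ∀ τ : Fin 3, E.ut τ z = 0 := by
      intro τ
      unfold ut
      rw [if_neg]
      rintro ⟨-, h, -⟩
      linarith
    rw [Finset.sum_congr rfl (fun τ _ => e3 τ), e1, e2]
    simp
  · by_cases h2 : E.R / 2 < YD (E.B z)
    · have e1 : E.ulow z = 0 := by
        unfold ulow
        rw [if_neg]
        rintro ⟨-, h⟩
        exact h1 h
      have e2 : E.uhigh z = 1 := by
        unfold uhigh
        rw [if_pos ⟨hz, h2⟩]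
      have e3 : ∀ τ : Fin 3, E.ut τ z = 0 := by
        intro τ
        unfold ut
        rw [if_neg]
        rintro ⟨-, -, h, -⟩
        linarith
      rw [Finset.sum_congr rfl (fun τ _ => e3 τ), e1, e2]
      simp
    · have e1 : E.ulow z = 0 := by
        unfold ulow
        rw [if_neg]
        rintro ⟨-, h⟩
        exact h1 h
      have e2 : E.uhigh z = 0 := by
        unfold uhigh
        rw [if_neg]
        rintro ⟨-, h⟩
        exact h2 h
      obtain ⟨τ, -, hτ⟩ := xt_exists hB (by linarith)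
      have e3 : E.ut τ z = 1 := by
        unfold ut
        rw [if_pos ⟨hz, not_lt.1 h1, not_lt.1 h2, hτ⟩]
      have e4 : ∀ τ' : Fin 3, τ' ∈ Finset.univ → τ' ≠ τ → E.ut τ' z = 0 := by
        intro τ' _ hne
        unfold ut
        rw [if_neg]
        rintro ⟨-, -, -, h⟩
        exact hne (xt_unique hB h hτ)
      rw [Finset.sum_eq_single τ e4 (fun h => absurd (Finset.mem_univ τ) h), e1, e2, e3]
      norm_num

theorem abs_ut_le (τ : Fin 3) (z : ℂ) : |E.ut τ z| ≤ 1 := by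
  have := E.ut_01 τ z
  rw [abs_le]
  constructor <;> linarith [this.1, this.2]

theorem abs_ulow_le (z : ℂ) : |E.ulow z| ≤ 1 := by
  have := E.ulow_01 z
  rw [abs_le]
  constructor <;> linarith [this.1, this.2]

theorem abs_uhigh_le (z : ℂ) : |E.uhigh z| ≤ 1 := by
  have := E.uhigh_01 z
  rw [abs_le]
  constructor <;> linarith [this.1, this.2]

theorem sum_a {z : ℂ} (hz : ‖z‖ = 1) : ∑ τ : Fin 3, E.at' τ z + E.alow z + E.ahigh z = 1 := by
  have hn := E.one_le_n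
  have m0 := E.meas_ut 0
  have m1 := E.meas_ut 1
  have m2 := E.meas_ut 2
  have ml := E.meas_ulow
  have mh := E.meas_uhigh
  have b0 : ∀ u : ℂ, ‖u‖ = 1 → |E.ut 0 u| ≤ 1 := fun u _ => E.abs_ut_le 0 u
  have b1 : ∀ u : ℂ, ‖u‖ = 1 → |E.ut 1 u| ≤ 1 := fun u _ => E.abs_ut_le 1 u
  have b2 : ∀ u : ℂ, ‖u‖ = 1 → |E.ut 2 u| ≤ 1 := fun u _ => E.abs_ut_le 2 u
  have bl : ∀ u : ℂ, ‖u‖ = 1 → |E.ulow u| ≤ 1 := fun u _ => E.abs_ulow_le u
  have bh : ∀ u : ℂ, ‖u‖ = 1 → |E.uhigh u| ≤ 1 := fun u _ => E.abs_uhigh_le u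
  have b01 : ∀ u : ℂ, ‖u‖ = 1 → |E.ut 0 u + E.ut 1 u| ≤ 2 := fun u hu =>
    (abs_add_le _ _).trans (by linarith [b0 u hu, b1 u hu])
  have b012 : ∀ u : ℂ, ‖u‖ = 1 → |E.ut 0 u + E.ut 1 u + E.ut 2 u| ≤ 3 := fun u hu =>
    (abs_add_le _ _).trans (by linarith [b01 u hu, b2 u hu])
  have b3 : ∀ u : ℂ, ‖u‖ = 1 → |E.ut 0 u + E.ut 1 u + E.ut 2 u + E.ulow u| ≤ 4 := fun u hu =>
    (abs_add_le _ _).trans (by linarith [b012 u hu, bl u hu])
  have e1 : cf E.n E.p (fun u => E.ut 0 u + E.ut 1 u) z =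
      cf E.n E.p (E.ut 0) z + cf E.n E.p (E.ut 1) z := cf_add hn m0 m1 b0 b1 hz
  have e2 : cf E.n E.p (fun u => E.ut 0 u + E.ut 1 u + E.ut 2 u) z =
      cf E.n E.p (fun u => E.ut 0 u + E.ut 1 u) z + cf E.n E.p (E.ut 2) z :=
    cf_add hn (m0.add m1) m2 b01 b2 hz
  have e3 : cf E.n E.p (fun u => E.ut 0 u + E.ut 1 u + E.ut 2 u + E.ulow u) z =
      cf E.n E.p (fun u => E.ut 0 u + E.ut 1 u + E.ut 2 u) z + cf E.n E.p E.ulow z :=
    cf_add hn ((m0.add m1).add m2) ml b012 bl hz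
  have e4 : cf E.n E.p (fun u => E.ut 0 u + E.ut 1 u + E.ut 2 u + E.ulow u + E.uhigh u) z =
      cf E.n E.p (fun u => E.ut 0 u + E.ut 1 u + E.ut 2 u + E.ulow u) z + cf E.n E.p E.uhigh z :=
    cf_add hn (((m0.add m1).add m2).add ml) mh b3 bh hz
  have hone : ∀ u : ℂ, ‖u‖ = 1 → E.ut 0 u + E.ut 1 u + E.ut 2 u + E.ulow u + E.uhigh u = 1 := by
    intro u hu
    have h := E.sum_u hu
    rwa [Fin.sum_univ_three] at h
  have mt : Measurable (fun u => E.ut 0 u + E.ut 1 u + E.ut 2 u + E.ulow u + E.uhigh u) :=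
    ((((m0.add m1).add m2).add ml).add mh)
  have h5 : cf E.n E.p (fun u => E.ut 0 u + E.ut 1 u + E.ut 2 u + E.ulow u + E.uhigh u) z = 1 := by
    have bt : ∀ u : ℂ, ‖u‖ = 1 →
        |E.ut 0 u + E.ut 1 u + E.ut 2 u + E.ulow u + E.uhigh u| ≤ 1 := fun u hu => by
      rw [hone u hu, abs_one]
    refine le_antisymm (cf_le hn E.p mt bt (fun u hu => (hone u hu).le) hz)
      (le_cf hn E.p mt bt (fun u hu => (hone u hu).ge) hz)
  rw [Fin.sum_univ_three]
  unfold at' alow ahigh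
  linarith

theorem at_nonneg (τ : Fin 3) (z : ℂ) : 0 ≤ E.at' τ z :=
  cf_nonneg E.one_le_n E.p (fun u _ => (E.ut_01 τ u).1) z

theorem alow_nonneg (z : ℂ) : 0 ≤ E.alow z :=
  cf_nonneg E.one_le_n E.p (fun u _ => (E.ulow_01 u).1) z

theorem ahigh_nonneg (z : ℂ) : 0 ≤ E.ahigh z :=
  cf_nonneg E.one_le_n E.p (fun u _ => (E.uhigh_01 u).1) z

theorem ahigh_le_one {z : ℂ} (hz : ‖z‖ = 1) : E.ahigh z ≤ 1 :=
  cf_le E.one_le_n E.p E.meas_uhigh (fun u _ => E.abs_uhigh_le u)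
    (fun u _ => (E.uhigh_01 u).2) hz

theorem log_Yp_le {z : ℂ} (hz : ‖z‖ = 1) : Real.log (YD (E.Bp z)) ≤ Real.log E.M := by
  have h1 : 0 < YD (E.Bp z) := Pool.Agent.Helper84.PD.YD_pos (E.Bp_lt hz.le)
  exact Real.log_le_log h1 (E.Yp_circle hz)

theorem low_bound {z : ℂ} (hz : ‖z‖ = 1) :
    E.alow z * Real.log (YD (E.Bp z)) ≤ E.alow z * Real.log E.C₁ + 1 := by
  have hC := E.C_ge
  have hM := E.M_ge
  have hδ := E.δ_pos
  have ha := E.alow_nonneg z
  have hC0 : 0 ≤ Real.log E.C₁ := Real.log_nonneg (by linarith)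
  by_cases h : YD (E.B z) < 0.51 * E.C₁
  · have hi := E.inact_of_low hz (by linarith)
    have h1 := (E.Yp_inact hz hi).2
    have h2 : 0 < YD (E.Bp z) := Pool.Agent.Helper84.PD.YD_pos (E.Bp_lt hz.le)
    have h3 : Real.log (YD (E.Bp z)) ≤ Real.log E.C₁ := Real.log_le_log h2 (by linarith)
    have h4 := mul_le_mul_of_nonneg_left h3 ha
    linarith
  · have h' := not_lt.1 h
    have h1 : E.alow z ≤ Real.exp (-E.p) := by
      refine E.local_zero E.meas_ulow (fun u _ => E.ulow_01 u) hz (fun w hw hd => ?_)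
      unfold ulow
      rw [if_neg]
      rintro ⟨-, h3⟩
      have h2 := E.Y_close (x := w) (y := z) hw.le hz.le (by linarith)
      rw [abs_le] at h2
      linarith [h2.1]
    have h2 := E.log_Yp_le hz
    have h3 : Real.log E.M ≤ E.M := by
      have := Real.log_le_sub_one_of_pos (show 0 < E.M by linarith)
      linarith
    have h4 : E.alow z * Real.log (YD (E.Bp z)) ≤ E.alow z * E.M :=
      mul_le_mul_of_nonneg_left (h2.trans h3) ha
    have h5 : E.alow z * E.M ≤ Real.exp (-E.p) * E.M :=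
      mul_le_mul_of_nonneg_right h1 (by linarith)
    have h6 := E.exp_M
    have h7 : 0 ≤ E.alow z * Real.log E.C₁ := mul_nonneg ha hC0
    have h8 : (1 : ℝ) / 10 ^ 12 ≤ 1 := by norm_num
    linarith

theorem high_bound {z : ℂ} (hz : ‖z‖ = 1) :
    E.ahigh z * Real.log (YD (E.Bp z)) ≤
      Real.log E.M * (Real.exp (-E.p) + 8 * (Hh (E.B z) + 4) / E.R) := by
  have hR := E.R_ge
  have hM := E.M_ge
  have hδ := E.δ_pos
  have hB := E.B_lt hz.le
  have ha := E.ahigh_nonneg z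
  have hL : 0 ≤ Real.log E.M := Real.log_nonneg (by linarith)
  have hY0 := Pool.Agent.Helper84.PD.YD_pos hB
  have hHh : YD (E.B z) / 2 ≤ Hh (E.B z) + 4 := by
    have h1 := (Pool.Agent.Helper84.Lam.T_L6 hB).1
    unfold Pool.Agent.Helper84.Lam.HHl Pool.Agent.Helper84.Lam.Hl at h1
    rw [Pool.Agent.Helper84.Lam.re_LL hB, Pool.Agent.Helper84.Lam.re_L1 hB] at h1
    unfold Hh hD
    linarith
  have h1 : E.ahigh z * Real.log (YD (E.Bp z)) ≤ E.ahigh z * Real.log E.M :=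
    mul_le_mul_of_nonneg_left (E.log_Yp_le hz) ha
  refine h1.trans ?_
  rw [mul_comm]
  refine mul_le_mul_of_nonneg_left ?_ hL
  have he := Real.exp_pos (-(E.p : ℝ))
  by_cases h : YD (E.B z) ≤ 0.49 * E.R
  · have h2 : E.ahigh z ≤ Real.exp (-E.p) := by
      refine E.local_zero E.meas_uhigh (fun u _ => E.uhigh_01 u) hz (fun w hw hd => ?_)
      unfold uhigh
      rw [if_neg]
      rintro ⟨-, h3⟩
      have h2 := E.Y_close (x := w) (y := z) hw.le hz.le (by linarith)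
      rw [abs_le] at h2
      linarith [h2.2]
    have h3 : 0 ≤ 8 * (Hh (E.B z) + 4) / E.R := div_nonneg (by linarith) (by linarith)
    linarith
  · have h2 := E.ahigh_le_one hz
    have h3 : 1 ≤ 8 * (Hh (E.B z) + 4) / E.R := by
      rw [le_div_iff₀ (by linarith)]
      linarith [not_le.1 h]
    linarith

end Ev

end Pool.Agent.Helper61.QF
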