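import Pool.Agent.Helper61.QF.Ev5

/-!
# Ev6 (MP_78803a, EVENT): the logarithms `ld`, `G`, `Q`, `D2`

Proof.
* `dp_ratio`: `Helper29.QF.step_d` divided by `|d|`. As `|g| < 1` (`E.g_lt`), `d₊/d` is in the slit plane
  (`Re > 0`), so `ld` is analytic and `exp (ld) = d₊/d`.
* `G_an`, `Q_an`, `D2_an`: `Helper29.QF.comp_an` for `LL`, `L1`, `F3` (specs in `Helper84/Lam/Logs`, `Tools61`).
* `exp_G`: `jj = (thD(B)/d²)^l/(1-λ(B))`, `exp_F3`, `exp_L1`, `exp_ld`, and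
  `Pool.Agent.Helper81.QF.thD = Pool.Agent.Helper84.Lam.thD` (`thD_same`).
* bounds: `ps (B z) (B₊ z) ≤ |g|/(1-2|g|) ≤ 1.01 |g| ≤ 1/100` (`step_ps`), then `L1_lip` (82), `LL_lip` (82),
  `F3_lip` (109200), all times `YD (B z) ≤ 19 M` (`E.Y_inner`), and `|log (1+x)| ≤ 2|x|`.
-/

set_option autoImplicit false

open Polynomial Complex Metric
open Pool.Agent.Helper81.QF Pool.Agent.Helper29.QF
open Pool.Agent.Helper84.Lam (YD lamD LL L1 F3 ps)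

namespace Pool.Agent.Helper61.QF.Ev

variable {l : ℕ} (E : Ev l)

theorem dp_ratio {z : ℂ} (hz : ‖z‖ ≤ 1) :
    ‖E.dp.eval z / E.d.eval z - 1‖ ≤ ‖E.g.eval z‖ := by
  have hd : E.d.eval z ≠ 0 := E.pair.ne z hz
  have hd' : 0 < ‖E.d.eval z‖ := norm_pos_iff.2 hd
  have h1 := step_d E.pair E.g hz
  have e : E.dp.eval z / E.d.eval z - 1 = (E.dp.eval z - E.d.eval z) / E.d.eval z := by
    field_simp
  rw [e, norm_div, div_le_iff₀ hd']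
  exact h1

theorem ratio_re {z : ℂ} (hz : ‖z‖ ≤ 1) : 0 < (E.dp.eval z / E.d.eval z).re := by
  have h1 := E.dp_ratio hz
  have h2 := E.g_lt hz
  have h3 := Complex.abs_re_le_norm (E.dp.eval z / E.d.eval z - 1)
  have h4 : (E.dp.eval z / E.d.eval z - 1).re = (E.dp.eval z / E.d.eval z).re - 1 := by simp
  rw [h4] at h3
  have h5 := (abs_le.1 (h3.trans h1)).1
  linarith

theorem dp_ne {z : ℂ} (hz : ‖z‖ ≤ 1) : E.dp.eval z ≠ 0 := E.pair'.ne z hz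

theorem ld_an : AnalyticOnNhd ℂ E.ld (closedBall 0 1) := by
  intro z hz
  have hz' : ‖z‖ ≤ 1 := by simpa using hz
  have h1 : AnalyticAt ℂ (fun z => E.dp.eval z / E.d.eval z) z :=
    quot_an (p := E.dp) E.pair.ne z hz
  exact h1.clog (Or.inl (E.ratio_re hz'))

theorem exp_ld {z : ℂ} (hz : ‖z‖ ≤ 1) : cexp (E.ld z) = E.dp.eval z / E.d.eval z := by
  unfold ld
  exact Complex.exp_log (div_ne_zero (E.dp_ne hz) (E.pair.ne z hz))

theorem re_ld {z : ℂ} (hz : ‖z‖ ≤ 1) :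
    (E.ld z).re = Real.log ‖E.dp.eval z‖ - Real.log ‖E.d.eval z‖ := by
  unfold ld
  rw [Complex.log_re, norm_div,
    Real.log_div (norm_ne_zero_iff.2 (E.dp_ne hz)) (norm_ne_zero_iff.2 (E.pair.ne z hz))]

theorem comp_an_B {F : ℂ → ℂ} (hF : ∀ w : ℂ, ‖w‖ < 1 → DifferentiableAt ℂ F w) :
    AnalyticOnNhd ℂ (fun z => F (E.B z)) (closedBall 0 1) := comp_an E.pair hF

theorem comp_an_Bp {F : ℂ → ℂ} (hF : ∀ w : ℂ, ‖w‖ < 1 → DifferentiableAt ℂ F w) :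
    AnalyticOnNhd ℂ (fun z => F (E.Bp z)) (closedBall 0 1) := comp_an E.pair' hF

theorem G_an : AnalyticOnNhd ℂ E.G (closedBall 0 1) := by
  intro z hz
  have h1 := E.comp_an_Bp Pool.Agent.Helper84.Lam.L1_spec.1 z hz
  have h2 := E.comp_an_B Pool.Agent.Helper84.Lam.L1_spec.1 z hz
  have h3 := E.comp_an_Bp Pool.Agent.Helper84.Lam.F3_spec.1 z hz
  have h4 := E.comp_an_B Pool.Agent.Helper84.Lam.F3_spec.1 z hz
  have h5 := E.ld_an z hz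
  exact ((h1.sub h2).sub (analyticAt_const.mul (h3.sub h4))).add (analyticAt_const.mul h5)

theorem Q_an : AnalyticOnNhd ℂ E.Q (closedBall 0 1) := by
  intro z hz
  have h3 := E.comp_an_Bp Pool.Agent.Helper84.Lam.F3_spec.1 z hz
  have h4 := E.comp_an_B Pool.Agent.Helper84.Lam.F3_spec.1 z hz
  have h5 := E.ld_an z hz
  exact (h3.sub h4).sub (analyticAt_const.mul h5)

theorem D2_an : AnalyticOnNhd ℂ E.D2 (closedBall 0 1) := by
  intro z hz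
  have h3 := E.comp_an_Bp Pool.Agent.Helper84.Lam.LL_spec.1 z hz
  have h4 := E.comp_an_B Pool.Agent.Helper84.Lam.LL_spec.1 z hz
  exact h3.sub h4

theorem exp_G {z : ℂ} (hz : ‖z‖ ≤ 1) :
    cexp (E.G z) * jj l E.bp E.dp z = jj l E.b E.d z := by
  have hB : ‖E.B z‖ < 1 := Bq_lt E.pair hz
  have hBp := E.Bp_lt hz
  have hd := E.pair.ne z hz
  have hdp := E.dp_ne hz
  have a1 := Pool.Agent.Helper84.Lam.exp_L1 hBp
  have a2 := Pool.Agent.Helper84.Lam.exp_L1 hB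
  have a3 := Pool.Agent.Helper84.Lam.exp_F3 hBp
  have a4 := Pool.Agent.Helper84.Lam.exp_F3 hB
  have a5 := E.exp_ld hz
  have n1 : 1 - lamD (E.Bp z) ≠ 0 := one_sub_lamD_ne hBp
  have n2 : 1 - lamD (E.B z) ≠ 0 := one_sub_lamD_ne hB
  have n3 : Pool.Agent.Helper84.Lam.thD (E.Bp z) ≠ 0 := Pool.Agent.Helper84.Lam.thD_ne hBp
  have n4 : Pool.Agent.Helper84.Lam.thD (E.B z) ≠ 0 := Pool.Agent.Helper84.Lam.thD_ne hB
  have key : cexp (E.G z) = (1 - lamD (E.Bp z)) / (1 - lamD (E.B z)) *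
      (Pool.Agent.Helper84.Lam.thD (E.B z) / Pool.Agent.Helper84.Lam.thD (E.Bp z)) ^ l *
      ((E.dp.eval z / E.d.eval z) ^ 2) ^ l := by
    have e : E.G z = (L1 (E.Bp z) - L1 (E.B z)) + (l : ℂ) * (F3 (E.B z) - F3 (E.Bp z)) +
        (l : ℂ) * (((2 : ℕ) : ℂ) * E.ld z) := by
      unfold G
      push_cast
      ring
    rw [e, Complex.exp_add, Complex.exp_add, Complex.exp_sub, Complex.exp_nat_mul,
      Complex.exp_nat_mul, Complex.exp_nat_mul, Complex.exp_sub, a1, a2, a3, a4, a5]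
  rw [key]
  unfold jj
  change (1 - lamD (E.Bp z)) / (1 - lamD (E.B z)) *
      (Pool.Agent.Helper84.Lam.thD (E.B z) / Pool.Agent.Helper84.Lam.thD (E.Bp z)) ^ l *
      ((E.dp.eval z / E.d.eval z) ^ 2) ^ l *
      ((Pool.Agent.Helper84.Lam.thD (E.Bp z) / E.dp.eval z ^ 2) ^ l / (1 - lamD (E.Bp z))) =
      (Pool.Agent.Helper84.Lam.thD (E.B z) / E.d.eval z ^ 2) ^ l / (1 - lamD (E.B z))
  have e2 : Pool.Agent.Helper84.Lam.thD (E.B z) / Pool.Agent.Helper84.Lam.thD (E.Bp z) *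
      (E.dp.eval z / E.d.eval z) ^ 2 * (Pool.Agent.Helper84.Lam.thD (E.Bp z) / E.dp.eval z ^ 2) =
      Pool.Agent.Helper84.Lam.thD (E.B z) / E.d.eval z ^ 2 := by
    field_simp
  rw [← e2, mul_pow, mul_pow]
  field_simp

/-- `Re G = log |jj| - log |jj₊|` -/
theorem re_G {z : ℂ} (hz : ‖z‖ ≤ 1) :
    (E.G z).re = Real.log ‖jj l E.b E.d z‖ - Real.log ‖jj l E.bp E.dp z‖ := by
  have h1 := congrArg norm (E.exp_G hz)
  rw [norm_mul, Complex.norm_exp] at h1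
  have h2 : 0 < ‖jj l E.bp E.dp z‖ := norm_pos_iff.2 (jj_ne E.pair' l hz)
  rw [← h1, Real.log_mul (Real.exp_pos _).ne' h2.ne', Real.log_exp]
  ring

theorem ps_small {z : ℂ} (hz : ‖z‖ ≤ 1) (hg : ‖E.g.eval z‖ ≤ 1 / 400) :
    ps (E.B z) (E.Bp z) ≤ 1.01 * ‖E.g.eval z‖ := by
  have h1 := step_ps E.pair (g := E.g) hz (by linarith)
  have hx := norm_nonneg (E.g.eval z)
  refine (show ps (E.B z) (E.Bp z) ≤ _ from h1).trans ?_
  rw [div_le_iff₀ (by linarith)]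
  nlinarith

theorem ps_le_hundred {z : ℂ} (hz : ‖z‖ ≤ 1) (hg : ‖E.g.eval z‖ ≤ 1 / 400) :
    ps (E.B z) (E.Bp z) ≤ 1 / 100 := by
  have := E.ps_small hz hg
  linarith

/-- the common form of the bounds -/
theorem lip_bound {F : ℂ → ℂ} {C : ℝ} (hC : 0 ≤ C)
    (hF : ∀ {w v : ℂ}, ‖w‖ < 1 → ‖v‖ < 1 → ps w v ≤ 1 / 100 → ‖F v - F w‖ ≤ C * YD w * ps w v)
    {z : ℂ} (hz : ‖z‖ ≤ 1) (hg : ‖E.g.eval z‖ ≤ 1 / 400) :
    ‖F (E.Bp z) - F (E.B z)‖ ≤ 20 * C * E.M * ‖E.g.eval z‖ := by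
  have hB : ‖E.B z‖ < 1 := Bq_lt E.pair hz
  have h1 := hF hB (E.Bp_lt hz) (E.ps_le_hundred hz hg)
  have h2 := E.Y_inner hz
  have h3 := E.ps_small hz hg
  have h4 : 0 ≤ ps (E.B z) (E.Bp z) := div_nonneg (norm_nonneg _) (norm_nonneg _)
  have h5 := Pool.Agent.Helper84.Lam.YD_lower hB
  have h6 := E.M_ge
  have hx := norm_nonneg (E.g.eval z)
  have h7 : YD (E.B z) * ps (E.B z) (E.Bp z) ≤ (19 * E.M) * (1.01 * ‖E.g.eval z‖) :=
    mul_le_mul h2 h3 h4 (by linarith)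
  have h8 : 0 ≤ E.M * ‖E.g.eval z‖ := mul_nonneg (by linarith) hx
  calc ‖F (E.Bp z) - F (E.B z)‖ ≤ C * YD (E.B z) * ps (E.B z) (E.Bp z) := h1
    _ = C * (YD (E.B z) * ps (E.B z) (E.Bp z)) := by ring
    _ ≤ C * ((19 * E.M) * (1.01 * ‖E.g.eval z‖)) := mul_le_mul_of_nonneg_left h7 hC
    _ = 19.19 * C * (E.M * ‖E.g.eval z‖) := by ring
    _ ≤ 20 * C * (E.M * ‖E.g.eval z‖) := by
        refine mul_le_mul_of_nonneg_right ?_ h8
        nlinarith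
    _ = 20 * C * E.M * ‖E.g.eval z‖ := by ring

theorem ld_bound {z : ℂ} (hz : ‖z‖ ≤ 1) (hg : ‖E.g.eval z‖ ≤ 1 / 400) :
    ‖E.ld z‖ ≤ 3 / 2 * ‖E.g.eval z‖ := by
  have h1 := E.dp_ratio hz
  have h2 := Complex.norm_log_one_add_half_le_self (z := E.dp.eval z / E.d.eval z - 1)
    (h1.trans (by linarith))
  rw [add_sub_cancel] at h2
  refine (show ‖E.ld z‖ ≤ _ from h2).trans ?_
  exact mul_le_mul_of_nonneg_left h1 (by norm_num)

theorem F3_bound {z : ℂ} (hz : ‖z‖ ≤ 1) (hg : ‖E.g.eval z‖ ≤ 1 / 400) :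
    ‖F3 (E.Bp z) - F3 (E.B z)‖ ≤ 2184000 * E.M * ‖E.g.eval z‖ := by
  have h1 := E.lip_bound (F := F3) (C := 109200) (by norm_num)
    (fun hw hv h => Pool.Agent.Helper84.Lam.F3_lip hw hv h) hz hg
  linarith

theorem L1_bound' {z : ℂ} (hz : ‖z‖ ≤ 1) (hg : ‖E.g.eval z‖ ≤ 1 / 400) :
    ‖L1 (E.Bp z) - L1 (E.B z)‖ ≤ 1640 * E.M * ‖E.g.eval z‖ := by
  have h1 := E.lip_bound (F := L1) (C := 82) (by norm_num)
    (fun hw hv h => Pool.Agent.Helper84.Lam.L1_lip hw hv h) hz hg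
  linarith

theorem G_bound {z : ℂ} (hz : ‖z‖ ≤ 1) (hg : ‖E.g.eval z‖ ≤ 1 / 400) :
    ‖E.G z‖ ≤ 10 ^ 7 * (((l : ℝ) + 1) * E.M) * ‖E.g.eval z‖ := by
  have h1 := E.L1_bound' hz hg
  have h2 := E.F3_bound hz hg
  have h3 := E.ld_bound hz hg
  have hx := norm_nonneg (E.g.eval z)
  have hM := E.M_ge
  have hl0 : (0 : ℝ) ≤ l := Nat.cast_nonneg l
  have h4 : ‖E.G z‖ ≤ ‖L1 (E.Bp z) - L1 (E.B z)‖ + l * ‖F3 (E.Bp z) - F3 (E.B z)‖ +
      2 * l * ‖E.ld z‖ := by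
    unfold G
    refine (norm_add_le _ _).trans (add_le_add ((norm_sub_le _ _).trans (add_le_add le_rfl ?_)) ?_)
    · rw [norm_mul, Complex.norm_natCast]
    · rw [norm_mul, norm_mul, Complex.norm_natCast, Complex.norm_ofNat]
  have h5 := mul_le_mul_of_nonneg_left h2 hl0
  have h6 := mul_le_mul_of_nonneg_left h3 (by positivity : (0 : ℝ) ≤ 2 * l)
  set x := ‖E.g.eval z‖
  have h7 : 0 ≤ (l : ℝ) * x := mul_nonneg hl0 hx
  have h8 : (l : ℝ) * x ≤ (l : ℝ) * x * E.M := by nlinarith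
  have h9 : 0 ≤ E.M * x := mul_nonneg (by linarith) hx
  have e1 : (l : ℝ) * (2184000 * E.M * x) = 2184000 * ((l : ℝ) * x * E.M) := by ring
  have e2 : 2 * (l : ℝ) * (3 / 2 * x) = 3 * ((l : ℝ) * x) := by ring
  have e3 : 10 ^ 7 * (((l : ℝ) + 1) * E.M) * x = 10 ^ 7 * ((l : ℝ) * x * E.M) + 10 ^ 7 * (E.M * x) := by
    ring
  have e4 : 1640 * E.M * x = 1640 * (E.M * x) := by ring
  rw [e1] at h5
  rw [e2] at h6
  rw [e4] at h1
  rw [e3]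
  linarith

theorem Q_bound {z : ℂ} (hz : ‖z‖ ≤ 1) (hg : ‖E.g.eval z‖ ≤ 1 / 400) :
    ‖E.Q z‖ ≤ 10 ^ 7 * E.M * ‖E.g.eval z‖ := by
  have h2 := E.F3_bound hz hg
  have h3 := E.ld_bound hz hg
  have hx := norm_nonneg (E.g.eval z)
  have hM := E.M_ge
  have h4 : ‖E.Q z‖ ≤ ‖F3 (E.Bp z) - F3 (E.B z)‖ + 2 * ‖E.ld z‖ := by
    unfold Q
    refine (norm_sub_le _ _).trans (add_le_add le_rfl ?_)
    rw [norm_mul, Complex.norm_ofNat]
  have h8 : ‖E.g.eval z‖ ≤ E.M * ‖E.g.eval z‖ := by nlinarith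
  nlinarith

theorem D2_bound {z : ℂ} (hz : ‖z‖ ≤ 1) (hg : ‖E.g.eval z‖ ≤ 1 / 400) :
    ‖E.D2 z‖ ≤ 2000 * E.M * ‖E.g.eval z‖ := by
  have h1 := E.lip_bound (F := LL) (C := 82) (by norm_num)
    (fun hw hv h => Pool.Agent.Helper84.Lam.LL_lip hw hv h) hz hg
  have hx := norm_nonneg (E.g.eval z)
  have hM := E.M_ge
  have h9 : 0 ≤ E.M * ‖E.g.eval z‖ := mul_nonneg (by linarith) hx
  refine (show ‖E.D2 z‖ ≤ _ from h1).trans ?_
  linarith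

theorem L1_bound {z : ℂ} (hz : ‖z‖ ≤ 1) (hg : ‖E.g.eval z‖ ≤ 1 / 400) :
    ‖L1 (E.Bp z) - L1 (E.B z)‖ ≤ 2000 * E.M * ‖E.g.eval z‖ := by
  have h1 := E.L1_bound' hz hg
  have hx := norm_nonneg (E.g.eval z)
  have hM := E.M_ge
  have h9 : 0 ≤ E.M * ‖E.g.eval z‖ := mul_nonneg (by linarith) hx
  refine h1.trans ?_
  linarith

theorem G_zero : E.G 0 = 0 := by
  have h1 : E.B 0 = 0 := Bq_zero E.core.b0
  have h2 : E.Bp 0 = 0 := Bq_zero E.bp_zero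
  have h3 : E.ld 0 = 0 := by
    unfold ld dp
    rw [eval_add, eval_mul, E.g_zero, zero_mul, add_zero, div_self (E.pair.ne 0 (by simp)),
      Complex.log_one]
  unfold G
  rw [h1, h2, h3]
  ring

end Pool.Agent.Helper61.QF.Ev
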