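import Pool.Agent.Helper61.QF.Ev21
import Pool.Agent.Helper61.QF.Ev6

/-!
# Ev22 (MP_78803a, RELEASE): the pointwise estimate in the cusp of type `τ`

Proof. `identity`: `log (2π Y) = log (1-|v|²) + log |thD v| + log hD v` (`Helper84.PD.YD_thD`) at `v = B`, `B₊`;
`1 - |B|² = dl/|d|²` (`one_sub_Bq`), `dl_new`, `Re F3 = log |thD|` (`re_F3`), `E.re_ld`.

`type_bound`: put `X = log Y₊ - Re Q - [τ = 2] Re D2 = log Y + log (1-β²) + (log hD(B₊) - log hD(B)) - [τ=2] Re D2`.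
* crude: `X ≤ log M + 0 + (7 M + 2) + 10.5 M ≤ 20 M` (`lam_in`, `lamp_in`, `hD ≥ 2`); if `at' τ ≤ e^(-p)` we are done by
  `E.exp_pM`.
* if `at' τ > e^(-p)`: by `local_zero` there is `w` on the circle, `|w - ζ| < δ`, with `ut τ w ≠ 0`, so
  `C₁/2 ≤ Y(B w) ≤ R/2` and type `τ` at `w`, hence at `ζ` (`xt_close`), `0.49 C₁ ≤ Y(Bζ) ≤ 0.51 R`.
  Then `xt τ (B₊ ζ) ≤ 1/8` (`type_inact` or `active_of_type`). For `τ = 0, 1`: `hD(B₊) ≤ 2.25`, `hD(B) ≥ 2`.
  For `τ = 2`: `hD(B₊) ≤ 2 + 2|λ'| ≤ (9/4)|λ'|`, `hD(B) ≥ 2|λ|`, `Re D2 = log |λ'| - log |λ|`. In all cases the hD-part is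
  `≤ log (9/8) ≤ 1/2`.
  If `Y(Bζ) < 1.02 C₁`: `log Y + log (1-β²) ≤ log (2 C₁)`. If `Y ≥ 1.02 C₁`: `E.β_lower`:
  `Y (1-β²) ≤ 2 Y (1-β) ≤ 2.04 c₁ + 2 Y e^(-p) ≤ 3 c₁ ≤ 2 C₁`.
-/

set_option autoImplicit false

open Polynomial Complex Metric
open Pool.Agent.Helper81.QF Pool.Agent.Helper29.QF
open Pool.Agent.Helper84.Lam (YD lamD LL L1 F3 ps)

namespace Pool.Agent.Helper61.QF.Ev

variable {l : ℕ} (E : Ev l)

theorem identity {z : ℂ} (hz : ‖z‖ = 1) :
    Real.log (YD (E.Bp z)) = Real.log (YD (E.B z)) + Real.log (1 - E.β z ^ 2) + (E.Q z).re +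
      (Real.log (hD (E.Bp z)) - Real.log (hD (E.B z))) := by
  have hB : ‖E.B z‖ < 1 := E.B_lt hz.le
  have hBp : ‖E.Bp z‖ < 1 := E.Bp_lt hz.le
  have hd : ‖E.d.eval z‖ ≠ 0 := norm_ne_zero_iff.2 (E.pair.ne z hz.le)
  have hdp : ‖E.dp.eval z‖ ≠ 0 := norm_ne_zero_iff.2 (E.pair'.ne z hz.le)
  have hdl : dl E.b E.d z ≠ 0 := (dl_pos E.pair hz.le).ne'
  have hβ0 := E.β_nonneg z
  have hβ1 := E.β_lt hz
  have hβ : 1 - E.β z ^ 2 ≠ 0 := by
    have : 0 < 1 - E.β z ^ 2 := by nlinarith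
    exact this.ne'
  have hpi : (2 * Real.pi) ≠ 0 := by positivity
  have key : ∀ {v : ℂ}, ‖v‖ < 1 → Real.log (2 * Real.pi) + Real.log (YD v) =
      Real.log (1 - ‖v‖ ^ 2) + Real.log ‖Pool.Agent.Helper84.Lam.thD v‖ + Real.log (hD v) := by
    intro v hv
    have h1 := Helper84.PD.YD_thD hv
    have h2 := (Helper84.PD.YD_pos hv).ne'
    have h3 := (Helper84.PD.one_sub_sq hv).ne'
    have h4 : ‖Pool.Agent.Helper84.Lam.thD v‖ ≠ 0 :=
      norm_ne_zero_iff.2 (Pool.Agent.Helper84.Lam.thD_ne hv)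
    have h5 : hD v ≠ 0 := by
      have := Helper84.PD.two_le_hD v
      linarith
    rw [← Real.log_mul hpi h2, ← Real.log_mul h3 h4, ← Real.log_mul (mul_ne_zero h3 h4) h5]
    exact congrArg Real.log h1
  have k1 := key hB
  have k2 := key hBp
  have e1 : Real.log (1 - ‖E.B z‖ ^ 2) =
      Real.log (dl E.b E.d z) - 2 * Real.log ‖E.d.eval z‖ := by
    have := Helper84.PD.one_sub_Bq E.pair hz.le
    rw [show 1 - ‖E.B z‖ ^ 2 = dl E.b E.d z / ‖E.d.eval z‖ ^ 2 from this,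
      Real.log_div hdl (pow_ne_zero _ hd), Real.log_pow]
    push_cast
    ring
  have e2 : Real.log (1 - ‖E.Bp z‖ ^ 2) =
      Real.log (1 - E.β z ^ 2) + Real.log (dl E.b E.d z) - 2 * Real.log ‖E.dp.eval z‖ := by
    have := Helper84.PD.one_sub_Bq E.pair' hz.le
    rw [show 1 - ‖E.Bp z‖ ^ 2 = dl E.bp E.dp z / ‖E.dp.eval z‖ ^ 2 from this, E.dl_new hz,
      Real.log_div (mul_ne_zero hβ hdl) (pow_ne_zero _ hdp), Real.log_pow,
      Real.log_mul hβ hdl]
    push_cast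
    ring
  have f1 := Pool.Agent.Helper84.Lam.re_F3 hB
  have f2 := Pool.Agent.Helper84.Lam.re_F3 hBp
  have g1 := E.re_ld hz.le
  have q : (E.Q z).re = (F3 (E.Bp z)).re - (F3 (E.B z)).re - 2 * (E.ld z).re := by
    unfold Q
    simp [Complex.sub_re, Complex.mul_re]
  rw [q, f1, f2, g1]
  rw [e1] at k1
  rw [e2] at k2
  linarith

theorem at_le_one (τ : Fin 3) {z : ℂ} (hz : ‖z‖ = 1) : E.at' τ z ≤ 1 := by
  have h1 := E.sum_a hz
  have h2 := E.alow_nonneg z
  have h3 := E.ahigh_nonneg z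
  have h4 : E.at' τ z ≤ ∑ τ : Fin 3, E.at' τ z :=
    Finset.single_le_sum (f := fun τ => E.at' τ z) (fun i _ => E.at_nonneg i z)
      (Finset.mem_univ τ)
  linarith

theorem D2_re {z : ℂ} (hz : ‖z‖ ≤ 1) :
    (E.D2 z).re = Real.log ‖lamD (E.Bp z)‖ - Real.log ‖lamD (E.B z)‖ := by
  unfold D2
  rw [Complex.sub_re, Pool.Agent.Helper84.Lam.re_LL (E.B_lt hz),
    Pool.Agent.Helper84.Lam.re_LL (E.Bp_lt hz)]

theorem hD_part (τ : Fin 3) {z : ℂ} (hz : ‖z‖ ≤ 1) (hx : xt τ (E.Bp z) ≤ 1 / 8) :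
    Real.log (hD (E.Bp z)) - Real.log (hD (E.B z)) - (if τ = 2 then (E.D2 z).re else 0) ≤
      1 / 2 := by
  have h2 : 2 ≤ hD (E.B z) := Helper84.PD.two_le_hD _
  have h2' : 2 ≤ hD (E.Bp z) := Helper84.PD.two_le_hD _
  have l98 : Real.log (9 / 8) ≤ 1 / 2 := by
    have := Real.log_le_sub_one_of_pos (show (0 : ℝ) < 9 / 8 by norm_num)
    linarith
  have hsmall : hD (E.Bp z) ≤ 9 / 4 →
      Real.log (hD (E.Bp z)) - Real.log (hD (E.B z)) ≤ 1 / 2 := by
    intro h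
    have h3 : Real.log (hD (E.Bp z)) ≤ Real.log (9 / 4) := Real.log_le_log (by linarith) h
    have h4 : Real.log 2 ≤ Real.log (hD (E.B z)) := Real.log_le_log (by norm_num) h2
    have h5 : Real.log (9 / 4) = Real.log 2 + Real.log (9 / 8) := by
      rw [← Real.log_mul (by norm_num) (by norm_num)]
      norm_num
    linarith
  have tri : ‖lamD (E.Bp z)‖ ≤ 1 + ‖1 - lamD (E.Bp z)‖ ∧
      ‖1 - lamD (E.Bp z)‖ ≤ 1 + ‖lamD (E.Bp z)‖ := by
    constructor
    · calc ‖lamD (E.Bp z)‖ = ‖1 - (1 - lamD (E.Bp z))‖ := by rw [sub_sub_cancel]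
        _ ≤ ‖(1 : ℂ)‖ + ‖1 - lamD (E.Bp z)‖ := norm_sub_le _ _
        _ = _ := by rw [norm_one]
    · calc ‖1 - lamD (E.Bp z)‖ ≤ ‖(1 : ℂ)‖ + ‖lamD (E.Bp z)‖ := norm_sub_le _ _
        _ = _ := by rw [norm_one]
  have hDe : hD (E.Bp z) = 1 + ‖lamD (E.Bp z)‖ + ‖1 - lamD (E.Bp z)‖ := rfl
  fin_cases τ
  · simp only [xt, Fin.zero_eta, if_true] at hx
    simp only [Fin.zero_eta, show ((0 : Fin 3) = 2) = False by simp, if_false, sub_zero]
    apply hsmall
    rw [hDe]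
    linarith [tri.1]
  · simp only [xt, Fin.mk_one, show ((1 : Fin 3) = 0) = False by simp, if_false, if_true] at hx
    simp only [Fin.mk_one, show ((1 : Fin 3) = 2) = False by simp, if_false, sub_zero]
    apply hsmall
    rw [hDe]
    linarith [tri.2]
  · have hx' : ‖lamD (E.Bp z)‖⁻¹ ≤ 1 / 8 := hx
    have hpos : 0 < ‖lamD (E.Bp z)‖ := Helper84.PD.lamD_pos (E.Bp_lt hz)
    have hpos0 : 0 < ‖lamD (E.B z)‖ := Helper84.PD.lamD_pos (E.B_lt hz)
    have h8 : 8 ≤ ‖lamD (E.Bp z)‖ := by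
      have := (inv_le_comm₀ hpos (by norm_num : (0 : ℝ) < 1 / 8)).1 hx'
      norm_num at this
      exact this
    have e3 : (if ((2 : Fin 3) = 2) then (E.D2 z).re else 0) = (E.D2 z).re := if_pos rfl
    show Real.log (hD (E.Bp z)) - Real.log (hD (E.B z)) -
      (if ((2 : Fin 3) = 2) then (E.D2 z).re else 0) ≤ 1 / 2
    rw [e3, E.D2_re hz]
    have h3 : hD (E.Bp z) ≤ 9 / 4 * ‖lamD (E.Bp z)‖ := by
      rw [hDe]
      linarith [tri.2]
    have h4 : 2 * ‖lamD (E.B z)‖ ≤ hD (E.B z) := by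
      have : ‖lamD (E.B z)‖ ≤ 1 + ‖1 - lamD (E.B z)‖ := by
        calc ‖lamD (E.B z)‖ = ‖1 - (1 - lamD (E.B z))‖ := by rw [sub_sub_cancel]
          _ ≤ ‖(1 : ℂ)‖ + ‖1 - lamD (E.B z)‖ := norm_sub_le _ _
          _ = _ := by rw [norm_one]
      have hDe0 : hD (E.B z) = 1 + ‖lamD (E.B z)‖ + ‖1 - lamD (E.B z)‖ := rfl
      rw [hDe0]
      linarith
    have h5 : Real.log (hD (E.Bp z)) ≤ Real.log (9 / 4) + Real.log ‖lamD (E.Bp z)‖ := by
      rw [← Real.log_mul (by norm_num) hpos.ne']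
      exact Real.log_le_log (by linarith) h3
    have h6 : Real.log 2 + Real.log ‖lamD (E.B z)‖ ≤ Real.log (hD (E.B z)) := by
      rw [← Real.log_mul (by norm_num) hpos0.ne']
      exact Real.log_le_log (by positivity) h4
    have h7 : Real.log (9 / 4) = Real.log 2 + Real.log (9 / 8) := by
      rw [← Real.log_mul (by norm_num) (by norm_num)]
      norm_num
    linarith

theorem crude (τ : Fin 3) {z : ℂ} (hz : ‖z‖ = 1) :
    Real.log (YD (E.Bp z)) - (E.Q z).re - (if τ = 2 then (E.D2 z).re else 0) ≤ 20 * E.M := by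
  have hid := E.identity hz
  have hM := E.M_ge
  have hβ0 := E.β_nonneg z
  have hβ1 := E.β_lt hz
  have h1 : Real.log (1 - E.β z ^ 2) ≤ 0 := by
    apply Real.log_nonpos
    · nlinarith
    · nlinarith
  have h2 : Real.log (YD (E.B z)) ≤ E.M := by
    have h3 := Real.log_le_sub_one_of_pos (Helper84.PD.YD_pos (E.B_lt hz.le))
    have h4 := E.Y_circle hz
    linarith
  have h3 : 0 ≤ Real.log (hD (E.B z)) := by
    apply Real.log_nonneg
    have := Helper84.PD.two_le_hD (E.B z)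
    linarith
  have hl := E.lamp_in hz.le
  have hl0 := E.lam_in hz.le
  have h4 : Real.log (hD (E.Bp z)) ≤ 7 * E.M + 2 := by
    have h5 : hD (E.Bp z) ≤ Real.exp (7 * E.M + 2) := by
      have hDe : hD (E.Bp z) = 1 + ‖lamD (E.Bp z)‖ + ‖1 - lamD (E.Bp z)‖ := rfl
      rw [hDe, Real.exp_add]
      have h6 : 1 ≤ Real.exp (7 * E.M) := Real.one_le_exp (by linarith)
      have h7 : 3 ≤ Real.exp 2 := by
        have := Real.add_one_le_exp (2 : ℝ)
        linarith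
      have h8 : Real.exp (7 * E.M) * 3 ≤ Real.exp (7 * E.M) * Real.exp 2 :=
        mul_le_mul_of_nonneg_left h7 (Real.exp_pos _).le
      linarith [hl.2.1, hl.2.2.2]
    have h9 : 0 < hD (E.Bp z) := by
      have := Helper84.PD.two_le_hD (E.Bp z)
      linarith
    calc Real.log (hD (E.Bp z)) ≤ Real.log (Real.exp (7 * E.M + 2)) := Real.log_le_log h9 h5
      _ = _ := Real.log_exp _
  have h5 : -(if τ = 2 then (E.D2 z).re else 0) ≤ 10.5 * E.M := by
    split_ifs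
    · rw [E.D2_re hz.le]
      have a1 : -(7 * E.M) ≤ Real.log ‖lamD (E.Bp z)‖ := by
        rw [← Real.log_exp (-(7 * E.M))]
        exact Real.log_le_log (Real.exp_pos _) hl.1
      have a2 : Real.log ‖lamD (E.B z)‖ ≤ 3.5 * E.M := by
        rw [← Real.log_exp (3.5 * E.M)]
        exact Real.log_le_log (Helper84.PD.lamD_pos (E.B_lt hz.le)) hl0.2.1
      linarith
    · linarith
  linarith

theorem type_bound (τ : Fin 3) {z : ℂ} (hz : ‖z‖ = 1) :
    E.at' τ z * (Real.log (YD (E.Bp z)) - (E.Q z).re - (if τ = 2 then (E.D2 z).re else 0)) ≤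
      E.at' τ z * (Real.log (2 * E.C₁) + 1) + 1 := by
  have ha0 := E.at_nonneg τ z
  have hM := E.M_ge
  have hC := E.C_ge
  have hc := E.c_ge
  have hCpos : 0 ≤ Real.log (2 * E.C₁) := Real.log_nonneg (by linarith)
  have hRHS : 0 ≤ E.at' τ z * (Real.log (2 * E.C₁) + 1) := mul_nonneg ha0 (by linarith)
  have hexp := E.exp_pM
  have hMl := E.M_le_lM
  have hep := Real.exp_pos (-(E.p : ℝ))
  have heM : Real.exp (-(E.p : ℝ)) * E.M ≤ 1 / 10 ^ 12 := by
    have : Real.exp (-(E.p : ℝ)) * E.M ≤ Real.exp (-(E.p : ℝ)) * (((l : ℝ) + 1) * E.M) :=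
      mul_le_mul_of_nonneg_left (by linarith) hep.le
    linarith
  by_cases hsm : E.at' τ z ≤ Real.exp (-E.p)
  · have h1 := E.crude τ hz
    have h2 : E.at' τ z *
        (Real.log (YD (E.Bp z)) - (E.Q z).re - (if τ = 2 then (E.D2 z).re else 0)) ≤
        E.at' τ z * (20 * E.M) := mul_le_mul_of_nonneg_left h1 ha0
    have h3 : E.at' τ z * (20 * E.M) ≤ Real.exp (-E.p) * (20 * E.M) :=
      mul_le_mul_of_nonneg_right hsm (by linarith)
    have h4 : (1 : ℝ) / 10 ^ 12 ≤ 1 / 20 := by norm_num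
    linarith
  · have hex : ∃ w : ℂ, ‖w‖ = 1 ∧ ‖w - z‖ < E.δ ∧ E.ut τ w ≠ 0 := by
      by_contra hno
      push Not at hno
      exact hsm (E.local_zero (E.meas_ut τ) (fun u _ => E.ut_01 τ u) hz
        (fun w h1 h2 => hno w h1 h2))
    obtain ⟨w, hw1, hwz, hut⟩ := hex
    have hcond : ‖w‖ = 1 ∧ E.C₁ / 2 ≤ YD (E.B w) ∧ YD (E.B w) ≤ E.R / 2 ∧
        xt τ (E.B w) ≤ 1 / 10 := by
      by_contra hno
      apply hut
      unfold ut
      rw [if_neg hno]
    obtain ⟨-, hY1, hY2, hxt⟩ := hcond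
    have hδ := E.δ_pos
    have hzw : ‖z - w‖ ≤ 3 * E.δ := by
      rw [norm_sub_rev]
      linarith
    have hty := (E.xt_close hz.le hw1.le hzw (by linarith) hxt).1
    have hYc := E.Y_close hz.le hw1.le hzw
    rw [abs_le] at hYc
    have hYlow : 0.49 * E.C₁ ≤ YD (E.B z) := by linarith [hYc.1]
    have hYhigh : YD (E.B z) ≤ 0.51 * E.R := by
      have := E.R_ge
      linarith [hYc.2]
    have hx8 : xt τ (E.Bp z) ≤ 1 / 8 := by
      by_cases hi : E.Inact z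
      · exact E.type_inact hz hi (by linarith) hty
      · refine ((E.active_of_type hz hi hty).2.2).trans ?_
        have h2l : (2 : ℝ) ≤ 2 ^ l := by
          calc (2 : ℝ) = 2 ^ 1 := by norm_num
            _ ≤ 2 ^ l := pow_le_pow_right₀ (by norm_num) E.hl
        exact div_le_div_of_nonneg_left (by norm_num) (by norm_num) (by linarith)
    have hpart := E.hD_part τ hz.le hx8
    have hid := E.identity hz
    have hβ0 := E.β_nonneg z
    have hβ1 := E.β_lt hz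
    have hYpos := Helper84.PD.YD_pos (E.B_lt hz.le)
    have hβpos : 0 < 1 - E.β z ^ 2 := by nlinarith
    have hmain : Real.log (YD (E.B z)) + Real.log (1 - E.β z ^ 2) ≤ Real.log (2 * E.C₁) := by
      rw [← Real.log_mul hYpos.ne' hβpos.ne']
      apply Real.log_le_log (mul_pos hYpos hβpos)
      by_cases hY : YD (E.B z) < 1.02 * E.C₁
      · nlinarith
      · have hY' : 1.02 * E.C₁ ≤ YD (E.B z) := not_lt.1 hY
        have hR := E.R_ge
        have h1 := E.β_lower hz hY' (by linarith)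
        have h2 : YD (E.B z) * (1 - E.β z) ≤ 1.02 * E.c₁ + YD (E.B z) * Real.exp (-E.p) := by
          have h3 := mul_le_mul_of_nonneg_left h1 hYpos.le
          have h4 : YD (E.B z) * (1.02 * E.c₁ / YD (E.B z) + Real.exp (-E.p)) =
              1.02 * E.c₁ + YD (E.B z) * Real.exp (-E.p) := by
            field_simp
          linarith
        have h5 : YD (E.B z) * Real.exp (-E.p) ≤ 1 := by
          have h6 := E.Y_circle hz
          have h7 : YD (E.B z) * Real.exp (-E.p) ≤ E.M * Real.exp (-E.p) :=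
            mul_le_mul_of_nonneg_right (by linarith) hep.le
          have h8 : (1 : ℝ) / 10 ^ 12 ≤ 1 := by norm_num
          linarith
        have h9 : YD (E.B z) * (1 - E.β z ^ 2) ≤ 2 * (YD (E.B z) * (1 - E.β z)) := by
          have h10 : 0 ≤ YD (E.B z) * (1 - E.β z) := mul_nonneg hYpos.le (by linarith)
          nlinarith
        have h11 := E.hC
        linarith
    have hX : Real.log (YD (E.Bp z)) - (E.Q z).re - (if τ = 2 then (E.D2 z).re else 0) ≤
        Real.log (2 * E.C₁) + 1 := by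
      linarith
    have := mul_le_mul_of_nonneg_left hX ha0
    linarith

end Pool.Agent.Helper61.QF.Ev
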