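import Pool.Agent.Helper61.QF.Ev6
import Pool.Agent.Helper16.T78.Div

/-!
# Ev7 (MP_78803a, EVENT): factors `z^K`

Proof.
* `exists_factor`: near `0`, `F = z^K h` with `h` analytic, since the order is at least `K`
  (`natCast_le_analyticOrderAt`; a nonzero coefficient of index `< K` would contradict the bound);
  put `G0 z = h 0` at `z = 0`, `F z / z^K` elsewhere (`K ≥ 1`; for `K = 0` take `F`).
* `iter_factor`: induction on `l`: `deriv (z^K F0) = z^(K-1) (K F0 + z F0')`, the identity holds for all `z`, so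
  derivatives may be taken everywhere in the closed ball (analytic on a neighbourhood: `F0` is analytic at points of
  the closed ball; work with `∀ z ∈ closedBall, ∀ᶠ w in 𝓝 z` or with an open set containing the ball).
* `g_pow`: `E.g_eval`, `‖chi‖ ≤ 1` on the circle (`chi_disc`, `E.abs_v_le`), maximum principle.
* `G_factor` .. : `exists_factor` with `E.G_bound` near `0` (where `|z|^(N-kd) ≤ |z| ≤ 1/400`), `E.g_pow`;
  `BpB_factor`: `Helper29.QF.step_B` near `0` (`|g| ≤ 1/2`).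
-/

set_option autoImplicit false

open Polynomial Complex Metric
open Pool.Agent.Helper81.QF Pool.Agent.Helper29.QF
open Pool.Agent.Helper84.Lam (YD lamD LL L1 F3 ps)

namespace Pool.Agent.Helper61.QF

theorem exists_factor {F : ℂ → ℂ} (hF : AnalyticOnNhd ℂ F (closedBall 0 1)) {K : ℕ} {C ε : ℝ}
    (hε : 0 < ε) (h : ∀ z : ℂ, ‖z‖ ≤ ε → ‖F z‖ ≤ C * ‖z‖ ^ K) :
    ∃ F0 : ℂ → ℂ, AnalyticOnNhd ℂ F0 (closedBall 0 1) ∧ ∀ z : ℂ, F z = z ^ K * F0 z := by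
  refine Pool.Agent.Helper16.T78.exists_div hF (by simp) (Asymptotics.IsBigO.of_bound C ?_)
  have h1 : ∀ᶠ z in nhds (0 : ℂ), z ∈ closedBall (0 : ℂ) ε := closedBall_mem_nhds 0 hε
  filter_upwards [h1] with z hz
  have hz' : ‖z‖ ≤ ε := by simpa using hz
  simpa using h z hz'

theorem iter_factor_aux {F F0 : ℂ → ℂ} (hF0 : AnalyticOnNhd ℂ F0 (closedBall 0 1)) {K : ℕ}
    (h : ∀ z : ℂ, F z = z ^ K * F0 z) (l : ℕ) (hlK : l ≤ K) :
    ∃ F1 : ℂ → ℂ, AnalyticOnNhd ℂ F1 (closedBall 0 1) ∧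
      ∀ z ∈ closedBall (0 : ℂ) 1, ∀ᶠ w in nhds z, iteratedDeriv l F w = w ^ (K - l) * F1 w := by
  induction l with
  | zero =>
    refine ⟨F0, hF0, fun z _ => Filter.Eventually.of_forall fun w => ?_⟩
    rw [iteratedDeriv_zero, Nat.sub_zero]
    exact h w
  | succ l ih =>
    obtain ⟨F1, h1, h2⟩ := ih (by omega)
    refine ⟨fun z => ((K - l : ℕ) : ℂ) * F1 z + z * deriv F1 z, ?_, ?_⟩
    · intro z hz
      exact (analyticAt_const.mul (h1 z hz)).add (analyticAt_id.mul (h1 z hz).deriv)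
    · intro z hz
      filter_upwards [(h1 z hz).eventually_analyticAt, (h2 z hz).eventually_nhds] with w hw hw2
      rw [iteratedDeriv_succ]
      have e1 : iteratedDeriv l F =ᶠ[nhds w] fun u => u ^ (K - l) * F1 u := hw2
      rw [e1.deriv_eq]
      have e2 : K - l = (K - (l + 1)) + 1 := by omega
      have h5 : HasDerivAt (fun u : ℂ => u ^ (K - l) * F1 u) _ w :=
        (hasDerivAt_pow (K - l) w).mul hw.differentiableAt.hasDerivAt
      rw [h5.deriv]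
      have e3 : w ^ (K - l) = w ^ (K - (l + 1)) * w := by
        rw [← pow_succ]
        congr 1
      have e4 : w ^ (K - l - 1) = w ^ (K - (l + 1)) := by
        congr 1
      rw [e3, e4]
      ring

theorem iter_factor {F F0 : ℂ → ℂ} (hF0 : AnalyticOnNhd ℂ F0 (closedBall 0 1)) {K l : ℕ}
    (hlK : l ≤ K) (h : ∀ z : ℂ, F z = z ^ K * F0 z) :
    ∃ F1 : ℂ → ℂ, AnalyticOnNhd ℂ F1 (closedBall 0 1) ∧
      ∀ z : ℂ, ‖z‖ ≤ 1 → iteratedDeriv l F z = z ^ (K - l) * F1 z := by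
  obtain ⟨F1, h1, h2⟩ := iter_factor_aux hF0 h l hlK
  exact ⟨F1, h1, fun z hz => (h2 z (by simpa using hz)).self_of_nhds⟩

namespace Ev

variable {l : ℕ} (E : Ev l)

theorem g_pow {z : ℂ} (hz : ‖z‖ ≤ 1) : ‖E.g.eval z‖ ≤ ‖z‖ ^ (E.N - kd E.n E.p) := by
  rw [E.g_eval, norm_mul, norm_pow]
  have h1 : ‖(chi E.n E.p E.v).eval z‖ ≤ 1 :=
    Pool.Agent.Helper58.LD.norm_le_of_circle (poly_an _ _)
      (fun w hw => chi_disc E.one_le_n E.p E.meas_v (V := 1) (fun u _ => E.abs_v_le u) hw) hz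
  have h2 : 0 ≤ ‖z‖ ^ (E.N - kd E.n E.p) := by positivity
  nlinarith

theorem K_pos : 1 ≤ E.N - kd E.n E.p := by
  have := E.kd_lt
  omega

theorem pow_small {z : ℂ} (hz : ‖z‖ ≤ 1 / 400) : ‖z‖ ^ (E.N - kd E.n E.p) ≤ 1 / 400 := by
  have h1 := pow_le_pow_of_le_one (norm_nonneg z) (hz.trans (by norm_num)) E.K_pos
  rw [pow_one] at h1
  exact h1.trans hz

theorem g_small {z : ℂ} (hz : ‖z‖ ≤ 1 / 400) : ‖E.g.eval z‖ ≤ 1 / 400 :=
  (E.g_pow (hz.trans (by norm_num))).trans (E.pow_small hz)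

theorem G_factor : ∃ G0 : ℂ → ℂ, AnalyticOnNhd ℂ G0 (closedBall 0 1) ∧
    ∀ z : ℂ, E.G z = z ^ (E.N - kd E.n E.p) * G0 z := by
  refine exists_factor E.G_an (ε := 1 / 400) (C := 10 ^ 7 * (((l : ℝ) + 1) * E.M)) (by norm_num)
    (fun z hz => ?_)
  have hz1 : ‖z‖ ≤ 1 := hz.trans (by norm_num)
  have hM := E.M_ge
  exact (E.G_bound hz1 (E.g_small hz)).trans
    (mul_le_mul_of_nonneg_left (E.g_pow hz1) (by positivity))

theorem Q_factor : ∃ Q0 : ℂ → ℂ, AnalyticOnNhd ℂ Q0 (closedBall 0 1) ∧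
    ∀ z : ℂ, E.Q z = z ^ (E.N - kd E.n E.p) * Q0 z := by
  refine exists_factor E.Q_an (ε := 1 / 400) (C := 10 ^ 7 * E.M) (by norm_num) (fun z hz => ?_)
  have hz1 : ‖z‖ ≤ 1 := hz.trans (by norm_num)
  have hM := E.M_ge
  exact (E.Q_bound hz1 (E.g_small hz)).trans
    (mul_le_mul_of_nonneg_left (E.g_pow hz1) (by positivity))

theorem D2_factor : ∃ D0 : ℂ → ℂ, AnalyticOnNhd ℂ D0 (closedBall 0 1) ∧
    ∀ z : ℂ, E.D2 z = z ^ (E.N - kd E.n E.p) * D0 z := by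
  refine exists_factor E.D2_an (ε := 1 / 400) (C := 2000 * E.M) (by norm_num) (fun z hz => ?_)
  have hz1 : ‖z‖ ≤ 1 := hz.trans (by norm_num)
  have hM := E.M_ge
  exact (E.D2_bound hz1 (E.g_small hz)).trans
    (mul_le_mul_of_nonneg_left (E.g_pow hz1) (by positivity))

theorem BpB_factor : ∃ h : ℂ → ℂ, AnalyticOnNhd ℂ h (closedBall 0 1) ∧
    ∀ z : ℂ, E.Bp z - E.B z = z ^ (E.N - kd E.n E.p) * h z := by
  have han : AnalyticOnNhd ℂ (fun z => E.Bp z - E.B z) (closedBall 0 1) := fun z hz =>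
    (Bq_an E.pair' z hz).sub (Bq_an E.pair z hz)
  refine exists_factor han (ε := 1 / 400) (C := 2) (by norm_num) (fun z hz => ?_)
  have hz1 : ‖z‖ ≤ 1 := hz.trans (by norm_num)
  have h1 := step_B E.pair (g := E.g) hz1 (E.g_lt hz1)
  have h2 := E.g_small hz
  have h3 := E.g_pow hz1
  have hx := norm_nonneg (E.g.eval z)
  refine (show ‖E.Bp z - E.B z‖ ≤ _ from h1).trans ?_
  have h4 : ‖E.g.eval z‖ / (1 - ‖E.g.eval z‖) ≤ 2 * ‖E.g.eval z‖ := by
    rw [div_le_iff₀ (by linarith)]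
    nlinarith
  have h5 : 1 - ‖Bq E.b E.d z‖ ^ 2 ≤ 1 := by
    have := sq_nonneg ‖Bq E.b E.d z‖
    linarith
  have h6 : 0 ≤ 1 - ‖Bq E.b E.d z‖ ^ 2 := by
    have h7 := Bq_lt E.pair hz1
    have h8 := norm_nonneg (Bq E.b E.d z)
    nlinarith
  calc ‖E.g.eval z‖ / (1 - ‖E.g.eval z‖) * (1 - ‖Bq E.b E.d z‖ ^ 2)
      ≤ 2 * ‖E.g.eval z‖ * 1 := mul_le_mul h4 h5 h6 (by linarith)
    _ ≤ 2 * ‖z‖ ^ (E.N - kd E.n E.p) := by linarith

end Ev

end Pool.Agent.Helper61.QF
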