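import Pool.Agent.Helper61.QF.Ev22
import Pool.Agent.Helper61.QF.Ev7

/-!
# Ev23 (MP_78803a, RELEASE): the mean of `log Y₊`

Proof.
* `mean_Q`, `mean_D2`: `Helper29.QF.mean_cf_re` with `E.Q_factor`, `E.D2_factor`, `E.kd_lt` (analytic near the closed
  disc gives `DiffContOnCl`).
* `release`: `log Y₊ = (Σ at' + alow + ahigh) log Y₊`; by `type_bound`, `low_bound`, `high_bound` pointwise
  `log Y₊ ≤ Σ_τ (at' (log (2C₁) + 1) + 1 + at' Re Q) + at' 2 Re D2 + alow log C₁ + 1 + log M (e^(-p) + 8 (Hh + 4)/R)`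
  `≤ (log (2C₁) + 1) + 3 + log (2 C₁) + 1 + Σ at' Re Q + at' 2 Re D2 + log M (..)`; take means (all functions are
  continuous on the circle: `cf_cont`, `Helper84.PD.cont_log_YD`, `cont_Hh`, `avg_mono`, `ci'`).
-/

set_option autoImplicit false

open Polynomial Complex Metric
open Pool.Agent.Helper81.QF Pool.Agent.Helper29.QF
open Pool.Agent.Helper84.Lam (YD lamD LL L1 F3 ps)

namespace Pool.Agent.Helper61.QF.Ev

variable {l : ℕ} (E : Ev l)

private theorem ut_abs (τ : Fin 3) (w : ℂ) (_ : ‖w‖ = 1) : |E.ut τ w| ≤ 1 := by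
  have h := E.ut_01 τ w
  rw [abs_of_nonneg h.1]
  exact h.2

theorem mean_Q (τ : Fin 3) :
    Real.circleAverage (fun z => E.at' τ z * (E.Q z).re) 0 1 = 0 := by
  obtain ⟨Q0, h1, h2⟩ := E.Q_factor
  exact mean_cf_re (E.meas_ut τ) (E.ut_abs τ) (g := E.Q) E.kd_lt
    (h1.differentiableOn.diffContOnCl_ball le_rfl) (fun z _ => h2 z)

theorem mean_D2 (τ : Fin 3) :
    Real.circleAverage (fun z => E.at' τ z * (E.D2 z).re) 0 1 = 0 := by
  obtain ⟨Q0, h1, h2⟩ := E.D2_factor
  exact mean_cf_re (E.meas_ut τ) (E.ut_abs τ) (g := E.D2) E.kd_lt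
    (h1.differentiableOn.diffContOnCl_ball le_rfl) (fun z _ => h2 z)

private theorem at_cont (τ : Fin 3) : ContinuousOn (E.at' τ) (sphere 0 1) :=
  cf_cont (E.meas_ut τ) (E.ut_abs τ)

private theorem re_cont {F : ℂ → ℂ} (hF : AnalyticOnNhd ℂ F (closedBall 0 1)) :
    ContinuousOn (fun z => (F z).re) (sphere 0 1) :=
  Complex.continuous_re.comp_continuousOn (hF.continuousOn.mono sphere_subset_closedBall)

private theorem pointwise {z : ℂ} (hz : ‖z‖ = 1) :
    Real.log (YD (E.Bp z)) ≤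
      (Real.log (2 * E.C₁) + 5 + Real.log E.M * (Real.exp (-E.p) + 32 / E.R)) +
        (E.at' 0 z * (E.Q z).re + (E.at' 1 z * (E.Q z).re + (E.at' 2 z * (E.Q z).re +
          (E.at' 2 z * (E.D2 z).re + (8 * Real.log E.M / E.R) * Hh (E.B z))))) := by
  have t0 := E.type_bound 0 hz
  have t1 := E.type_bound 1 hz
  have t2 := E.type_bound 2 hz
  have lo := E.low_bound hz
  have hi := E.high_bound hz
  have s := E.sum_a hz
  rw [Fin.sum_univ_three] at s
  have n0 := E.at_nonneg 0 z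
  have n1 := E.at_nonneg 1 z
  have n2 := E.at_nonneg 2 z
  have nl := E.alow_nonneg z
  have nh := E.ahigh_nonneg z
  have hC := E.C_ge
  have hL : 0 ≤ Real.log (2 * E.C₁) := Real.log_nonneg (by linarith)
  have hLC : Real.log E.C₁ ≤ Real.log (2 * E.C₁) :=
    Real.log_le_log (by linarith) (by linarith)
  have hR := E.R_ge
  rw [if_neg (by decide)] at t0
  rw [if_neg (by decide)] at t1
  rw [if_pos rfl] at t2
  have e : Real.log E.M * (Real.exp (-E.p) + 8 * (Hh (E.B z) + 4) / E.R) =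
      Real.log E.M * (Real.exp (-E.p) + 32 / E.R) + (8 * Real.log E.M / E.R) * Hh (E.B z) := by
    ring
  rw [e] at hi
  have eX : Real.log (YD (E.Bp z)) = E.at' 0 z * Real.log (YD (E.Bp z)) +
      E.at' 1 z * Real.log (YD (E.Bp z)) + E.at' 2 z * Real.log (YD (E.Bp z)) +
      E.alow z * Real.log (YD (E.Bp z)) + E.ahigh z * Real.log (YD (E.Bp z)) := by
    have : (E.at' 0 z + E.at' 1 z + E.at' 2 z + E.alow z + E.ahigh z) * Real.log (YD (E.Bp z)) =
        Real.log (YD (E.Bp z)) := by rw [s, one_mul]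
    linarith
  set X := Real.log (YD (E.Bp z))
  set L := Real.log (2 * E.C₁)
  set a0 := E.at' 0 z
  set a1 := E.at' 1 z
  set a2 := E.at' 2 z
  set q := (E.Q z).re
  set D := (E.D2 z).re
  have f0 : a0 * (X - q - 0) = a0 * X - a0 * q := by ring
  have f1 : a1 * (X - q - 0) = a1 * X - a1 * q := by ring
  have f2 : a2 * (X - q - D) = a2 * X - a2 * q - a2 * D := by ring
  rw [f0] at t0
  rw [f1] at t1
  rw [f2] at t2
  have g1 : E.alow z * Real.log E.C₁ ≤ E.alow z * L := mul_le_mul_of_nonneg_left hLC nl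
  have g2 : (a0 + a1 + a2 + E.alow z + E.ahigh z) * L = L := by rw [s, one_mul]
  have g3 : 0 ≤ E.ahigh z * L := mul_nonneg nh hL
  nlinarith

theorem release {H₀ : ℝ} (hH : Real.circleAverage (fun z => Hh (E.B z)) 0 1 ≤ H₀) :
    Real.circleAverage (fun z => Real.log (YD (E.Bp z))) 0 1 ≤
      2 * Real.log (2 * E.C₁) + 9 + Real.log E.M * (Real.exp (-E.p) + 8 * (H₀ + 4) / E.R) := by
  have hC := E.C_ge
  have hR := E.R_ge
  have hM := E.M_ge
  have hL : 0 ≤ Real.log (2 * E.C₁) := Real.log_nonneg (by linarith)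
  have hLM : 0 ≤ Real.log E.M := Real.log_nonneg (by linarith)
  have cQ : ContinuousOn (fun z => (E.Q z).re) (sphere 0 1) := re_cont E.Q_an
  have cD : ContinuousOn (fun z => (E.D2 z).re) (sphere 0 1) := re_cont E.D2_an
  have cH : ContinuousOn (fun z => Hh (E.B z)) (sphere 0 1) :=
    (Pool.Agent.Helper84.PD.cont_Hh E.pair).mono sphere_subset_closedBall
  have cY : ContinuousOn (fun z => Real.log (YD (E.Bp z))) (sphere 0 1) :=
    (Pool.Agent.Helper84.PD.cont_log_YD E.pair').mono sphere_subset_closedBall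
  have c0 : ContinuousOn (fun z => E.at' 0 z * (E.Q z).re) (sphere 0 1) := (E.at_cont 0).mul cQ
  have c1 : ContinuousOn (fun z => E.at' 1 z * (E.Q z).re) (sphere 0 1) := (E.at_cont 1).mul cQ
  have c2 : ContinuousOn (fun z => E.at' 2 z * (E.Q z).re) (sphere 0 1) := (E.at_cont 2).mul cQ
  have c3 : ContinuousOn (fun z => E.at' 2 z * (E.D2 z).re) (sphere 0 1) := (E.at_cont 2).mul cD
  have c4 : ContinuousOn (fun z => (8 * Real.log E.M / E.R) * Hh (E.B z)) (sphere 0 1) :=
    continuousOn_const.mul cH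
  have c34 : ContinuousOn (fun z => E.at' 2 z * (E.D2 z).re +
      (8 * Real.log E.M / E.R) * Hh (E.B z)) (sphere 0 1) := c3.add c4
  have c234 : ContinuousOn (fun z => E.at' 2 z * (E.Q z).re + (E.at' 2 z * (E.D2 z).re +
      (8 * Real.log E.M / E.R) * Hh (E.B z))) (sphere 0 1) := c2.add c34
  have c1234 : ContinuousOn (fun z => E.at' 1 z * (E.Q z).re + (E.at' 2 z * (E.Q z).re +
      (E.at' 2 z * (E.D2 z).re + (8 * Real.log E.M / E.R) * Hh (E.B z)))) (sphere 0 1) :=
    c1.add c234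
  have c01234 : ContinuousOn (fun z => E.at' 0 z * (E.Q z).re + (E.at' 1 z * (E.Q z).re +
      (E.at' 2 z * (E.Q z).re + (E.at' 2 z * (E.D2 z).re +
      (8 * Real.log E.M / E.R) * Hh (E.B z))))) (sphere 0 1) := c0.add c1234
  have ck : ContinuousOn (fun _ : ℂ => Real.log (2 * E.C₁) + 5 +
      Real.log E.M * (Real.exp (-E.p) + 32 / E.R)) (sphere 0 1) := continuousOn_const
  have h1 := Pool.Agent.Helper84.PD.avg_mono cY (ck.add c01234) (fun z hz => E.pointwise hz)
  have i := fun {u : ℂ → ℝ} (hu : ContinuousOn u (sphere 0 1)) =>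
    Pool.Agent.Helper84.PD.ci' hu
  rw [Real.circleAverage_add (i ck) (i c01234), Real.circleAverage_fun_add (i c0) (i c1234),
    Real.circleAverage_fun_add (i c1) (i c234), Real.circleAverage_fun_add (i c2) (i c34),
    Real.circleAverage_fun_add (i c3) (i c4), E.mean_Q 0, E.mean_Q 1, E.mean_Q 2, E.mean_D2 2,
    Real.circleAverage_const] at h1
  have h2 : Real.circleAverage (fun z => (8 * Real.log E.M / E.R) * Hh (E.B z)) 0 1 =
      (8 * Real.log E.M / E.R) * Real.circleAverage (fun z => Hh (E.B z)) 0 1 := by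
    have h1 := Real.circleAverage_fun_smul (a := 8 * Real.log E.M / E.R)
      (f := fun z => Hh (E.B z)) (c := 0) (R := 1)
    simp only [smul_eq_mul] at h1
    exact h1
  rw [h2] at h1
  have h3 : (8 * Real.log E.M / E.R) * Real.circleAverage (fun z => Hh (E.B z)) 0 1 ≤
      (8 * Real.log E.M / E.R) * H₀ :=
    mul_le_mul_of_nonneg_left hH (div_nonneg (by linarith) (by linarith))
  have e : Real.log E.M * (Real.exp (-E.p) + 8 * (H₀ + 4) / E.R) =
      Real.log E.M * (Real.exp (-E.p) + 32 / E.R) + (8 * Real.log E.M / E.R) * H₀ := by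
    ring
  rw [e]
  linarith

end Pool.Agent.Helper61.QF.Ev
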