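import Pool.Agent.Helper61.QF.Ev18
import Pool.Agent.Helper61.QF.Ev19
import Pool.Agent.Helper61.QF.Ev20
import Pool.Agent.Helper61.QF.Ev23
import Pool.Agent.Helper81.QF.Goals

/-!
# Ev24 (MP_78803a, EVENT): choice of the parameters for large `y` and assembly
-/

set_option autoImplicit false

open Polynomial Complex Metric
open Pool.Agent.Helper81.QF Pool.Agent.Helper29.QF
open Pool.Agent.Helper84.Lam (YD lamD LL L1 F3 ps)

namespace Pool.Agent.Helper61.QF

/-- numbers: the sizes of `J`, `p` and `1/s` -/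
theorem sizes {L y X : ℝ} {J p n : ℕ} (hL : 2 ≤ L) (hy : 10 ^ 30 * L ^ 3 ≤ y) (hX : 1 ≤ X)
    (hJ : (J : ℝ) ≤ 40 * (100 * L * (4 * y ^ 128)) + 1)
    (hp : (p : ℝ) ≤ 200 * L * (4 * y ^ 128) * ((J : ℝ) + 1) + 1) (hn : (n : ℝ) ≤ 10 ^ 8 * X + 1) :
    (p : ℝ) ≤ 2 * 10 ^ 7 * L ^ 2 * y ^ 256 ∧
      80000 * L * (4 * y ^ 128) * ((4 * p * n : ℕ) * y ^ 48) ≤ X * y ^ 433 := by
  have hL3 : 8 ≤ L ^ 3 := by nlinarith [sq_nonneg (L - 2), sq_nonneg L]
  have hy1 : (1 : ℝ) ≤ y := by nlinarith
  have ha1 : 1 ≤ y ^ 128 := one_le_pow₀ hy1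
  have hL2 : 4 ≤ L ^ 2 := by nlinarith
  set a : ℝ := y ^ 128 with ha
  have ha2 : y ^ 256 = a ^ 2 := by rw [ha]; ring
  have ha0 : 0 < a := by linarith
  have hJ1 : (J : ℝ) + 1 ≤ 16001 * L * a := by nlinarith
  have h1 : (p : ℝ) ≤ 2 * 10 ^ 7 * L ^ 2 * a ^ 2 := by
    have h2 : 200 * L * (4 * a) * ((J : ℝ) + 1) ≤ 200 * L * (4 * a) * (16001 * L * a) :=
      mul_le_mul_of_nonneg_left hJ1 (by positivity)
    have h3 : 200 * L * (4 * a) * (16001 * L * a) = 12800800 * (L ^ 2 * a ^ 2) := by ring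
    have h4 : 1 ≤ L ^ 2 * a ^ 2 := by
      have : 1 ≤ a ^ 2 := one_le_pow₀ ha1
      nlinarith
    nlinarith
  refine ⟨by rw [ha2]; exact h1, ?_⟩
  have hn2 : (n : ℝ) ≤ 2 * 10 ^ 8 * X := by linarith
  have hp0 : (0 : ℝ) ≤ p := Nat.cast_nonneg _
  have hn0 : (0 : ℝ) ≤ n := Nat.cast_nonneg _
  have h5 : (p : ℝ) * n ≤ (2 * 10 ^ 7 * L ^ 2 * a ^ 2) * (2 * 10 ^ 8 * X) :=
    mul_le_mul h1 hn2 hn0 (by positivity)
  push_cast
  have h6 : 80000 * L * (4 * a) * (4 * (p : ℝ) * n * y ^ 48) =
      1280000 * (L * a * y ^ 48) * (p * n) := by ring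
  rw [h6]
  have h7 : 1280000 * (L * a * y ^ 48) * (p * n) ≤
      1280000 * (L * a * y ^ 48) * ((2 * 10 ^ 7 * L ^ 2 * a ^ 2) * (2 * 10 ^ 8 * X)) :=
    mul_le_mul_of_nonneg_left h5 (by positivity)
  refine h7.trans ?_
  have h8 : 1280000 * (L * a * y ^ 48) * ((2 * 10 ^ 7 * L ^ 2 * a ^ 2) * (2 * 10 ^ 8 * X)) =
      (5120000000000000000000 * L ^ 3) * (X * y ^ 432) := by
    rw [ha]; ring
  rw [h8]
  have h9 : X * y ^ 433 = y * (X * y ^ 432) := by ring
  rw [h9]
  refine mul_le_mul_of_nonneg_right ?_ (by positivity)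
  nlinarith

theorem log_small {y : ℝ} (hy : 1 ≤ y) : Real.log y ≤ y := by
  have := Real.log_le_sub_one_of_pos (by linarith : (0 : ℝ) < y)
  linarith

/-- **EVENT.** -/
theorem event (l : ℕ) (hl : 1 ≤ l) {C₃ : ℝ}
    (hC₃ : 2 * Real.log (800 * ((l : ℝ) + 1)) + 10 ≤ C₃) : EventGoal l C₃ := by
  set L : ℝ := (l : ℝ) + 1 with hLdef
  have hl1 : (1 : ℝ) ≤ l := by exact_mod_cast hl
  have hL : 2 ≤ L := by linarith
  set κ : ℝ := |3 * Pool.Agent.Helper84.PD.cst + 2 * Real.log 2| with hκ
  have hκ0 : 0 ≤ κ := abs_nonneg _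
  have hL3 : 8 ≤ L ^ 3 := by nlinarith [sq_nonneg (L - 2), sq_nonneg L]
  refine ⟨10 ^ 30 * L ^ 3 + κ, by linarith, ?_⟩
  intro y hy X m b d f P hMid
  have hy30 : 10 ^ 30 * L ^ 3 ≤ y := by linarith
  have hyκ : κ ≤ y := by linarith
  have hy1 : (1 : ℝ) ≤ y := by linarith
  have hy0 : 0 < y := by linarith
  have hyL : 10 ^ 30 * L ≤ y := by nlinarith only [sq_nonneg (L - 2), sq_nonneg L, hL, hy30]
  have hLy : L ≤ y := by linarith
  have hy2 : 10 ^ 30 ≤ y := by linarith
  have hX1 : 1 ≤ X := (Real.one_le_exp (by positivity)).trans hMid.Xlow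
  have hX0 : 0 < X := by linarith
  have hp : ∀ k : ℕ, 1 ≤ k → y ≤ y ^ k := fun k hk => by
    calc y = y ^ 1 := (pow_one y).symm
      _ ≤ y ^ k := pow_le_pow_right₀ hy1 hk
  have hpp : ∀ j k : ℕ, j ≤ k → y ^ j ≤ y ^ k := fun j k hjk => pow_le_pow_right₀ hy1 hjk
  -- parameters
  obtain ⟨J, hJ1, hJ2⟩ : ∃ J : ℕ, 40 * (100 * L * (4 * y ^ 128)) ≤ J ∧
      (J : ℝ) ≤ 40 * (100 * L * (4 * y ^ 128)) + 1 :=
    ⟨⌈40 * (100 * L * (4 * y ^ 128))⌉₊, Nat.le_ceil _, (Nat.ceil_lt_add_one (by positivity)).le⟩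
  obtain ⟨p, hp1, hp2⟩ : ∃ p : ℕ, 200 * L * (4 * y ^ 128) * ((J : ℝ) + 1) ≤ p ∧
      (p : ℝ) ≤ 200 * L * (4 * y ^ 128) * ((J : ℝ) + 1) + 1 :=
    ⟨⌈200 * L * (4 * y ^ 128) * ((J : ℝ) + 1)⌉₊, Nat.le_ceil _,
      (Nat.ceil_lt_add_one (by positivity)).le⟩
  obtain ⟨n, hn1, hn2⟩ : ∃ n : ℕ, 10 ^ 8 * X ≤ n ∧ (n : ℝ) ≤ 10 ^ 8 * X + 1 :=
    ⟨⌈10 ^ 8 * X⌉₊, Nat.le_ceil _, (Nat.ceil_lt_add_one (by positivity)).le⟩
  obtain ⟨hsp, hsz⟩ := sizes hL hy30 hX1 hJ2 hp2 hn2
  have hJ0 : (0 : ℝ) ≤ J := Nat.cast_nonneg _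
  have hppos : (0 : ℝ) < p := by
    refine lt_of_lt_of_le ?_ hp1
    positivity
  have hnpos : (0 : ℝ) < n := by
    refine lt_of_lt_of_le ?_ hn1
    positivity
  set D : ℝ := 80000 * L * (4 * y ^ 128) * ((4 * p * n : ℕ) * y ^ 48) with hD
  have hD0 : 0 < D := by
    rw [hD]
    push_cast
    positivity
  have hΛs : (1 / (1 / D)) ^ l ≤ Real.exp (100 * L * (4 * y ^ 128)) := by
    rw [one_div_one_div]
    have h1 : D ≤ Real.exp (435 * y ^ 16) := by
      refine hsz.trans ?_
      have h2 : y ^ 433 = Real.exp (433 * Real.log y) := by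
        rw [← Real.rpow_natCast, Real.rpow_def_of_pos hy0]
        push_cast
        ring_nf
      have h3 : X * y ^ 433 ≤ Real.exp (2 * y ^ 16) * Real.exp (433 * y ^ 16) := by
        refine mul_le_mul hMid.Xup ?_ (by positivity) (Real.exp_pos _).le
        rw [h2]
        refine Real.exp_le_exp.2 (mul_le_mul_of_nonneg_left ?_ (by norm_num))
        exact (log_small hy1).trans (hp 16 (by norm_num))
      refine h3.trans (le_of_eq ?_)
      rw [← Real.exp_add]
      ring_nf
    calc D ^ l ≤ (Real.exp (435 * y ^ 16)) ^ l := pow_le_pow_left₀ hD0.le h1 _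
      _ = Real.exp (l * (435 * y ^ 16)) := by rw [← Real.exp_nat_mul]
      _ ≤ Real.exp (100 * L * (4 * y ^ 128)) := by
          refine Real.exp_le_exp.2 ?_
          have h4 : y ^ 16 * 2 ≤ y ^ 128 := by
            have h5 : y ^ 17 ≤ y ^ 128 := hpp _ _ (by norm_num)
            have h6 : y ^ 16 * 2 ≤ y ^ 17 := by
              rw [pow_succ y 16]
              exact mul_le_mul_of_nonneg_left (by linarith) (by positivity)
            linarith
          have h7 : 0 ≤ y ^ 16 := by positivity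
          have h8 : (l : ℝ) * (435 * y ^ 16) ≤ L * (435 * y ^ 16) :=
            mul_le_mul_of_nonneg_right (by linarith) (by positivity)
          have h9 : L * (435 * y ^ 16) ≤ L * (400 * y ^ 128) :=
            mul_le_mul_of_nonneg_left (by linarith) (by linarith)
          linarith
  have hΛl : 10 * 2 ^ l * (l.factorial : ℝ) ≤ Real.exp (100 * L * (4 * y ^ 128)) := by
    have h1 : (10 : ℝ) ≤ Real.exp 9 := by
      have := Real.add_one_le_exp (9 : ℝ)
      linarith
    have h2 : (2 : ℝ) ^ l ≤ Real.exp l := by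
      have h3 : (2 : ℝ) ≤ Real.exp 1 := by
        have := Real.add_one_le_exp (1 : ℝ)
        linarith
      calc (2 : ℝ) ^ l ≤ (Real.exp 1) ^ l := pow_le_pow_left₀ (by norm_num) h3 _
        _ = Real.exp l := by rw [← Real.exp_nat_mul, mul_one]
    have h4 : (l.factorial : ℝ) ≤ Real.exp (l * l) := by
      have h5 : (l.factorial : ℝ) ≤ (l : ℝ) ^ l := by exact_mod_cast Nat.factorial_le_pow l
      have h6 : (l : ℝ) ≤ Real.exp l := by
        have := Real.add_one_le_exp (l : ℝ)
        linarith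
      calc (l.factorial : ℝ) ≤ (l : ℝ) ^ l := h5
        _ ≤ (Real.exp l) ^ l := pow_le_pow_left₀ (by linarith) h6 _
        _ = Real.exp (l * l) := by rw [← Real.exp_nat_mul]
    calc 10 * 2 ^ l * (l.factorial : ℝ) ≤ Real.exp 9 * Real.exp l * Real.exp (l * l) := by
          refine mul_le_mul (mul_le_mul h1 h2 (by positivity) (Real.exp_pos _).le) h4
            (by positivity) (by positivity)
      _ = Real.exp (9 + l + l * l) := by rw [← Real.exp_add, ← Real.exp_add]
      _ ≤ Real.exp (100 * L * (4 * y ^ 128)) := by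
          refine Real.exp_le_exp.2 ?_
          have h7 := hp 128 (by norm_num)
          have h8 : (l : ℝ) ≤ L := by linarith
          have a1 : (l : ℝ) * l ≤ L * y := mul_le_mul h8 (by linarith) (by linarith) (by linarith)
          have a2 : L ≤ L * y := le_mul_of_one_le_right (by linarith) hy1
          have a3 : L * y ≤ L * y ^ 128 := mul_le_mul_of_nonneg_left h7 (by linarith)
          linarith
  set E : Ev l :=
    { m := m, b := b, d := d, f := f, P := P, V := X, U := 2 * y ^ 128, n := n, p := p, J := J,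
      R := y ^ 48, c₁ := 200 * L, C₁ := 400 * L, M := 4 * y ^ 128, s := 1 / D,
      Λ := 100 * L * (4 * y ^ 128)
      hl := hl
      core := hMid.core
      hV := hX1
      hY := hMid.Ysup
      hP := hMid.V
      hU := by
        have := one_le_pow₀ hy1 (n := 128)
        linarith
      hn := hn1
      hc := le_rfl
      hC := by linarith
      hR := by
        have := hp 48 (by norm_num)
        linarith
      hMR := by
        have h1 : (y ^ 48) ^ 2 = y ^ 96 := by ring
        rw [h1]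
        have h2 := hpp 96 128 (by norm_num)
        have h3 : 0 ≤ y ^ 128 := by positivity
        linarith
      hMU := by linarith
      hs0 := by positivity
      hs := by
        have h1 : 20000 * ((l : ℝ) + 1) * (4 * y ^ 128) * ((4 * p * n : ℕ) * y ^ 48) * (1 / D) =
            1 / 4 := by
          have h2 : 20000 * ((l : ℝ) + 1) * (4 * y ^ 128) * ((4 * p * n : ℕ) * y ^ 48) = D / 4 := by
            rw [hD, hLdef]
            ring
          rw [h2]
          field_simp
        exact h1.le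
      hΛM := le_rfl
      hΛs := hΛs
      hΛl := hΛl
      hJ := hJ1
      hp := hp1 } with hE
  obtain ⟨w0, h, C⟩ := E.exists_cor
  have eb : E.b = b := rfl
  have ed : E.d = d := rfl
  have ef : E.f = f := rfl
  have eP : E.P = P := rfl
  have eV : E.V = X := rfl
  have em : E.m = m := rfl
  have eR : E.R = y ^ 48 := rfl
  have eM : E.M = 4 * y ^ 128 := rfl
  have eC : E.C₁ = 400 * L := rfl
  have eΛ : E.Λ = 100 * L * (4 * y ^ 128) := rfl
  have ep : E.p = p := rfl
  have es : 1 / E.s = D := one_div_one_div D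
  have hD1 : (E.N : ℝ) * E.R ≤ D := by
    have h1 : D = 80000 * L * (4 * y ^ 128) * ((E.N : ℝ) * E.R) := rfl
    have h2 : 1 ≤ 80000 * L * (4 * y ^ 128) := by
      have h0 := one_le_pow₀ hy1 (n := 128)
      have h00 : L * 1 ≤ L * y ^ 128 := mul_le_mul_of_nonneg_left h0 (by linarith)
      linarith
    have h3 : 0 ≤ (E.N : ℝ) * E.R := by
      rw [eR]
      positivity
    rw [h1]
    exact le_mul_of_one_le_left h3 h2
  have hD2 : (E.N : ℝ) ≤ D := by
    have h3 : (0 : ℝ) ≤ E.N := Nat.cast_nonneg _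
    have h4 : 1 ≤ E.R := one_le_pow₀ hy1
    exact (le_mul_of_one_le_right h3 h4).trans hD1
  have hX434 : 256 * l * D ≤ X * y ^ 434 := by
    have h1 : 256 * (l : ℝ) * D ≤ 256 * l * (X * y ^ 433) :=
      mul_le_mul_of_nonneg_left hsz (by positivity)
    have h2 : X * y ^ 434 = y * (X * y ^ 433) := by ring
    rw [h2]
    refine h1.trans (mul_le_mul_of_nonneg_right ?_ (by positivity))
    linarith
  have hX820 : 256 * l * D ≤ X * y ^ 820 :=
    hX434.trans (mul_le_mul_of_nonneg_left (hpp _ _ (by norm_num)) hX0.le)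
  have hDX : D ≤ X * y ^ 820 := by
    have : D ≤ 256 * l * D := le_mul_of_one_le_left hD0.le (by linarith)
    linarith
  have hpy : (p : ℝ) ≤ y ^ 257 := by
    refine hsp.trans ?_
    have h1 : y ^ 257 = y * y ^ 256 := by ring
    rw [h1]
    refine mul_le_mul_of_nonneg_right ?_ (by positivity)
    nlinarith only [hy30, hL, sq_nonneg L]
  refine ⟨E.m + 2 * E.N, E.bp, E.dp, E.f1 h, E.P1 w0, ?_, ?_, ?_, ?_, ?_, ?_, ?_, ?_, ?_⟩
  · refine
      { pair := E.pair'
        b0 := E.bp_zero
        deg := ?_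
        speed := ?_
        wup := fun z hz => (E.dl_new_le hz).trans (E.core.wup z hz)
        anf := E.f1_an C
        anP := E.P1_an C
        fne := fun z hz => E.f1_ne C hz
        eq := fun z hz => E.f1_eq C hz
        fder := ?_
        f0 := E.f1_zero C
        P0 := E.P1_zero }
    · have h1 : (E.m : ℝ) ≤ X := E.core.deg
      have h2 : X ≤ X * y ^ 433 := le_mul_of_one_le_right hX0.le (one_le_pow₀ hy1)
      have h3 : 3 * (X * y ^ 433) ≤ X * y ^ 820 := by
        have h4 : y ^ 434 ≤ y ^ 820 := hpp _ _ (by norm_num)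
        have h5 : X * y ^ 434 ≤ X * y ^ 820 := mul_le_mul_of_nonneg_left h4 hX0.le
        have h6 : X * y ^ 434 = y * (X * y ^ 433) := by ring
        have h7 : 0 ≤ X * y ^ 433 := by positivity
        have h8 : 3 * (X * y ^ 433) ≤ y * (X * y ^ 433) :=
          mul_le_mul_of_nonneg_right (by linarith) h7
        linarith
      push_cast
      linarith
    · intro z hz
      refine (E.speed' hz).trans (mul_le_mul_of_nonneg_right (hD1.trans hDX) ?_)
      exact (Pool.Agent.Helper29.QF.dl_pos E.pair' hz.le).le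
    · intro i hi z hz
      refine (E.f1_der C hz hi).trans (mul_le_mul_of_nonneg_right ?_ (norm_nonneg _))
      refine pow_le_pow_left₀ (div_nonneg (by positivity) E.hs0.le) ?_ _
      have h1 : 16 * (l : ℝ) / E.s = 16 * l * D := by rw [← es]; ring
      rw [h1]
      refine le_trans ?_ hX820
      have : 0 ≤ (l : ℝ) * D := by positivity
      linarith
  · intro z hz
    refine (E.dl_le_new hz).trans (mul_le_mul_of_nonneg_right ?_ ?_)
    · rw [eR]
      exact hpp _ _ (by norm_num)
    · exact (Pool.Agent.Helper29.QF.dl_pos E.pair' hz.le).le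
  · intro z hz
    exact E.dl_new_le hz
  · intro z hz
    rcases E.Yp_or hz with h1 | h1
    · exact Or.inl h1
    · refine Or.inr (h1.trans ?_)
      rw [eR, ← pow_mul]
      exact hpp _ _ (by norm_num)
  · intro z hz
    refine (E.V_new C hz).trans (mul_le_mul_of_nonneg_right ?_ (norm_nonneg _))
    refine pow_le_pow_left₀ (div_nonneg (by positivity) E.hs0.le) ?_ _
    have h1 : 256 * (l : ℝ) / E.s = 256 * l * D := by rw [← es]; ring
    rw [h1]
    exact hX820
  · intro z hz
    refine (E.flog_new C hz).trans ?_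
    rw [eM]
    have h1 : y ^ 130 = y ^ 2 * y ^ 128 := by ring
    have h2 : 1 ≤ y ^ 128 := one_le_pow₀ hy1
    have h3 : 80 * L + 1 ≤ y ^ 2 := by
      have h4 : y ≤ y ^ 2 := hp 2 (by norm_num)
      linarith
    rw [h1]
    have h4 : (80 * L + 1) * y ^ 128 ≤ y ^ 2 * y ^ 128 :=
      mul_le_mul_of_nonneg_right h3 (by linarith)
    have h5 : 20 * (((l : ℝ) + 1) * (4 * y ^ 128)) = 80 * L * y ^ 128 := by rw [hLdef]; ring
    rw [h5]
    linarith
  · -- the release
    have hpair := hMid.core.pair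
    have hmid_log : Real.circleAverage (fun z => Real.log (YD (Bq b d z))) 0 1 ≤ 1 + 128 * y := by
      have hcirc : ∀ z : ℂ, ‖z‖ = 1 → Real.log (YD (Bq b d z)) ≤ 1 + 128 * y := by
        intro z hz
        have h1 := hMid.Ysup z hz
        have h2 : 0 < YD (Bq b d z) :=
          Pool.Agent.Helper84.PD.YD_pos (Pool.Agent.Helper84.PD.norm_Bq hpair hz.le)
        have h3 : Real.log (YD (Bq b d z)) ≤ Real.log (2 * y ^ 128) := Real.log_le_log h2 h1
        have h4 : Real.log (2 * y ^ 128) = Real.log 2 + 128 * Real.log y := by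
          rw [Real.log_mul (by norm_num) (by positivity), Real.log_pow]
          norm_num
        have h5 := log_small hy1
        have h6 : Real.log 2 ≤ 1 := by
          have := Real.log_two_lt_d9
          linarith
        linarith
      have h7 := Pool.Agent.Helper84.PD.avg_mono
        ((Pool.Agent.Helper84.PD.cont_log_YD hpair).mono sphere_subset_closedBall)
        (continuousOn_const (c := 1 + 128 * y))
        (fun z hz => hcirc z hz)
      rwa [Real.circleAverage_const] at h7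
    have htau : tau b d ≤ 2 * y ^ 16 := by
      have h1 : ∀ z : ℂ, ‖z‖ = 1 → -Real.log (dl b d z) ≤ 2 * y ^ 16 := by
        intro z hz
        have h2 := hMid.wlow z hz
        have h3 : 0 < dl b d z := Pool.Agent.Helper29.QF.dl_pos hpair hz.le
        have h4 : 0 ≤ Real.log (X * dl b d z) := Real.log_nonneg h2
        rw [Real.log_mul hX0.ne' h3.ne'] at h4
        have h5 : Real.log X ≤ 2 * y ^ 16 := by
          rw [Real.log_le_iff_le_exp hX0]
          exact hMid.Xup
        linarith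
      have h7 := Pool.Agent.Helper84.PD.avg_mono
        (((Pool.Agent.Helper84.PD.cont_log_dl hpair).mono sphere_subset_closedBall).neg)
        (continuousOn_const (c := 2 * y ^ 16)) (fun z hz => h1 z hz)
      rw [Real.circleAverage_const] at h7
      exact h7
    have hHh := Pool.Agent.Helper84.PD.mean_Hh hpair hMid.core.b0
    have hH : Real.circleAverage (fun z => Hh (E.B z)) 0 1 ≤ 400 * y ^ 16 := by
      have h1 : Real.circleAverage (fun z => Hh (E.B z)) 0 1 =
          Real.circleAverage (fun z => Hh (Bq b d z)) 0 1 := rfl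
      rw [h1, hHh]
      have h2 : 3 * Pool.Agent.Helper84.PD.cst + 2 * Real.log 2 ≤ κ := le_abs_self _
      have h3 := hp 16 (by norm_num)
      have h4 : y * 100 ≤ y ^ 16 := by
        have h5 : y ^ 2 ≤ y ^ 16 := hpp _ _ (by norm_num)
        have h6 : y * 100 ≤ y * y := mul_le_mul_of_nonneg_left (by linarith) (by linarith)
        have h7 : y ^ 2 = y * y := by ring
        linarith
      linarith
    have hrel := E.release hH
    refine hrel.trans ?_
    have h1 : Real.log (2 * E.C₁) = Real.log (800 * L) := by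
      rw [eC]
      ring_nf
    rw [h1]
    have hM1 : 1 ≤ E.M := by linarith [E.M_ge]
    have hlogM : Real.log E.M ≤ 130 * y := by
      rw [eM, Real.log_mul (by norm_num) (by positivity), Real.log_pow]
      have h2 := log_small hy1
      have h3 : Real.log 4 ≤ 2 := by
        have h4 : Real.log 4 = 2 * Real.log 2 := by
          rw [show (4 : ℝ) = 2 ^ 2 by norm_num, Real.log_pow]
          norm_num
        have := Real.log_two_lt_d9
        linarith
      push_cast
      linarith
    have hlogM0 : 0 ≤ Real.log E.M := Real.log_nonneg hM1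
    have h2 : Real.log E.M * Real.exp (-E.p) ≤ 1 / 2 := by
      have h3 := E.exp_pM
      have h4 := E.M_le_lM
      have h5 : Real.log E.M ≤ E.M := log_small hM1
      have h6 := Real.exp_pos (-(E.p : ℝ))
      have h7 : Real.log E.M * Real.exp (-E.p) ≤ (((l : ℝ) + 1) * E.M) * Real.exp (-E.p) :=
        mul_le_mul_of_nonneg_right (by linarith) h6.le
      linarith
    have h3 : Real.log E.M * (8 * (400 * y ^ 16 + 4) / E.R) ≤ 1 / 2 := by
      rw [eR, ← mul_div_assoc, div_le_iff₀ (by positivity)]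
      have h4 : 1 ≤ y ^ 16 := one_le_pow₀ hy1
      have h5 : Real.log E.M * (8 * (400 * y ^ 16 + 4)) ≤ (130 * y) * (8 * (404 * y ^ 16)) :=
        mul_le_mul hlogM (by linarith) (by positivity) (by positivity)
      have h6 : (130 * y) * (8 * (404 * y ^ 16)) = 420160 * y ^ 17 := by ring
      have h7 : y ^ 48 = y ^ 31 * y ^ 17 := by ring
      have h8 : y ≤ y ^ 31 := hp 31 (by norm_num)
      have h9 : 0 ≤ y ^ 17 := by positivity
      rw [h7]
      rw [h6] at h5
      have h10 : 840320 * y ^ 17 ≤ y ^ 31 * y ^ 17 := mul_le_mul_of_nonneg_right (by linarith) h9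
      linarith
    have h4 : Real.log E.M * (Real.exp (-E.p) + 8 * (400 * y ^ 16 + 4) / E.R) =
        Real.log E.M * Real.exp (-E.p) + Real.log E.M * (8 * (400 * y ^ 16 + 4) / E.R) := by ring
    rw [h4]
    linarith
  · intro z hz
    exact E.xi_new C hz
  · refine E.close C ?_ ?_
    · rw [eΛ]
      have h1 : y ^ 300 = y ^ 172 * y ^ 128 := by ring
      have h2 : y ≤ y ^ 172 := hp 172 (by norm_num)
      have h3 : 0 ≤ y ^ 128 := by positivity
      rw [h1]
      have h4 : (1200 * L) * y ^ 128 ≤ y ^ 172 * y ^ 128 :=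
        mul_le_mul_of_nonneg_right (by linarith) h3
      linarith
    · intro ζ hζ
      rw [eΛ, ep, ef]
      have h1 := (abs_le.1 (hMid.flog ζ hζ)).2
      have h2 : y ^ 258 = y * y ^ 257 := by ring
      have h3 : y ^ 160 ≤ y ^ 257 := hpp _ _ (by norm_num)
      have h4 : y ^ 258 ≤ y ^ 300 := hpp _ _ (by norm_num)
      have h5 : 100 * L * (4 * y ^ 128) ≤ y ^ 257 := by
        have h6 : y ^ 257 = y ^ 129 * y ^ 128 := by ring
        have h7 : y ≤ y ^ 129 := hp 129 (by norm_num)
        rw [h6]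
        have h8 : 0 ≤ y ^ 128 := by positivity
        have h10 : (400 * L) * y ^ 128 ≤ y ^ 129 * y ^ 128 :=
          mul_le_mul_of_nonneg_right (by linarith) h8
        linarith
      have h9 : 0 ≤ y ^ 257 := by positivity
      have h10 : 10 * y ^ 257 ≤ y * y ^ 257 := mul_le_mul_of_nonneg_right (by linarith) h9
      linarith


end Pool.Agent.Helper61.QF
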