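import Pool.Agent.Helper61.QF.Ev1
import Pool.Agent.Helper61.QF.Ev2

/-!
# Ev3 (MP_78803a, EVENT): inactive and active points

Proof.
* `tail`: `8/(n δ) = 8/22 ≤ e^(-1)`, so `72π (8/(nδ))^(2p-2) ≤ 227 e^(-(2p-2)) ≤ e^(-p)/3`.
* `g_tail`: `v = 0` at all `w` with `|w - z| < δ` (if `w ∈ A` then `2δ ≤ |ζ - w| ≤ |ζ - z| + |z - w| < 2δ`);
  `chi_tail2` with `V = 1`, and `|z^(N-kd)| ≤ 1`.
* `active_Y`: there is `x ∈ A` with `|ζ - x| < 2δ`; `Y_close`.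
* `active_β`: for `|w - ζ| < δ`, `|w| = 1`: `v w ≤ 1 - 0.99 c₁/Y(Bζ)` (`Y_close`; if `w ∉ A` then `v w = 0`, and
  `c₁ ≤ Y`), so `cf_local` gives `β ≤ 1 - 0.99 c₁/Y + 2 e^(-p)`; and `2 e^(-p) ≤ 0.49 c₁/Y` because
  `Y ≤ 1.02 R ≤ M` and `E.exp_pM`.
* `local_one`, `local_zero`: general form for all cut-offs, from `cf_local`.
-/

set_option autoImplicit false

open Polynomial Complex Metric
open Pool.Agent.Helper81.QF Pool.Agent.Helper29.QF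
open Pool.Agent.Helper84.Lam (YD lamD LL L1 F3 ps)

namespace Pool.Agent.Helper61.QF.Ev

variable {l : ℕ} (E : Ev l)

theorem nδ_eq : (E.n : ℝ) * E.δ = 22 := by
  unfold δ
  have := E.n_pos
  field_simp

theorem tail : 72 * Real.pi * (8 / (E.n * E.δ)) ^ (2 * E.p - 2) ≤ Real.exp (-E.p) / 3 := by
  rw [E.nδ_eq]
  have h1 : (8 / 22 : ℝ) ≤ Real.exp (-1) := by
    rw [Real.exp_neg]
    have h2 := Real.exp_one_lt_d9
    have h3 := Real.exp_pos 1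
    rw [div_le_iff₀ (by norm_num), ← div_eq_inv_mul, le_div_iff₀ h3]
    linarith
  have h4 : (8 / 22 : ℝ) ^ (2 * E.p - 2) ≤ Real.exp (-1) ^ (2 * E.p - 2) :=
    pow_le_pow_left₀ (by norm_num) h1 _
  rw [← Real.exp_nat_mul] at h4
  have hp := E.p_ge'
  have hp1 := E.one_le_p
  have h5 : ((2 * E.p - 2 : ℕ) : ℝ) = 2 * E.p - 2 := by
    rw [Nat.cast_sub (by omega)]
    push_cast
    ring
  rw [h5] at h4
  have h6 : (2 * (E.p : ℝ) - 2) * -1 = -E.p + (2 - E.p) := by ring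
  rw [h6, Real.exp_add] at h4
  have h7 : Real.exp (2 - E.p) ≤ 1 / 1000 := by
    have h8 : (1000 : ℝ) ≤ Real.exp (E.p - 2) := by
      have := Real.add_one_le_exp ((E.p : ℝ) - 2)
      linarith
    have h9 : Real.exp (2 - E.p) = (Real.exp (E.p - 2))⁻¹ := by
      rw [← Real.exp_neg]
      congr 1
      ring
    rw [h9, one_div]
    exact inv_anti₀ (by norm_num) h8
  have hpi := Real.pi_lt_d2
  have hpi0 := Real.pi_pos
  have he := Real.exp_pos (-(E.p : ℝ))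
  calc 72 * Real.pi * (8 / 22) ^ (2 * E.p - 2)
      ≤ 72 * Real.pi * (Real.exp (-E.p) * Real.exp (2 - E.p)) :=
        mul_le_mul_of_nonneg_left h4 (by positivity)
    _ ≤ 72 * Real.pi * (Real.exp (-E.p) * (1 / 1000)) :=
        mul_le_mul_of_nonneg_left (mul_le_mul_of_nonneg_left h7 he.le) (by positivity)
    _ ≤ Real.exp (-E.p) / 3 := by nlinarith

theorem tail_nonneg : 0 ≤ 72 * Real.pi * (8 / (E.n * E.δ)) ^ (2 * E.p - 2) := by
  rw [E.nδ_eq]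
  have := Real.pi_pos
  positivity

theorem v_of_mem {z : ℂ} (h : z ∈ E.A) : E.v z = 1 - E.c₁ / YD (E.B z) := by
  unfold v
  rw [if_pos h]

theorem v_of_not {z : ℂ} (h : z ∉ E.A) : E.v z = 0 := by
  unfold v
  rw [if_neg h]

theorem v_zero_near {z ζ : ℂ} (h : ‖z - ζ‖ ≤ E.δ) (hi : E.Inact ζ) {w : ℂ}
    (hw : ‖w - z‖ < E.δ) : E.v w = 0 := by
  refine E.v_of_not (fun hA => ?_)
  have h1 := hi w hA
  have h2 : ‖ζ - w‖ ≤ ‖z - ζ‖ + ‖w - z‖ := by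
    have h3 : ζ - w = -((z - ζ) + (w - z)) := by ring
    rw [h3, norm_neg]
    exact norm_add_le _ _
  linarith

theorem g_tail {z ζ : ℂ} (hz : ‖z‖ ≤ 1) (h : ‖z - ζ‖ ≤ E.δ) (hi : E.Inact ζ) :
    ‖E.g.eval z‖ ≤ Real.exp (-E.p) := by
  have hn := E.one_le_n
  have hz1 : ‖z‖ ≤ 1 + 1 / (E.n : ℝ) := by
    have : 0 ≤ 1 / (E.n : ℝ) := by positivity
    linarith
  have h1 := chi_tail2 E.one_le_n E.one_le_p E.meas_v (V := 1) (fun u _ => E.abs_v_le u)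
    hz1 E.δ_pos (fun w _ hd => E.v_zero_near h hi hd)
  have h2 := E.tail
  have h3 := Real.exp_pos (-(E.p : ℝ))
  rw [E.g_eval, norm_mul, norm_pow]
  have h4 : ‖z‖ ^ (E.N - kd E.n E.p) ≤ 1 := pow_le_one₀ (norm_nonneg _) hz
  calc ‖z‖ ^ (E.N - kd E.n E.p) * ‖(chi E.n E.p E.v).eval z‖
      ≤ 1 * ‖(chi E.n E.p E.v).eval z‖ := mul_le_mul_of_nonneg_right h4 (norm_nonneg _)
    _ ≤ Real.exp (-E.p) := by linarith

theorem β_tail {ζ : ℂ} (hζ : ‖ζ‖ = 1) (hi : E.Inact ζ) : E.β ζ ≤ Real.exp (-E.p) := by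
  rw [← E.norm_g hζ]
  exact E.g_tail hζ.le (by simpa using E.δ_pos.le) hi

/-- the height at a point close to an active point -/
theorem Y_of_mem {x ζ : ℂ} (hζ : ‖ζ‖ = 1) (hx : x ∈ E.A) (h : ‖ζ - x‖ < 2 * E.δ) :
    0.99 * E.C₁ ≤ YD (E.B ζ) ∧ YD (E.B ζ) ≤ 1.01 * E.R := by
  have hδ := E.δ_pos
  have h1 := E.Y_close (x := ζ) (y := x) hζ.le hx.1.le (by linarith)
  rw [abs_le] at h1
  have h2 := hx.2.1
  have h3 := hx.2.2
  have hC := E.C_ge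
  constructor <;> linarith [h1.1, h1.2]

/-- a point of height below `0.98 C₁` is inactive -/
theorem inact_of_low {ζ : ℂ} (hζ : ‖ζ‖ = 1) (h : YD (E.B ζ) < 0.98 * E.C₁) : E.Inact ζ := by
  intro x hx
  by_contra hn
  have h1 := (E.Y_of_mem hζ hx (not_le.1 hn)).1
  have hC := E.C_ge
  linarith

theorem active_Y {ζ : ℂ} (hζ : ‖ζ‖ = 1) (ha : ¬ E.Inact ζ) :
    0.98 * E.C₁ ≤ YD (E.B ζ) ∧ YD (E.B ζ) ≤ 1.02 * E.R := by
  unfold Inact at ha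
  push Not at ha
  obtain ⟨x, hx, h⟩ := ha
  have h1 := E.Y_of_mem hζ hx h
  have hC := E.C_ge
  have hR := E.R_ge
  constructor <;> linarith [h1.1, h1.2]

theorem exp_M : Real.exp (-E.p) * E.M ≤ 1 / 10 ^ 12 := by
  have h1 := E.exp_pM
  have h2 := E.M_le_lM
  have h3 := Real.exp_pos (-(E.p : ℝ))
  have h4 := E.M_ge
  have h5 : Real.exp (-E.p) * E.M ≤ Real.exp (-E.p) * (((l : ℝ) + 1) * E.M) :=
    mul_le_mul_of_nonneg_left (by linarith) h3.le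
  linarith

theorem active_β {ζ : ℂ} (hζ : ‖ζ‖ = 1) (ha : ¬ E.Inact ζ) :
    E.c₁ / (2 * YD (E.B ζ)) ≤ 1 - E.β ζ := by
  obtain ⟨hY1, hY2⟩ := E.active_Y hζ ha
  have hc := E.c_ge
  have hC := E.hC
  have hR := E.hR
  have hδ := E.δ_pos
  have hY0 : 0 < YD (E.B ζ) := by linarith
  set Y := YD (E.B ζ) with hYdef
  have hloc : ∀ w : ℂ, ‖w‖ = 1 → ‖w - ζ‖ < E.δ → 0 ≤ E.v w ∧ E.v w ≤ 1 - 0.99 * E.c₁ / Y := by
    intro w hw hd
    refine ⟨E.v_nonneg w, ?_⟩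
    by_cases hA : w ∈ E.A
    · rw [E.v_of_mem hA]
      have h1 := E.Y_close (x := w) (y := ζ) hw.le hζ.le (by linarith)
      rw [← hYdef, abs_le] at h1
      have h2 : 0 < YD (E.B w) := by linarith [hA.2.1]
      have h3 : 0.99 * E.c₁ / Y ≤ E.c₁ / YD (E.B w) := by
        rw [div_le_div_iff₀ hY0 h2]
        have h4 : YD (E.B w) ≤ 1.01 * Y := by linarith [h1.2]
        have h5 : 0.99 * E.c₁ * YD (E.B w) ≤ 0.99 * E.c₁ * (1.01 * Y) :=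
          mul_le_mul_of_nonneg_left h4 (by linarith)
        have h6 : 0 ≤ E.c₁ * Y := mul_nonneg (by linarith) hY0.le
        linarith
      linarith
    · rw [E.v_of_not hA]
      have h1 : 0.99 * E.c₁ / Y ≤ 1 := by
        rw [div_le_one hY0]
        linarith
      linarith
  have h1 := (cf_local E.one_le_n E.one_le_p E.meas_v (V := 1) (fun u _ => E.abs_v_le u) hζ E.δ_pos
    hloc).2
  have h2 := E.tail
  have h3 := E.tail_nonneg
  have h4 : |1 - 0.99 * E.c₁ / Y| ≤ 1 := by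
    have h5 : 0.99 * E.c₁ / Y ≤ 1 := by
      rw [div_le_one hY0]
      linarith
    have h6 : 0 ≤ 0.99 * E.c₁ / Y := div_nonneg (by linarith) hY0.le
    rw [abs_le]
    constructor <;> linarith
  have h5 : 72 * Real.pi * (8 / (E.n * E.δ)) ^ (2 * E.p - 2) * (1 + |1 - 0.99 * E.c₁ / Y|) ≤
      Real.exp (-E.p) := by
    have h6 := Real.exp_pos (-(E.p : ℝ))
    calc 72 * Real.pi * (8 / (E.n * E.δ)) ^ (2 * E.p - 2) * (1 + |1 - 0.99 * E.c₁ / Y|)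
        ≤ 72 * Real.pi * (8 / (E.n * E.δ)) ^ (2 * E.p - 2) * 2 :=
          mul_le_mul_of_nonneg_left (by linarith) h3
      _ ≤ Real.exp (-E.p) := by linarith
  have hβ : E.β ζ = cf E.n E.p E.v ζ := rfl
  rw [← hβ] at h1
  have h7 : Real.exp (-E.p) ≤ 0.49 * E.c₁ / Y := by
    rw [le_div_iff₀ hY0]
    have h8 := E.exp_M
    have h9 := E.R_le_M
    have h10 := E.R_ge
    have h11 : Real.exp (-E.p) * Y ≤ Real.exp (-E.p) * E.M :=
      mul_le_mul_of_nonneg_left (by linarith) (Real.exp_pos _).le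
    have h12 : (1 : ℝ) / 10 ^ 12 ≤ 1 := by norm_num
    linarith
  have h8 : E.c₁ / (2 * Y) = 0.99 * E.c₁ / Y - 0.49 * E.c₁ / Y := by
    field_simp
    ring
  rw [h8]
  linarith

/-- well inside the active set the coefficient is as large as it should be -/
theorem β_lower {ζ : ℂ} (hζ : ‖ζ‖ = 1) (h1 : 1.02 * E.C₁ ≤ YD (E.B ζ))
    (h2 : YD (E.B ζ) ≤ 0.98 * E.R) : 1 - E.β ζ ≤ 1.02 * E.c₁ / YD (E.B ζ) + Real.exp (-E.p) := by
  have hc := E.c_ge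
  have hC := E.hC
  have hR := E.hR
  have hδ := E.δ_pos
  have hY0 : 0 < YD (E.B ζ) := by linarith
  set Y := YD (E.B ζ) with hYdef
  have hloc : ∀ w : ℂ, ‖w‖ = 1 → ‖w - ζ‖ < E.δ → 1 - 1.02 * E.c₁ / Y ≤ E.v w ∧ E.v w ≤ 1 := by
    intro w hw hd
    have h3 := E.Y_close (x := w) (y := ζ) hw.le hζ.le (by linarith)
    rw [← hYdef, abs_le] at h3
    have hA : w ∈ E.A := ⟨hw, by linarith [h3.1], by linarith [h3.2]⟩
    refine ⟨?_, (abs_le.1 (E.abs_v_le w)).2⟩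
    rw [E.v_of_mem hA]
    have h4 : 0 < YD (E.B w) := by linarith [hA.2.1]
    have h5 : E.c₁ / YD (E.B w) ≤ 1.02 * E.c₁ / Y := by
      rw [div_le_div_iff₀ h4 hY0]
      have h6 : 0.99 * Y ≤ YD (E.B w) := by linarith [h3.1]
      have h7 : 1.02 * E.c₁ * (0.99 * Y) ≤ 1.02 * E.c₁ * YD (E.B w) :=
        mul_le_mul_of_nonneg_left h6 (by linarith)
      have h8 : 0 ≤ E.c₁ * Y := mul_nonneg (by linarith) hY0.le
      linarith
    linarith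
  have h3 := (cf_local E.one_le_n E.one_le_p E.meas_v (V := 1) (fun u _ => E.abs_v_le u) hζ E.δ_pos
    hloc).1
  have h4 := E.tail
  have h5 := E.tail_nonneg
  have h6 : |1 - 1.02 * E.c₁ / Y| ≤ 1 := by
    have h5 : 1.02 * E.c₁ / Y ≤ 1 := by
      rw [div_le_one hY0]
      linarith
    have h6 : 0 ≤ 1.02 * E.c₁ / Y := div_nonneg (by linarith) hY0.le
    rw [abs_le]
    constructor <;> linarith
  have h7 : 72 * Real.pi * (8 / (E.n * E.δ)) ^ (2 * E.p - 2) * (1 + |1 - 1.02 * E.c₁ / Y|) ≤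
      Real.exp (-E.p) := by
    have h8 := Real.exp_pos (-(E.p : ℝ))
    calc 72 * Real.pi * (8 / (E.n * E.δ)) ^ (2 * E.p - 2) * (1 + |1 - 1.02 * E.c₁ / Y|)
        ≤ 72 * Real.pi * (8 / (E.n * E.δ)) ^ (2 * E.p - 2) * 2 :=
          mul_le_mul_of_nonneg_left (by linarith) h5
      _ ≤ Real.exp (-E.p) := by linarith
  have hβ : E.β ζ = cf E.n E.p E.v ζ := rfl
  rw [← hβ] at h3
  linarith

theorem local_zero {v : ℂ → ℝ} (hv : Measurable v) (h01 : ∀ u : ℂ, ‖u‖ = 1 → 0 ≤ v u ∧ v u ≤ 1)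
    {ζ : ℂ} (hζ : ‖ζ‖ = 1) (h : ∀ w : ℂ, ‖w‖ = 1 → ‖w - ζ‖ < E.δ → v w = 0) :
    cf E.n E.p v ζ ≤ Real.exp (-E.p) := by
  have hb : ∀ u : ℂ, ‖u‖ = 1 → |v u| ≤ 1 := fun u hu => by
    rw [abs_le]
    constructor <;> linarith [(h01 u hu).1, (h01 u hu).2]
  have h1 := (cf_local E.one_le_n E.one_le_p hv hb hζ E.δ_pos (c := 0) (c' := 0)
    (fun w hw hd => by rw [h w hw hd]; exact ⟨le_rfl, le_rfl⟩)).2
  have h2 := E.tail
  have h3 := Real.exp_pos (-(E.p : ℝ))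
  rw [abs_zero, add_zero, mul_one, zero_add] at h1
  linarith

theorem local_one {v : ℂ → ℝ} (hv : Measurable v) (h01 : ∀ u : ℂ, ‖u‖ = 1 → 0 ≤ v u ∧ v u ≤ 1)
    {ζ : ℂ} (hζ : ‖ζ‖ = 1) (h : ∀ w : ℂ, ‖w‖ = 1 → ‖w - ζ‖ < E.δ → v w = 1) :
    1 - Real.exp (-E.p) ≤ cf E.n E.p v ζ := by
  have hb : ∀ u : ℂ, ‖u‖ = 1 → |v u| ≤ 1 := fun u hu => by
    rw [abs_le]
    constructor <;> linarith [(h01 u hu).1, (h01 u hu).2]
  have h1 := (cf_local E.one_le_n E.one_le_p hv hb hζ E.δ_pos (c := 1) (c' := 1)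
    (fun w hw hd => by rw [h w hw hd]; exact ⟨le_rfl, le_rfl⟩)).1
  have h2 := E.tail
  have h3 := Real.exp_pos (-(E.p : ℝ))
  rw [abs_one] at h1
  linarith

end Pool.Agent.Helper61.QF.Ev
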