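import Pool.Agent.Helper61.QF.Ev3

/-!
# Ev4 (MP_78803a, EVENT): the type of an active point, before and after the step

Proof.
* `ct_nonneg`, `ct_le_one`: `cf_nonneg`, `cf_le`.
* `type_inact`: `ps (B ζ) (B₊ ζ) = β ζ ≤ e^(-p)` (`step_ps_circle`, `E.norm_g`), so `xt_harnack` with
  `(1-ps)/(1+ps) ≥ 0.99` and `Y/2 - 5 ≥ 95` (height at least `C₁/4 ≥ 200`) gives
  `log (xt τ (B₊ ζ)) ≤ 3 - 0.99 (Y/2 - 5) ≤ - log 8`.
* `active_type`: `Y(Bζ) ≥ 0.98 C₁`, take `τ` from `xt_exists`. On `|w - ζ| < δ` the type is `τ` (`xt_close`) and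
  the height at least `C₁/4` (`Y_close`), so `vt τ = 1`, `vt τ' = 0` there: `local_one`, `local_zero`.
  `ps (B ζ) (B₊ ζ) = β`, `(1-β)/(1+β) ≥ (1-β)/2 ≥ c₁/(4Y)` (`active_β`) and `Y/2 - 5 ≥ 0.49 Y` (as `Y ≥ 784`), so
  `xt_harnack` gives `log (xt τ (B₊ζ)) ≤ 3 - 0.12 c₁ ≤ -log (4 * 2^l)`, because `c₁ ≥ 200 (l+1)`.
-/

set_option autoImplicit false

open Polynomial Complex Metric
open Pool.Agent.Helper81.QF Pool.Agent.Helper29.QF
open Pool.Agent.Helper84.Lam (YD lamD LL L1 F3 ps)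

namespace Pool.Agent.Helper61.QF.Ev

variable {l : ℕ} (E : Ev l)

theorem ev4_vt_01 (τ : Fin 3) (z : ℂ) : 0 ≤ E.vt τ z ∧ E.vt τ z ≤ 1 := by
  unfold vt
  split_ifs
  · exact ⟨zero_le_one, le_rfl⟩
  · exact ⟨le_rfl, zero_le_one⟩

theorem ct_nonneg (τ : Fin 3) (z : ℂ) : 0 ≤ E.ct τ z := by
  unfold ct
  exact cf_nonneg E.one_le_n E.p (fun u _ => (E.ev4_vt_01 τ u).1) z

theorem ct_le_one (τ : Fin 3) {z : ℂ} (hz : ‖z‖ = 1) : E.ct τ z ≤ 1 := by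
  unfold ct
  refine cf_le E.one_le_n E.p (E.meas_vt τ) (V := 1) (fun u _ => ?_) (fun u _ => (E.ev4_vt_01 τ u).2) hz
  rw [abs_le]
  exact ⟨by linarith [(E.ev4_vt_01 τ u).1], (E.ev4_vt_01 τ u).2⟩

/-- `ps (B ζ) (B₊ ζ) = β` on the circle -/
theorem ps_step {ζ : ℂ} (hζ : ‖ζ‖ = 1) : ps (E.B ζ) (E.Bp ζ) = E.β ζ := by
  rw [← E.norm_g hζ]
  exact step_ps_circle E.pair hζ (E.g_lt hζ.le)

/-- from the logarithmic Harnack bound to a bound for the type -/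
theorem ev4_le_of_log {x y a : ℝ} (hx : 0 < x) (hy : 0 < y) (h : Real.log x ≤ a)
    (ha : a ≤ -Real.log y) : x ≤ 1 / y := by
  have h1 : Real.log x ≤ Real.log (1 / y) := by
    rw [one_div, Real.log_inv]
    linarith
  exact (Real.log_le_log_iff hx (by positivity)).1 h1

theorem type_inact {ζ : ℂ} (hζ : ‖ζ‖ = 1) (hi : E.Inact ζ) (hY : E.C₁ / 4 ≤ YD (E.B ζ))
    {τ : Fin 3} (hτ : xt τ (E.B ζ) ≤ 1 / 10) : xt τ (E.Bp ζ) ≤ 1 / 8 := by
  have hC := E.C_ge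
  have hw := E.B_lt hζ.le
  have hv := E.Bp_lt hζ.le
  have hβ0 := E.β_nonneg ζ
  have hβ1 : E.β ζ ≤ 1 / 10 ^ 18 := (E.β_tail hζ hi).trans E.exp_p_le
  have hps := E.ps_step hζ
  have hfac : 0.99 ≤ (1 - E.β ζ) / (1 + E.β ζ) := by
    rw [le_div_iff₀ (by linarith)]
    norm_num at hβ1 ⊢
    linarith
  have hY2 : 95 ≤ YD (E.B ζ) / 2 - 5 := by linarith
  have hprod : 0.99 * 95 ≤ (1 - E.β ζ) / (1 + E.β ζ) * (YD (E.B ζ) / 2 - 5) :=
    mul_le_mul hfac hY2 (by norm_num) (le_trans (by norm_num) hfac)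
  have h6 : 6 ≤ (1 - ps (E.B ζ) (E.Bp ζ)) / (1 + ps (E.B ζ) (E.Bp ζ)) *
      (YD (E.B ζ) / 2 - 5) := by
    rw [hps]
    exact le_trans (by norm_num) hprod
  have h7 := xt_harnack hw hv (by linarith) hτ h6
  rw [hps] at h7
  refine ev4_le_of_log (xt_pos hv τ) (by norm_num) h7 ?_
  have h8 : Real.log 8 ≤ 7 := by
    have := Real.log_le_sub_one_of_pos (show (0 : ℝ) < 8 by norm_num)
    linarith
  norm_num at hprod
  linarith

/-- an active point: if its type is `τ`, then `ct τ` is almost `1`, the others almost `0`, and the new point is deep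
in the cusp `τ`. -/
theorem active_of_type {ζ : ℂ} (hζ : ‖ζ‖ = 1) (ha : ¬ E.Inact ζ) {τ : Fin 3}
    (hτ : xt τ (E.B ζ) ≤ 1 / 10) :
    1 - Real.exp (-E.p) ≤ E.ct τ ζ ∧ (∀ τ' : Fin 3, τ' ≠ τ → E.ct τ' ζ ≤ Real.exp (-E.p)) ∧
      xt τ (E.Bp ζ) ≤ 1 / (4 * 2 ^ l) := by
  obtain ⟨hY1, hY2⟩ := E.active_Y hζ ha
  have hC := E.C_ge
  have hδ := E.δ_pos
  have hc := E.hc
  have hc4 := E.c_ge
  have hw := E.B_lt hζ.le
  have hv := E.Bp_lt hζ.le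
  have hl := E.l1
  have hY0 : 0 < YD (E.B ζ) := by linarith
  have hYC : E.C₁ / 4 ≤ YD (E.B ζ) := by linarith
  refine ⟨?_, ?_, ?_⟩
  · refine E.local_one (E.meas_vt τ) (fun u _ => E.ev4_vt_01 τ u) hζ (fun w hw1 hd => ?_)
    have h1 := E.xt_close (x := w) (y := ζ) hw1.le hζ.le (by linarith) hYC hτ
    have h2 := E.Y_close (x := w) (y := ζ) hw1.le hζ.le (by linarith)
    rw [abs_le] at h2
    unfold vt
    rw [if_pos ⟨hw1, by linarith [h2.1], h1.1⟩]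
  · intro τ' hne
    refine E.local_zero (E.meas_vt τ') (fun u _ => E.ev4_vt_01 τ' u) hζ (fun w hw1 hd => ?_)
    have h1 := E.xt_close (x := w) (y := ζ) hw1.le hζ.le (by linarith) hYC hτ
    unfold vt
    rw [if_neg]
    rintro ⟨_, _, h3⟩
    linarith [h1.2 τ' hne]
  · have hβ0 := E.β_nonneg ζ
    have hβ1 := E.β_lt hζ
    have hact := E.active_β hζ ha
    have hps := E.ps_step hζ
    have hY2' : 0.49 * YD (E.B ζ) ≤ YD (E.B ζ) / 2 - 5 := by linarith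
    have hfac : E.c₁ / (4 * YD (E.B ζ)) ≤ (1 - E.β ζ) / (1 + E.β ζ) := by
      have h1 : (1 - E.β ζ) / 2 ≤ (1 - E.β ζ) / (1 + E.β ζ) :=
        div_le_div_of_nonneg_left (by linarith) (by linarith) (by linarith)
      have h2 : E.c₁ / (4 * YD (E.B ζ)) = E.c₁ / (2 * YD (E.B ζ)) / 2 := by
        field_simp
        norm_num
      rw [h2]
      linarith
    have hprod : 0.12 * E.c₁ ≤ (1 - E.β ζ) / (1 + E.β ζ) * (YD (E.B ζ) / 2 - 5) := by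
      have h1 : E.c₁ / (4 * YD (E.B ζ)) * (0.49 * YD (E.B ζ)) ≤
          (1 - E.β ζ) / (1 + E.β ζ) * (YD (E.B ζ) / 2 - 5) :=
        mul_le_mul hfac hY2' (by positivity) (le_trans (by positivity) hfac)
      have h2 : E.c₁ / (4 * YD (E.B ζ)) * (0.49 * YD (E.B ζ)) = 0.1225 * E.c₁ := by
        field_simp
        norm_num
      rw [h2] at h1
      linarith
    have h6 : 6 ≤ (1 - ps (E.B ζ) (E.Bp ζ)) / (1 + ps (E.B ζ) (E.Bp ζ)) *
        (YD (E.B ζ) / 2 - 5) := by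
      rw [hps]
      linarith
    have h7 := xt_harnack hw hv (by linarith) hτ h6
    rw [hps] at h7
    refine ev4_le_of_log (xt_pos hv τ) (by positivity) h7 ?_
    have h8 : Real.log (4 * 2 ^ l) ≤ (l : ℝ) + 3 := by
      rw [Real.log_mul (by norm_num) (by positivity), Real.log_pow]
      have h4 : Real.log 4 ≤ 3 := by
        have := Real.log_le_sub_one_of_pos (show (0 : ℝ) < 4 by norm_num)
        linarith
      have h2 : Real.log 2 ≤ 1 := by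
        have := Real.log_le_sub_one_of_pos (show (0 : ℝ) < 2 by norm_num)
        linarith
      nlinarith
    linarith

theorem active_type {ζ : ℂ} (hζ : ‖ζ‖ = 1) (ha : ¬ E.Inact ζ) :
    ∃ τ : Fin 3, xt τ (E.B ζ) ≤ 1 / 10 ∧ 1 - Real.exp (-E.p) ≤ E.ct τ ζ ∧
      (∀ τ' : Fin 3, τ' ≠ τ → E.ct τ' ζ ≤ Real.exp (-E.p)) ∧
      xt τ (E.Bp ζ) ≤ 1 / (4 * 2 ^ l) := by
  have hY := (E.active_Y hζ ha).1
  have hC := E.C_ge
  obtain ⟨τ, _, hτ⟩ := xt_exists (E.B_lt hζ.le) (by linarith : 20 ≤ YD (E.B ζ))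
  exact ⟨τ, hτ, E.active_of_type hζ ha hτ⟩

end Pool.Agent.Helper61.QF.Ev
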