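import Pool.Agent.Helper61.QF.Ev4

/-!
# Ev5 (MP_78803a, EVENT): heights after the step

Proof.
* inactive: `ps (B ζ) (B₊ ζ) = β ≤ e^(-p)` (`ps_step`, `β_tail`), `Helper84.Lam.L4`: `|log Y₊ - log Y| ≤ 6700 e^(-p)`,
  and `6700 e^(-p) * 2 * U ≤ 1/100` by `E.exp_pM` (`2 U ≤ M`).
* active: `T_L5`: `Y₊ (1 - β) ≤ 12 Y` (note `T_L5 {v w} : YD v * (1 - ps v w) ≤ 12 * YD w`, `ps` is symmetric), with
  `active_β`: `Y₊ ≤ 12 Y * 2Y/c₁ = 24 Y²/c₁ ≤ 24 * (1.02 R)²/400 ≤ R²/10` (`active_Y`).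
* closed disc: `Helper29.QF.YD_inner`, `Helper29.QF.LL_inner` for both pairs (`U ≤ M/2`).
-/

set_option autoImplicit false

open Polynomial Complex Metric
open Pool.Agent.Helper81.QF Pool.Agent.Helper29.QF
open Pool.Agent.Helper84.Lam (YD lamD LL L1 F3 ps)

namespace Pool.Agent.Helper61.QF.Ev

variable {l : ℕ} (E : Ev l)

theorem ps_comm' (a b : ℂ) : ps a b = ps b a := by
  unfold ps
  have h1 : ‖a - b‖ = ‖b - a‖ := norm_sub_rev a b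
  have h2 : ‖1 - (starRingEnd ℂ) a * b‖ = ‖1 - (starRingEnd ℂ) b * a‖ := by
    rw [← Complex.norm_conj (1 - (starRingEnd ℂ) a * b)]
    congr 1
    simp only [map_sub, map_one, map_mul, Complex.conj_conj]
    ring
  rw [h1, h2]

theorem Yp_inact {ζ : ℂ} (hζ : ‖ζ‖ = 1) (hi : E.Inact ζ) :
    |YD (E.Bp ζ) - YD (E.B ζ)| ≤ YD (E.B ζ) / 100 ∧ YD (E.Bp ζ) ≤ YD (E.B ζ) + 1 := by
  have hw := E.B_lt hζ.le
  have hv := E.Bp_lt hζ.le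
  have hβ0 := E.β_nonneg ζ
  have hβ := E.β_tail hζ hi
  have he := E.exp_p_le
  have hps := E.ps_step hζ
  have h4 := Pool.Agent.Helper84.Lam.L4 hw hv (by
    rw [hps]
    refine hβ.trans (he.trans ?_)
    norm_num)
  rw [hps] at h4
  have hY0 : 0.8 ≤ YD (E.B ζ) := Pool.Agent.Helper84.Lam.YD_lower hw
  have hY1 : 0.8 ≤ YD (E.Bp ζ) := Pool.Agent.Helper84.Lam.YD_lower hv
  have hYp : (0 : ℝ) < YD (E.B ζ) := by linarith
  have hYq : (0 : ℝ) < YD (E.Bp ζ) := by linarith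
  set t := Real.log (YD (E.Bp ζ)) - Real.log (YD (E.B ζ)) with ht
  have hexp : YD (E.Bp ζ) = YD (E.B ζ) * Real.exp t := by
    rw [ht, Real.exp_sub, Real.exp_log hYp, Real.exp_log hYq]
    field_simp
  have ht1 : |t| ≤ 6700 * Real.exp (-E.p) := h4.trans (mul_le_mul_of_nonneg_left hβ (by norm_num))
  have he0 := Real.exp_pos (-(E.p : ℝ))
  have ht2 : |t| ≤ 1 := by
    refine ht1.trans ?_
    have : 6700 * Real.exp (-(E.p : ℝ)) ≤ 6700 * (1 / 10 ^ 18) :=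
      mul_le_mul_of_nonneg_left he (by norm_num)
    refine this.trans ?_
    norm_num
  have h5 : |Real.exp t - 1| ≤ 2 * |t| := Real.abs_exp_sub_one_le ht2
  have h6 : |YD (E.Bp ζ) - YD (E.B ζ)| ≤ YD (E.B ζ) * (13400 * Real.exp (-E.p)) := by
    have h7 : YD (E.Bp ζ) - YD (E.B ζ) = YD (E.B ζ) * (Real.exp t - 1) := by
      rw [hexp]
      ring
    rw [h7, abs_mul, abs_of_pos hYp]
    refine mul_le_mul_of_nonneg_left ?_ hYp.le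
    linarith
  have hU := E.hY ζ hζ
  have hMU := E.hMU
  have hM := E.exp_M
  constructor
  · refine h6.trans ?_
    have h8 : 13400 * Real.exp (-(E.p : ℝ)) ≤ 1 / 100 := by
      have : 13400 * Real.exp (-(E.p : ℝ)) ≤ 13400 * (1 / 10 ^ 18) :=
        mul_le_mul_of_nonneg_left he (by norm_num)
      refine this.trans ?_
      norm_num
    have h9 := mul_le_mul_of_nonneg_left h8 hYp.le
    linarith
  · have h8 := (abs_le.1 h6).2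
    have hYM : YD (E.B ζ) ≤ E.M := by
      have hU' : YD (E.B ζ) ≤ E.U := hU
      have := E.hU
      linarith
    have h9 : YD (E.B ζ) * (13400 * Real.exp (-(E.p : ℝ))) ≤ 13400 * (Real.exp (-E.p) * E.M) := by
      have h10 : YD (E.B ζ) * Real.exp (-(E.p : ℝ)) ≤ E.M * Real.exp (-(E.p : ℝ)) :=
        mul_le_mul_of_nonneg_right hYM he0.le
      linarith
    have h11 : 13400 * (Real.exp (-(E.p : ℝ)) * E.M) ≤ 13400 * (1 / 10 ^ 12) :=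
      mul_le_mul_of_nonneg_left hM (by norm_num)
    have h12 : (13400 : ℝ) * (1 / 10 ^ 12) ≤ 1 := by norm_num
    linarith

theorem Yp_active {ζ : ℂ} (hζ : ‖ζ‖ = 1) (ha : ¬ E.Inact ζ) : YD (E.Bp ζ) ≤ E.R ^ 2 := by
  obtain ⟨hY1, hY2⟩ := E.active_Y hζ ha
  have hact := E.active_β hζ ha
  have hw := E.B_lt hζ.le
  have hv := E.Bp_lt hζ.le
  have h5 := Pool.Agent.Helper84.Lam.T_L5 hv hw
  rw [ps_comm', E.ps_step hζ] at h5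
  have hC := E.C_ge
  have hc := E.c_ge
  have hR := E.R_ge
  have hY0 : 0 < YD (E.B ζ) := by linarith
  have hYq : 0.8 ≤ YD (E.Bp ζ) := Pool.Agent.Helper84.Lam.YD_lower hv
  have h6 : YD (E.Bp ζ) * (E.c₁ / (2 * YD (E.B ζ))) ≤ 12 * YD (E.B ζ) :=
    (mul_le_mul_of_nonneg_left hact (by linarith)).trans h5
  have h7 : YD (E.Bp ζ) * E.c₁ ≤ 24 * YD (E.B ζ) ^ 2 := by
    have h8 : YD (E.Bp ζ) * (E.c₁ / (2 * YD (E.B ζ))) = YD (E.Bp ζ) * E.c₁ / (2 * YD (E.B ζ)) := by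
      ring
    rw [h8, div_le_iff₀ (by linarith)] at h6
    nlinarith
  have h9 : YD (E.Bp ζ) * 400 ≤ YD (E.Bp ζ) * E.c₁ :=
    mul_le_mul_of_nonneg_left hc (by linarith)
  have h10 : YD (E.B ζ) ^ 2 ≤ (1.02 * E.R) ^ 2 := pow_le_pow_left₀ hY0.le hY2 2
  have h11 : 0 ≤ E.R ^ 2 := sq_nonneg _
  nlinarith

theorem Yp_or {ζ : ℂ} (hζ : ‖ζ‖ = 1) :
    YD (E.Bp ζ) ≤ YD (E.B ζ) + 1 ∨ YD (E.Bp ζ) ≤ E.R ^ 2 := by
  by_cases h : E.Inact ζ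
  · exact Or.inl (E.Yp_inact hζ h).2
  · exact Or.inr (E.Yp_active hζ h)

theorem Yp_circle {ζ : ℂ} (hζ : ‖ζ‖ = 1) : YD (E.Bp ζ) ≤ E.M := by
  have hMR := E.hMR
  have hMU := E.hMU
  have hM := E.M_ge
  rcases E.Yp_or hζ with h | h
  · have hU : YD (E.B ζ) ≤ E.U := E.hY ζ hζ
    linarith
  · exact h.trans hMR

theorem Y_circle {ζ : ℂ} (hζ : ‖ζ‖ = 1) : YD (E.B ζ) ≤ E.M / 2 := by
  have hMU := E.hMU
  have hU : YD (E.B ζ) ≤ E.U := E.hY ζ hζ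
  linarith

theorem Y_inner {z : ℂ} (hz : ‖z‖ ≤ 1) : YD (E.B z) ≤ 19 * E.M := by
  have h := YD_inner E.pair (U := E.M / 2) (fun w hw => E.Y_circle hw) hz
  have h' : YD (E.B z) ≤ 38 * (E.M / 2) := h
  linarith

theorem Yp_inner {z : ℂ} (hz : ‖z‖ ≤ 1) : YD (E.Bp z) ≤ 38 * E.M := by
  exact YD_inner E.pair' (U := E.M) (fun w hw => E.Yp_circle hw) hz

theorem LL_in {z : ℂ} (hz : ‖z‖ ≤ 1) :
    |(LL (E.B z)).re| ≤ 3.5 * E.M ∧ |(L1 (E.B z)).re| ≤ 3.5 * E.M := by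
  have h := LL_inner E.pair (U := E.M / 2) (fun w hw => E.Y_circle hw) hz
  have h' : |(LL (E.B z)).re| ≤ 7 * (E.M / 2) ∧ |(L1 (E.B z)).re| ≤ 7 * (E.M / 2) := h
  constructor
  · linarith [h'.1]
  · linarith [h'.2]

theorem LLp_in {z : ℂ} (hz : ‖z‖ ≤ 1) :
    |(LL (E.Bp z)).re| ≤ 7 * E.M ∧ |(L1 (E.Bp z)).re| ≤ 7 * E.M := by
  exact LL_inner E.pair' (U := E.M) (fun w hw => E.Yp_circle hw) hz

/-- the same for `|λ|` and `|1 - λ|` -/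
theorem lam_in {z : ℂ} (hz : ‖z‖ ≤ 1) :
    Real.exp (-(3.5 * E.M)) ≤ ‖lamD (E.B z)‖ ∧ ‖lamD (E.B z)‖ ≤ Real.exp (3.5 * E.M) ∧
      Real.exp (-(3.5 * E.M)) ≤ ‖1 - lamD (E.B z)‖ ∧ ‖1 - lamD (E.B z)‖ ≤ Real.exp (3.5 * E.M) := by
  obtain ⟨h1, h2⟩ := E.LL_in hz
  have hw := E.B_lt hz
  rw [Pool.Agent.Helper84.Lam.re_LL hw] at h1
  rw [Pool.Agent.Helper84.Lam.re_L1 hw] at h2
  have n0 : 0 < ‖lamD (E.B z)‖ := norm_pos_iff.2 (Pool.Agent.Helper84.Lam.lamD_ne_zero hw)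
  have n1 : 0 < ‖1 - lamD (E.B z)‖ :=
    norm_pos_iff.2 (sub_ne_zero.2 (Pool.Agent.Helper84.Lam.lamD_ne_one hw).symm)
  rw [abs_le] at h1 h2
  exact ⟨(Real.le_log_iff_exp_le n0).1 h1.1, (Real.log_le_iff_le_exp n0).1 h1.2,
    (Real.le_log_iff_exp_le n1).1 h2.1, (Real.log_le_iff_le_exp n1).1 h2.2⟩

theorem lamp_in {z : ℂ} (hz : ‖z‖ ≤ 1) :
    Real.exp (-(7 * E.M)) ≤ ‖lamD (E.Bp z)‖ ∧ ‖lamD (E.Bp z)‖ ≤ Real.exp (7 * E.M) ∧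
      Real.exp (-(7 * E.M)) ≤ ‖1 - lamD (E.Bp z)‖ ∧ ‖1 - lamD (E.Bp z)‖ ≤ Real.exp (7 * E.M) := by
  obtain ⟨h1, h2⟩ := E.LLp_in hz
  have hw := E.Bp_lt hz
  rw [Pool.Agent.Helper84.Lam.re_LL hw] at h1
  rw [Pool.Agent.Helper84.Lam.re_L1 hw] at h2
  have n0 : 0 < ‖lamD (E.Bp z)‖ := norm_pos_iff.2 (Pool.Agent.Helper84.Lam.lamD_ne_zero hw)
  have n1 : 0 < ‖1 - lamD (E.Bp z)‖ :=
    norm_pos_iff.2 (sub_ne_zero.2 (Pool.Agent.Helper84.Lam.lamD_ne_one hw).symm)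
  rw [abs_le] at h1 h2
  exact ⟨(Real.le_log_iff_exp_le n0).1 h1.1, (Real.log_le_iff_le_exp n0).1 h1.2,
    (Real.le_log_iff_exp_le n1).1 h2.1, (Real.log_le_iff_le_exp n1).1 h2.2⟩

end Pool.Agent.Helper61.QF.Ev
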