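import Pool.Agent.Helper29.QF.Cut2
import Pool.Agent.Helper29.QF.JJ
import Pool.Agent.Helper84.PD.Mean
import Pool.Agent.Helper84.Lam.Tools61b
import Pool.Agent.Helper61.QF.Alg

/-!
# MP_78803a, EVENT: data of one event step and the objects built from them

Text: memo_MP_78803a_an_FULL_C_helper61.md. `V` is the frequency bound (`X` in `Mid`), `U` bounds the height
on the circle, `R = T^3` is the cap, `M` bounds the height before and after, `Λ` bounds all moderate sizes.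
-/

set_option autoImplicit false

open Polynomial Complex Metric
open Pool.Agent.Helper81.QF Pool.Agent.Helper29.QF
open Pool.Agent.Helper84.Lam (YD lamD LL L1 F3 ps)

namespace Pool.Agent.Helper61.QF

/-- the quantity `x_τ` which is small in the cusp of type `τ` -/
noncomputable def xt (τ : Fin 3) (w : ℂ) : ℝ :=
  if τ = 0 then ‖1 - lamD w‖ else if τ = 1 then ‖lamD w‖ else ‖lamD w‖⁻¹

/-- Data and hypotheses of one event. -/
structure Ev (l : ℕ) where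
  m : ℕ
  b : ℂ[X]
  d : ℂ[X]
  f : ℂ → ℂ
  P : ℂ → ℂ
  V : ℝ
  U : ℝ
  n : ℕ
  p : ℕ
  J : ℕ
  R : ℝ
  c₁ : ℝ
  C₁ : ℝ
  M : ℝ
  s : ℝ
  Λ : ℝ
  hl : 1 ≤ l
  -- the state
  core : Core l V m b d f P
  hV : 1 ≤ V
  hY : ∀ z : ℂ, ‖z‖ = 1 → YD (Bq b d z) ≤ U
  hP : ∀ z : ℂ, ‖z‖ = 1 → ‖P z‖ * ee l (Bq b d z) ≤ V ^ l * ‖f z‖
  -- the parameters
  hU : 1 ≤ U
  hn : 10 ^ 8 * V ≤ n
  hc : 200 * ((l : ℝ) + 1) ≤ c₁
  hC : 2 * c₁ ≤ C₁
  hR : 2 * C₁ ≤ R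
  hMR : R ^ 2 ≤ M
  hMU : 2 * U ≤ M
  hs0 : 0 < s
  hs : 20000 * ((l : ℝ) + 1) * M * ((4 * p * n : ℕ) * R) * s ≤ 1 / 4
  hΛM : 100 * ((l : ℝ) + 1) * M ≤ Λ
  hΛs : (1 / s) ^ l ≤ Real.exp Λ
  hΛl : 10 * 2 ^ l * (l.factorial : ℝ) ≤ Real.exp Λ
  hJ : 40 * Λ ≤ J
  hp : 200 * ((l : ℝ) + 1) * M * ((J : ℝ) + 1) ≤ p

namespace Ev

variable {l : ℕ} (E : Ev l)

/-- the frequency `N = 4 p n` -/
def N : ℕ := 4 * E.p * E.n

/-- the range of the kernel -/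
noncomputable def δ : ℝ := 22 / E.n

/-- `B` -/
noncomputable abbrev B : ℂ → ℂ := Bq E.b E.d

/-- the active set -/
def A : Set ℂ := {z : ℂ | ‖z‖ = 1 ∧ E.C₁ ≤ YD (E.B z) ∧ YD (E.B z) ≤ E.R}

open Classical in
/-- the function which is smoothed: `1 - c₁/Y` on the active set, `0` elsewhere -/
noncomputable def v (z : ℂ) : ℝ := if z ∈ E.A then 1 - E.c₁ / YD (E.B z) else 0

/-- `β` -/
noncomputable def β (z : ℂ) : ℝ := cf E.n E.p E.v z

/-- the Szegő coefficient `g = z^(N-kd) χ`, `|g| = β` on the circle -/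
noncomputable def g : ℂ[X] := X ^ (E.N - kd E.n E.p) * chi E.n E.p E.v

/-- the new pair -/
noncomputable def bp : ℂ[X] := E.b + E.g * star E.m E.d
noncomputable def dp : ℂ[X] := E.d + E.g * star E.m E.b

/-- the new `B` -/
noncomputable abbrev Bp : ℂ → ℂ := Bq E.bp E.dp

open Classical in
/-- the cut-off of the cusp of type `τ` before smoothing -/
noncomputable def vt (τ : Fin 3) (z : ℂ) : ℝ :=
  if ‖z‖ = 1 ∧ E.C₁ / 4 ≤ YD (E.B z) ∧ xt τ (E.B z) ≤ 1 / 10 then 1 else 0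

/-- the smoothed cut-off -/
noncomputable def ct (τ : Fin 3) (z : ℂ) : ℝ := cf E.n E.p (E.vt τ) z

/-- `log (d₊/d)`, principal branch (`|d₊/d - 1| ≤ |g| < 1`) -/
noncomputable def ld (z : ℂ) : ℂ := Complex.log (E.dp.eval z / E.d.eval z)

/-- `G = log (jj/jj₊)` -/
noncomputable def G (z : ℂ) : ℂ :=
  L1 (E.Bp z) - L1 (E.B z) - l * (F3 (E.Bp z) - F3 (E.B z)) + 2 * l * E.ld z

/-- `G` dilated -/
noncomputable def Gt (z : ℂ) : ℂ := E.G (((1 - E.s : ℝ) : ℂ) * z)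

/-- `f e^G~` -/
noncomputable def fG (z : ℂ) : ℂ := E.f z * cexp (E.Gt z)

/-- `W = (f e^G~)^(l) - P Ψ₊` -/
noncomputable def W (z : ℂ) : ℂ := iteratedDeriv l E.fG z - E.P z * PP l (lamD (E.Bp z))

/-- `Σ` on the circle -/
noncomputable def sig (z : ℂ) : ℂ := ∑ τ : Fin 3, (E.ct τ z : ℂ) * TT l E.J τ (lamD (E.Bp z))

/-- `F = W (Ψ₊ Σ - 1)` on the circle -/
noncomputable def F (z : ℂ) : ℂ := E.W z * (PP l (lamD (E.Bp z)) * E.sig z - 1)

/-- a point is inactive if the active set has distance at least `2δ` -/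
def Inact (z : ℂ) : Prop := ∀ x ∈ E.A, 2 * E.δ ≤ ‖z - x‖

/-! ### the release -/

open Classical in
/-- type `τ`, height between `C₁/2` and `R/2` -/
noncomputable def ut (τ : Fin 3) (z : ℂ) : ℝ :=
  if ‖z‖ = 1 ∧ E.C₁ / 2 ≤ YD (E.B z) ∧ YD (E.B z) ≤ E.R / 2 ∧ xt τ (E.B z) ≤ 1 / 10 then 1 else 0

open Classical in
noncomputable def ulow (z : ℂ) : ℝ := if ‖z‖ = 1 ∧ YD (E.B z) < E.C₁ / 2 then 1 else 0

open Classical in
noncomputable def uhigh (z : ℂ) : ℝ := if ‖z‖ = 1 ∧ E.R / 2 < YD (E.B z) then 1 else 0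

noncomputable def at' (τ : Fin 3) (z : ℂ) : ℝ := cf E.n E.p (E.ut τ) z
noncomputable def alow (z : ℂ) : ℝ := cf E.n E.p E.ulow z
noncomputable def ahigh (z : ℂ) : ℝ := cf E.n E.p E.uhigh z

/-- `Q = F3(B₊) - F3(B) - 2 log(d₊/d)` -/
noncomputable def Q (z : ℂ) : ℂ := F3 (E.Bp z) - F3 (E.B z) - 2 * E.ld z

/-- `LL(B₊) - LL(B)` -/
noncomputable def D2 (z : ℂ) : ℂ := LL (E.Bp z) - LL (E.B z)

/-! ### consequences of the hypotheses on the parameters -/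

theorem pair : Pair E.m E.b E.d := E.core.pair

include E in
theorem l1 : (1 : ℝ) ≤ l := by exact_mod_cast E.hl

theorem c_ge : 400 ≤ E.c₁ := by
  have := E.hc
  have := E.l1
  nlinarith

theorem C_ge : 800 ≤ E.C₁ := by
  have := E.hC
  have := E.c_ge
  linarith

theorem R_ge : 1600 ≤ E.R := by
  have := E.hR
  have := E.C_ge
  linarith

theorem M_ge : 10 ^ 6 ≤ E.M := by
  have := E.hMR
  have := E.R_ge
  nlinarith

theorem R_le_M : 1600 * E.R ≤ E.M := by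
  have := E.hMR
  have := E.R_ge
  nlinarith

theorem lM_ge : 2 * 10 ^ 6 ≤ ((l : ℝ) + 1) * E.M := by
  have := E.l1
  have := E.M_ge
  nlinarith

theorem M_le_lM : 2 * E.M ≤ ((l : ℝ) + 1) * E.M := by
  have := E.l1
  have := E.M_ge
  nlinarith

theorem Λ_ge : 2 * 10 ^ 8 ≤ E.Λ := by
  have := E.hΛM
  have := E.lM_ge
  nlinarith

theorem J_ge : 8 * 10 ^ 9 ≤ (E.J : ℝ) := by
  have := E.hJ
  have := E.Λ_ge
  linarith

theorem J_ge_lM : 4000 * (((l : ℝ) + 1) * E.M) ≤ E.J := by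
  have := E.hJ
  have := E.hΛM
  linarith

theorem p_ge : 10 ^ 8 * (E.J : ℝ) ≤ E.p := by
  have h1 := E.hp
  have h2 := E.lM_ge
  have h3 := E.J_ge
  nlinarith

theorem p_ge_lM : 10 ^ 9 * (((l : ℝ) + 1) * E.M) ≤ E.p := by
  have h1 := E.p_ge
  have h2 := E.J_ge_lM
  have h3 := E.lM_ge
  nlinarith

theorem p_ge_l : 10 ^ 9 * (l : ℝ) ≤ E.p := by
  have h1 := E.p_ge_lM
  have h2 := E.M_ge
  have h3 := E.l1
  nlinarith

theorem p_ge' : 8 * 10 ^ 17 ≤ (E.p : ℝ) := by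
  have h1 := E.p_ge
  have h2 := E.J_ge
  linarith

theorem one_le_p : 1 ≤ E.p := by
  have h1 := E.p_ge'
  have : (1 : ℝ) ≤ E.p := by linarith
  exact_mod_cast this

theorem n_ge : 10 ^ 8 ≤ (E.n : ℝ) := by
  have := E.hn
  have := E.hV
  linarith

theorem one_le_n : 1 ≤ E.n := by
  have h1 := E.n_ge
  have : (1 : ℝ) ≤ E.n := by linarith
  exact_mod_cast this

theorem n_pos : (0 : ℝ) < E.n := by linarith [E.n_ge]

theorem δ_pos : 0 < E.δ := div_pos (by norm_num) E.n_pos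

theorem δ_le : E.δ ≤ 22 / 10 ^ 8 := by
  unfold δ
  exact div_le_div_of_nonneg_left (by norm_num) (by norm_num) E.n_ge

theorem Vδ_le : E.V * E.δ ≤ 22 / 10 ^ 8 := by
  unfold δ
  rw [← mul_div_assoc, div_le_div_iff₀ E.n_pos (by norm_num)]
  have := E.hn
  linarith

theorem N_eq : (E.N : ℝ) = 4 * E.p * E.n := by
  unfold N
  push_cast
  ring

theorem N_ge : 10 ^ 18 * (E.n : ℝ) ≤ E.N := by
  rw [N_eq]
  have := E.p_ge'
  have := E.n_pos
  nlinarith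

theorem N_ge_V : 10 ^ 20 * E.V ≤ E.N := by
  have h1 := E.N_ge
  have h2 := E.hn
  have h3 := E.hV
  nlinarith

theorem kd_le : (kd E.n E.p : ℝ) ≤ E.N / 4 := by
  rw [N_eq]
  unfold kd
  have h : E.p * (E.n - 1) ≤ E.p * E.n := Nat.mul_le_mul_left _ (Nat.sub_le _ _)
  have h' : ((E.p * (E.n - 1) : ℕ) : ℝ) ≤ ((E.p * E.n : ℕ) : ℝ) := by exact_mod_cast h
  push_cast at h' ⊢
  linarith

theorem kd_le' : kd E.n E.p ≤ E.p * E.n := Nat.mul_le_mul_left _ (Nat.sub_le _ _)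

theorem l_le_p : l ≤ E.p := by
  have h1 := E.p_ge_l
  have h2 : (0 : ℝ) ≤ l := Nat.cast_nonneg l
  have : (l : ℝ) ≤ E.p := by linarith
  exact_mod_cast this

/-- `2 p n + (kd + l) ≤ N - kd` -/
theorem N_sub : 2 * E.p * E.n + (kd E.n E.p + l) ≤ E.N - kd E.n E.p := by
  have h1 : kd E.n E.p + E.p = E.p * E.n := by
    unfold kd
    have := E.one_le_n
    obtain ⟨k, hk⟩ : ∃ k, E.n = k + 1 := ⟨E.n - 1, by omega⟩
    rw [hk]
    simp only [Nat.add_sub_cancel]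
    ring
  have h2 := E.l_le_p
  have h3 : E.N = 4 * (E.p * E.n) := by unfold N; ring
  have h4 : 2 * E.p * E.n = 2 * (E.p * E.n) := by ring
  rw [h3, h4]
  omega

theorem kd_lt : kd E.n E.p < E.N - kd E.n E.p := by
  have h1 := E.N_sub
  have h2 : 0 < 2 * E.p * E.n := by
    have := E.one_le_p
    have := E.one_le_n
    positivity
  omega

theorem s_small : E.s * (E.N * E.R) ≤ 1 / (10 ^ 10 * ((l : ℝ) + 1)) := by
  have h1 := E.hs
  have h2 := E.M_ge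
  have h3 : ((4 * E.p * E.n : ℕ) : ℝ) = (E.N : ℝ) := rfl
  rw [h3] at h1
  have h4 : (0 : ℝ) < (l : ℝ) + 1 := by positivity
  have h5 : 0 ≤ E.s * (E.N * E.R) :=
    mul_nonneg E.hs0.le (mul_nonneg (Nat.cast_nonneg _) (by linarith [E.R_ge]))
  rw [le_div_iff₀ (by positivity)]
  have h6 : 10 ^ 10 * (((l : ℝ) + 1) * (E.s * (E.N * E.R))) ≤
      20000 * ((l : ℝ) + 1) * E.M * (E.N * E.R) * E.s * 4 := by
    have h7 : 0 ≤ ((l : ℝ) + 1) * (E.s * (E.N * E.R)) := mul_nonneg h4.le h5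
    nlinarith
  linarith

theorem sNR_le : E.s * (E.N * E.R) ≤ 1 / 10 ^ 10 := by
  refine E.s_small.trans ?_
  have := E.l1
  exact div_le_div_of_nonneg_left (by norm_num) (by norm_num) (by nlinarith)

theorem sN_le : E.s * E.N ≤ 1 / 10 ^ 13 := by
  have h1 := E.sNR_le
  have h2 := E.R_ge
  have h3 : 0 ≤ E.s * E.N := mul_nonneg E.hs0.le (Nat.cast_nonneg _)
  nlinarith

theorem sV_le : E.s * E.V ≤ 1 / 10 ^ 30 := by
  have h1 := E.sN_le
  have h2 := E.N_ge_V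
  have h3 := E.hs0
  nlinarith

theorem s_le : E.s ≤ 1 / 10 ^ 30 := by
  have h1 := E.sV_le
  have h2 := E.hV
  have h3 := E.hs0
  nlinarith

/-- the dilation scale is much smaller than the range of the kernel -/
theorem s_le_δ : 100 * E.s ≤ E.δ := by
  unfold δ
  rw [le_div_iff₀ E.n_pos]
  have h1 := E.sN_le
  have h2 := E.N_ge
  have h3 := E.hs0
  nlinarith

theorem V_le_s : E.V ≤ 1 / E.s := by
  rw [le_div_iff₀ E.hs0]
  have := E.sV_le
  linarith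

theorem one_le_s : 1 ≤ 1 / E.s := E.hV.trans E.V_le_s

/-- `e^(-p)` beats everything: `e^(-p) ≤ e^(-p/2) / (10^12 (l+1) M)` -/
theorem exp_p : Real.exp (-E.p) * (10 ^ 12 * (((l : ℝ) + 1) * E.M)) ≤ Real.exp (-(E.p : ℝ) / 2) := by
  have h1 := E.p_ge_lM
  have h2 := E.lM_ge
  have h3 := E.p_ge'
  have e1 : Real.exp (-(E.p : ℝ) / 2) = Real.exp (-E.p) * Real.exp ((E.p : ℝ) / 2) := by
    rw [← Real.exp_add]
    ring_nf
  rw [e1]
  refine mul_le_mul_of_nonneg_left ?_ (Real.exp_pos _).le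
  have h4 : (E.p : ℝ) / 4 ≤ Real.exp ((E.p : ℝ) / 4) := by
    have := Real.add_one_le_exp ((E.p : ℝ) / 4)
    linarith
  have h5 : Real.exp ((E.p : ℝ) / 2) = Real.exp ((E.p : ℝ) / 4) * Real.exp ((E.p : ℝ) / 4) := by
    rw [← Real.exp_add]
    ring_nf
  rw [h5]
  have h6 : (E.p : ℝ) / 4 * ((E.p : ℝ) / 4) ≤
      Real.exp ((E.p : ℝ) / 4) * Real.exp ((E.p : ℝ) / 4) :=
    mul_le_mul h4 h4 (by linarith) (Real.exp_pos _).le
  nlinarith

theorem exp_p_le : Real.exp (-E.p) ≤ 1 / 10 ^ 18 := by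
  have h1 := E.exp_p
  have h2 := E.lM_ge
  have h3 : Real.exp (-(E.p : ℝ) / 2) ≤ 1 := Real.exp_le_one_iff.2 (by linarith [E.p_ge'])
  have h4 := Real.exp_pos (-(E.p : ℝ))
  nlinarith

theorem exp_pM : Real.exp (-E.p) * (((l : ℝ) + 1) * E.M) ≤ 1 / 10 ^ 12 := by
  have h1 := E.exp_p
  have h3 : Real.exp (-(E.p : ℝ) / 2) ≤ 1 := Real.exp_le_one_iff.2 (by linarith [E.p_ge'])
  linarith

theorem N_sR : E.N * E.R * E.s = E.s * (E.N * E.R) := by ring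

end Ev

end Pool.Agent.Helper61.QF
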